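import Pool.Agent.W_868bb7_h64.PureA

set_option autoImplicit false

/-!
# Law64: the parity of a non-zero object cut out of `M^{⊗ n}` by the group algebra
-/

namespace Pool.Agent.W_868bb7_h64

open CategoryTheory MonoidalCategory Limits Pool.Agent.W_MP_868bb7_ag
  Pool.Agent.W_MP_868bb7_h79

universe v u w

variable {K : Type w} [Field K] [CharZero K] {C : Type u} [Category.{v} C] [MonoidalCategory C]
  [Preadditive C] [Linear K C] [MonoidalPreadditive C] [MonoidalLinear K C]
  [SymmetricCategory C] [RightRigidCategory C] [UnitK K C]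
  [HasBinaryBiproducts C] [IsIdempotentComplete C]

include K in
theorem pow_even {M : C} (h : Fd true (𝟙 M)) (n : ℕ) : Fd true (𝟙 (pow M n)) := by
  induction n with
  | zero => exact unit_Fd (K := K)
  | succ n ih =>
    have h1 := Fd_tensor K true true (𝟙 M) (𝟙 (pow M n)) h ih
    rw [id_tensorHom_id] at h1
    exact h1

include K in
theorem pow_odd {M : C} (h : Fd false (𝟙 M)) (n : ℕ) :
    Fd (decide (Even n)) (𝟙 (pow M n)) := by
  induction n with
  | zero => exact unit_Fd (K := K)
  | succ n ih =>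
    have h1 := Fd_tensor K false (decide (Even n)) (𝟙 M) (𝟙 (pow M n)) h ih
    rw [id_tensorHom_id] at h1
    have h2 : (false == decide (Even n)) = decide (Even (n + 1)) := by
      by_cases hn : Even n
      · simp [hn, Nat.even_add_one]
      · simp [hn, Nat.even_add_one]
    rw [h2] at h1
    exact h1

include K in
theorem not_both {S : C} (hS : ¬ IsZero S) (h1 : Fd true (𝟙 S)) (h2 : Fd false (𝟙 S)) : False := by
  have h3 : tr K (𝟙 S ≫ 𝟙 S) = 0 :=
    cross K true (𝟙 S) (𝟙 S) (by rw [Category.comp_id]; exact h1)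
      (by rw [Category.comp_id]; exact h2)
  rw [Category.comp_id] at h3
  exact hS ((IsZero.iff_id_eq_zero S).2 (idem_zero K true (𝟙 S) (Category.comp_id _) h1 h3))

variable (K) in
theorem law (M S : C) (n : ℕ) (hn : 1 ≤ n) (a : Equiv.Perm (Fin n) → K)
    (i : S ⟶ pow M n) (p : pow M n ⟶ S) (hip : i ≫ p = 𝟙 S)
    (hpi : p ≫ i = ∑ σ, a σ • act M n σ) (hS : ¬ IsZero S) :
    (EvenFD K S ↔ EvenFD K M ∨ (Even n ∧ OddFD K M)) ∧ (OddFD K S ↔ Odd n ∧ OddFD K M) := by
  have hcut : ∀ b, Fd b (𝟙 (pow M n)) → Fd b (𝟙 S) := by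
    intro b hb
    have h1 := Fd_conj b i (𝟙 (pow M n)) p hb
    rw [Category.id_comp, hip] at h1
    exact h1
  have e1 : EvenFD K M → EvenFD K S := fun h =>
    (Fd_even K S).1 (hcut true (pow_even (K := K) ((Fd_even K M).2 h) n))
  have e2 : Even n → OddFD K M → EvenFD K S := fun hev h => by
    have h1 := pow_odd (K := K) ((Fd_odd K M).2 h) n
    rw [decide_eq_true hev] at h1
    exact (Fd_even K S).1 (hcut true h1)
  have e3 : Odd n → OddFD K M → OddFD K S := fun hod h => by
    have h1 := pow_odd (K := K) ((Fd_odd K M).2 h) n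
    rw [decide_eq_false (Nat.not_even_iff_odd.2 hod)] at h1
    exact (Fd_odd K S).1 (hcut false h1)
  have hnb : EvenFD K S → OddFD K S → False := fun h1 h2 =>
    not_both (K := K) hS ((Fd_even K S).2 h1) ((Fd_odd K S).2 h2)
  have hp := pure_iff K M S n hn a i p hip hpi hS
  constructor
  · constructor
    · intro h
      rcases hp.2 (Or.inl h) with h1 | h1
      · exact Or.inl h1
      · rcases Nat.even_or_odd n with h2 | h2
        · exact Or.inr ⟨h2, h1⟩
        · exact (hnb h (e3 h2 h1)).elim
    · rintro (h | ⟨h1, h2⟩)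
      · exact e1 h
      · exact e2 h1 h2
  · constructor
    · intro h
      rcases hp.2 (Or.inr h) with h1 | h1
      · exact (hnb (e1 h1) h).elim
      · rcases Nat.even_or_odd n with h2 | h2
        · exact (hnb (e2 h2 h1) h).elim
        · exact ⟨h2, h1⟩
    · rintro ⟨h1, h2⟩
      exact e3 h1 h2

end Pool.Agent.W_868bb7_h64
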