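import Mathlib

set_option autoImplicit false

/-!
# Maschke: no nil left ideals in the algebra spanned by a finite group

`E` is a left module over `MonoidAlgebra K G` through the ring homomorphism
`φ = MonoidAlgebra.lift K G E ρ` (`Module.compHom`); the range of `φ` is
`Algebra.adjoin K (Set.range ρ)`.  `L = {φ a * y}` is a submodule, so by Maschke's
theorem (`MonoidAlgebra.Submodule.exists_isCompl`, `Mathlib.RepresentationTheory.Maschke`) there is
a `MonoidAlgebra K G`-linear projection `π : E → L`.  Put `ε = π 1`.  As `y` is in the range of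
`φ`, every element `l` of `L` is `φ a` for some `a`, so
`l = π l = π (a • 1) = a • π 1 = φ a * ε = l * ε`.  In particular `ε * ε = ε`, and `ε ∈ L` is
nilpotent by hypothesis, so `ε = 0` and `y = y * ε = 0`.
-/

namespace Pool.Agent.W_868bb7_h64

theorem Maschke_idem {E : Type*} [Ring E] (e : E) (h : e * e = e) (hn : IsNilpotent e) :
    e = 0 := by
  obtain ⟨n, hn⟩ := hn
  have h1 : ∀ m : ℕ, e ^ (m + 1) = e := by
    intro m
    induction m with
    | zero => rw [zero_add, pow_one]
    | succ m ih => rw [pow_succ, ih, h]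
  rcases Nat.eq_zero_or_pos n with h0 | h0
  · rw [h0, pow_zero] at hn
    calc e = e * 1 := (mul_one e).symm
      _ = 0 := by rw [hn, mul_zero]
  · obtain ⟨m, rfl⟩ := Nat.exists_eq_add_of_le' h0
    rw [h1 m] at hn
    exact hn

theorem maschke_nil {K : Type*} [Field K] [CharZero K] {E : Type*} [Ring E] [Algebra K E]
    {G : Type*} [Group G] [Finite G] (ρ : G →* E) (y : E)
    (hy : y ∈ Algebra.adjoin K (Set.range ρ))
    (h : ∀ a ∈ Algebra.adjoin K (Set.range ρ), IsNilpotent (a * y)) : y = 0 := by
  have : NeZero (Nat.card G : K) := ⟨Nat.cast_ne_zero.mpr Nat.card_pos.ne'⟩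
  let φ : MonoidAlgebra K G →ₐ[K] E := MonoidAlgebra.lift K E G ρ
  have hφof : ∀ g, φ (MonoidAlgebra.of K G g) = ρ g := fun g => MonoidAlgebra.lift_of ρ g
  have hφ : ∀ a, φ a ∈ Algebra.adjoin K (Set.range ρ) := by
    intro a
    induction a using MonoidAlgebra.induction_on with
    | of g =>
      rw [hφof]
      exact Algebra.subset_adjoin ⟨g, rfl⟩
    | add f g hf hg =>
      rw [map_add]
      exact add_mem hf hg
    | smul r f hf =>
      rw [map_smul]
      exact Subalgebra.smul_mem _ hf r
  have hrange : Algebra.adjoin K (Set.range ρ) ≤ φ.range := by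
    apply Algebra.adjoin_le
    rintro _ ⟨g, rfl⟩
    exact ⟨MonoidAlgebra.of K G g, hφof g⟩
  obtain ⟨b, hb⟩ := hrange hy
  have hb' : φ b = y := hb
  let : Module (MonoidAlgebra K G) E := Module.compHom E φ.toRingHom
  have hsmul : ∀ (a : MonoidAlgebra K G) (x : E), a • x = φ a * x := fun a x => rfl
  let L : Submodule (MonoidAlgebra K G) E := Submodule.span (MonoidAlgebra K G) {y}
  have hL : ∀ l ∈ L, ∃ a, l = φ a * y := by
    intro l hl
    obtain ⟨a, ha⟩ := Submodule.mem_span_singleton.mp hl
    exact ⟨a, by rw [← ha, hsmul]⟩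
  obtain ⟨g, hg⟩ := MonoidAlgebra.exists_leftInverse_of_injective L.subtype L.ker_subtype
  have hgL : ∀ (l : E) (hl : l ∈ L), g l = ⟨l, hl⟩ := fun l hl =>
    LinearMap.congr_fun hg ⟨l, hl⟩
  set e : E := (g 1 : E) with he
  have heL : e ∈ L := (g 1).2
  have key : ∀ l ∈ L, l = l * e := by
    intro l hl
    obtain ⟨a, ha⟩ := hL l hl
    have h1 : l = (a * b) • (1 : E) := by
      rw [hsmul, mul_one, map_mul, hb', ha]
    have h2 : (g l : E) = l := by rw [hgL l hl]
    have h3 : (g l : E) = (a * b) • e := by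
      conv_lhs => rw [h1, map_smul]
      rfl
    have h4 : φ (a * b) = l := by
      rw [map_mul, hb', ha]
    have h5 : l * e = (g l : E) := by
      rw [h3, hsmul, h4]
    rw [h5, h2]
  have hee : e * e = e := (key e heL).symm
  have hnil : IsNilpotent e := by
    obtain ⟨a, ha⟩ := hL e heL
    rw [ha]
    exact h _ (hφ a)
  have he0 : e = 0 := Maschke_idem e hee hnil
  have hyL : y ∈ L := Submodule.mem_span_singleton_self y
  rw [key y hyL, he0, mul_zero]

end Pool.Agent.W_868bb7_h64
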