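import Pool.Agent.W_868bb7_h64.Casim

set_option autoImplicit false

/-!
# Action: the action of `W = M ⊗ Mᘁ` on `M`, `M^{⊗ n}` and `S`

* `ka`: `W ⊗ M ⟶ M`; `kh = ka ≫ (coevaluation)`: `W ⊗ M ⟶ W ⊗ M`.
* `ptr_kh`: `ptr M (kh M) = cap M ≫ η_ M Mᘁ`: `kh = ka ≫ (λ_ M).inv ≫ η ▷ M`, `ptr_nat_right` pulls
  `η` out; `ptr M (ka M ≫ (λ_ M).inv) = cap M` by a zigzag identity (`M ⊗ Mᘁ → M ⊗ Mᘁ ⊗ M ⊗ Mᘁ → ..`).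
* `kh_faithful`: `η ▷ M` is a split monomorphism (zigzag), and `r` is recovered from `r ▷ M ≫ ka M` by
  `r = (ρ_ A).inv ≫ A ◁ η ≫ α.inv ≫ (r ▷ M ≫ ka M) ▷ Mᘁ` (zigzag).
* `k0 M m : W ⊗ pow M (m+1) ⟶ pow M (m+1)` acts on the first strand, `kj` on the strand `j`;
  `ins M m`: insertion of the coevaluation.  `ins_k0`: zigzag.  `fj_kh`: naturality.
* `kS_comm`: `∑ j, fj (kh M) j` commutes with `rr σ` (`rr_fj`, reindex); use `fj_kh`, naturality of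
  `ins`, and cancel the split monomorphism `ins` (`ins_k0`).
* `act_S D = (W ◁ D.i) ≫ kS ≫ D.p`; `DD D : W ⟶ S ⊗ Sᘁ` its adjoint; `DD_act`: zigzag.
* `kills_of_zero`: for `r : W ⟶ W` put `φ = r ▷ M ≫ kh M`.  `ptr M φ = r ≫ cap M ≫ η = 0`
  (`ptr_nat_left`, `ptr_kh`).  `fj φ j = fj (kh M) j * (r ▷ pow M (m+1))` (naturality), so
  `(∑ j, fj φ j) * (W ◁ e)` is the morphism `(W ◁ e) ≫ (r ▷ P) ≫ kS ≫ ins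
  = (r ▷ P) ≫ (W ◁ e) ≫ kS ≫ e ≫ ins = (r ▷ P) ≫ (W ◁ p) ≫ act_S ≫ i ≫ ins
  = (W ◁ p) ≫ (r ▷ S) ≫ act_S ≫ i ≫ ins`, and `(r ▷ S) ≫ act_S D = 0` by `DD_act` from `r ≫ DD D = 0`.
-/

namespace Pool.Agent.W_868bb7_h64

open CategoryTheory MonoidalCategory Pool.Agent.W_MP_868bb7_ag

universe v u w

theorem Action_whisker_sum {C : Type u} [Category.{v} C] [MonoidalCategory C]
    [Preadditive C] [MonoidalPreadditive C] (X : C) {P Q : C} {ι : Type*} (s : Finset ι)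
    (f : ι → (P ⟶ Q)) : X ◁ (∑ i ∈ s, f i) = ∑ i ∈ s, X ◁ f i := by
  classical
  induction s using Finset.induction_on with
  | empty => simp
  | insert a s ha ih =>
    rw [Finset.sum_insert ha, Finset.sum_insert ha, MonoidalPreadditive.whiskerLeft_add, ih]

section Sym

variable {C : Type u} [Category.{v} C] [MonoidalCategory C] [RightRigidCategory C]

/-- the action of `W = M ⊗ Mᘁ` on `M` -/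
def ka (M : C) : (M ⊗ Mᘁ) ⊗ M ⟶ M := (α_ M Mᘁ M).hom ≫ M ◁ ε_ M Mᘁ ≫ (ρ_ M).hom

/-- the action followed by the coevaluation -/
def kh (M : C) : (M ⊗ Mᘁ) ⊗ M ⟶ (M ⊗ Mᘁ) ⊗ M := ka M ≫ (λ_ M).inv ≫ η_ M Mᘁ ▷ M

/-- the action on the first strand -/
def k0 (M : C) (m : ℕ) : (M ⊗ Mᘁ) ⊗ pow M (m + 1) ⟶ pow M (m + 1) :=
  (α_ (M ⊗ Mᘁ) M (pow M m)).inv ≫ ka M ▷ pow M m

/-- insertion of the coevaluation -/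
def ins (M P : C) : P ⟶ (M ⊗ Mᘁ) ⊗ P := (λ_ P).inv ≫ η_ M Mᘁ ▷ P

theorem Action_zig (M : C) : η_ M Mᘁ ▷ M ≫ ka M = (λ_ M).hom := by
  unfold ka
  have h1 : η_ M Mᘁ ▷ M ≫ (α_ M Mᘁ M).hom ≫ M ◁ ε_ M Mᘁ = (λ_ M).hom ≫ (ρ_ M).inv :=
    ExactPairing.evaluation_coevaluation M Mᘁ
  have h2 := congrArg (fun t => t ≫ (ρ_ M).hom) h1
  simp only [Category.assoc, Iso.inv_hom_id, Category.comp_id] at h2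
  exact h2

theorem Action_zag (M : C) : (ρ_ (M ⊗ Mᘁ)).inv ≫ (M ⊗ Mᘁ) ◁ η_ M Mᘁ ≫
    (α_ (M ⊗ Mᘁ) M Mᘁ).inv ≫ ka M ▷ Mᘁ = 𝟙 (M ⊗ Mᘁ) := by
  unfold ka
  have h1 : Mᘁ ◁ η_ M Mᘁ ≫ (α_ Mᘁ M Mᘁ).inv ≫ ε_ M Mᘁ ▷ Mᘁ = (ρ_ Mᘁ).hom ≫ (λ_ Mᘁ).inv :=
    ExactPairing.coevaluation_evaluation M Mᘁ
  have h2 : (ρ_ (M ⊗ Mᘁ)).inv ≫ (M ⊗ Mᘁ) ◁ η_ M Mᘁ ≫ (α_ (M ⊗ Mᘁ) M Mᘁ).inv ≫
      ((α_ M Mᘁ M).hom ≫ M ◁ ε_ M Mᘁ ≫ (ρ_ M).hom) ▷ Mᘁ =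
      M ◁ ((ρ_ Mᘁ).inv ≫ (Mᘁ ◁ η_ M Mᘁ ≫ (α_ Mᘁ M Mᘁ).inv ≫ ε_ M Mᘁ ▷ Mᘁ) ≫
        (λ_ Mᘁ).hom) := by
    monoidal
  rw [h2, h1]
  simp

theorem Action_zigW (W S : C) : (ρ_ W).inv ▷ S ≫ (W ◁ η_ S Sᘁ) ▷ S ≫
      (α_ W S Sᘁ).inv ▷ S ≫ (α_ (W ⊗ S) Sᘁ S).hom ≫
      (W ⊗ S) ◁ ε_ S Sᘁ ≫ (ρ_ (W ⊗ S)).hom = 𝟙 _ := by
  have h1 : η_ S Sᘁ ▷ S ≫ (α_ S Sᘁ S).hom ≫ S ◁ ε_ S Sᘁ = (λ_ S).hom ≫ (ρ_ S).inv :=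
    ExactPairing.evaluation_coevaluation S Sᘁ
  have h2 : (ρ_ W).inv ▷ S ≫ (W ◁ η_ S Sᘁ) ▷ S ≫
      (α_ W S Sᘁ).inv ▷ S ≫ (α_ (W ⊗ S) Sᘁ S).hom ≫
      (W ⊗ S) ◁ ε_ S Sᘁ ≫ (ρ_ (W ⊗ S)).hom =
      W ◁ ((λ_ S).inv ≫ (η_ S Sᘁ ▷ S ≫ (α_ S Sᘁ S).hom ≫ S ◁ ε_ S Sᘁ) ≫ (ρ_ S).hom) := by
    monoidal
  rw [h2, h1]
  simp

theorem Action_kh_ka (M : C) : kh M ≫ ka M = ka M := by
  unfold kh
  simp only [Category.assoc]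
  rw [Action_zig, Iso.inv_hom_id, Category.comp_id]

theorem Action_ins (M : C) {P Q : C} (g : P ⟶ Q) :
    ins M P ≫ (M ⊗ Mᘁ) ◁ g = g ≫ ins M Q := by
  unfold ins
  rw [Category.assoc, ← whisker_exchange, leftUnitor_inv_naturality_assoc]

theorem ins_k0 (M : C) (m : ℕ) : ins M (pow M (m + 1)) ≫ k0 M m = 𝟙 _ := by
  unfold ins k0
  change ((λ_ (M ⊗ pow M m)).inv ≫ η_ M Mᘁ ▷ (M ⊗ pow M m)) ≫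
    (α_ (M ⊗ Mᘁ) M (pow M m)).inv ≫ ka M ▷ pow M m = 𝟙 (M ⊗ pow M m)
  rw [Category.assoc, associator_inv_naturality_left_assoc, ← comp_whiskerRight, Action_zig]
  simp

variable [SymmetricCategory C]

theorem ptr_kh (M : C) : ptr M (kh M) = cap M ≫ η_ M Mᘁ := by
  have h1 : kh M = (ka M ≫ (λ_ M).inv) ≫ η_ M Mᘁ ▷ M := by
    unfold kh
    rw [Category.assoc]
  rw [h1, ptr_nat_right]
  congr 1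
  have h2 : ptr M (ka M ≫ (λ_ M).inv) = ((ρ_ (M ⊗ Mᘁ)).inv ≫ (M ⊗ Mᘁ) ◁ η_ M Mᘁ ≫
      (α_ (M ⊗ Mᘁ) M Mᘁ).inv ≫ ka M ▷ Mᘁ) ≫ ((λ_ M).inv ▷ Mᘁ ≫ (α_ (𝟙_ C) M Mᘁ).hom ≫
        𝟙_ C ◁ cap M ≫ (ρ_ (𝟙_ C)).hom) := by
    unfold ptr
    simp only [comp_whiskerRight, Category.assoc]
  rw [h2, Action_zag, Category.id_comp]
  monoidal

theorem Action_f0 (M : C) (m : ℕ) :
    (show (M ⊗ Mᘁ) ⊗ pow M (m + 1) ⟶ (M ⊗ Mᘁ) ⊗ pow M (m + 1) from f0 (kh M) m) =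
      k0 M m ≫ ins M (pow M (m + 1)) := by
  change (α_ (M ⊗ Mᘁ) M (pow M m)).inv ≫ kh M ▷ pow M m ≫ (α_ (M ⊗ Mᘁ) M (pow M m)).hom =
    ((α_ (M ⊗ Mᘁ) M (pow M m)).inv ≫ ka M ▷ pow M m) ≫
      ((λ_ (M ⊗ pow M m)).inv ≫ η_ M Mᘁ ▷ (M ⊗ pow M m))
  unfold kh
  simp only [comp_whiskerRight, Category.assoc]
  rw [associator_naturality_left]
  simp

theorem Action_f0_pre (M : C) (m : ℕ) (r : M ⊗ Mᘁ ⟶ M ⊗ Mᘁ) (φ : (M ⊗ Mᘁ) ⊗ M ⟶ (M ⊗ Mᘁ) ⊗ M) :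
    (show (M ⊗ Mᘁ) ⊗ pow M (m + 1) ⟶ (M ⊗ Mᘁ) ⊗ pow M (m + 1) from f0 (r ▷ M ≫ φ) m) =
      r ▷ pow M (m + 1) ≫
      (show (M ⊗ Mᘁ) ⊗ pow M (m + 1) ⟶ (M ⊗ Mᘁ) ⊗ pow M (m + 1) from f0 φ m) := by
  change (α_ (M ⊗ Mᘁ) M (pow M m)).inv ≫ (r ▷ M ≫ φ) ▷ pow M m ≫
    (α_ (M ⊗ Mᘁ) M (pow M m)).hom = r ▷ (M ⊗ pow M m) ≫ (α_ (M ⊗ Mᘁ) M (pow M m)).inv ≫
      φ ▷ pow M m ≫ (α_ (M ⊗ Mᘁ) M (pow M m)).hom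
  rw [comp_whiskerRight, Category.assoc, associator_inv_naturality_left_assoc]

/-- the action on the strand `j` -/
def kj (M : C) {m : ℕ} (j : Fin (m + 1)) : (M ⊗ Mᘁ) ⊗ pow M (m + 1) ⟶ pow M (m + 1) :=
  (M ⊗ Mᘁ) ◁ act M (m + 1) (Equiv.swap 0 j) ≫ k0 M m ≫ act M (m + 1) (Equiv.swap 0 j)

theorem fj_kh (M : C) {m : ℕ} (j : Fin (m + 1)) :
    (fj (kh M) j : (M ⊗ Mᘁ) ⊗ pow M (m + 1) ⟶ (M ⊗ Mᘁ) ⊗ pow M (m + 1)) =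
      kj M j ≫ ins M (pow M (m + 1)) := by
  have h1 : (fj (kh M) j : (M ⊗ Mᘁ) ⊗ pow M (m + 1) ⟶ (M ⊗ Mᘁ) ⊗ pow M (m + 1)) =
      (M ⊗ Mᘁ) ◁ act M (m + 1) (Equiv.swap 0 j) ≫
        (show (M ⊗ Mᘁ) ⊗ pow M (m + 1) ⟶ (M ⊗ Mᘁ) ⊗ pow M (m + 1) from f0 (kh M) m) ≫
        (M ⊗ Mᘁ) ◁ act M (m + 1) (Equiv.swap 0 j) := rfl
  rw [h1, Action_f0]
  unfold kj
  simp only [Category.assoc]
  rw [Action_ins]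

theorem fj_pre (M : C) {m : ℕ} (r : M ⊗ Mᘁ ⟶ M ⊗ Mᘁ) (j : Fin (m + 1)) :
    (fj (r ▷ M ≫ kh M) j : (M ⊗ Mᘁ) ⊗ pow M (m + 1) ⟶ (M ⊗ Mᘁ) ⊗ pow M (m + 1)) =
      r ▷ pow M (m + 1) ≫ kj M j ≫ ins M (pow M (m + 1)) := by
  rw [← fj_kh]
  have h1 : ∀ φ : (M ⊗ Mᘁ) ⊗ M ⟶ (M ⊗ Mᘁ) ⊗ M,
      (fj φ j : (M ⊗ Mᘁ) ⊗ pow M (m + 1) ⟶ (M ⊗ Mᘁ) ⊗ pow M (m + 1)) =
      (M ⊗ Mᘁ) ◁ act M (m + 1) (Equiv.swap 0 j) ≫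
        (show (M ⊗ Mᘁ) ⊗ pow M (m + 1) ⟶ (M ⊗ Mᘁ) ⊗ pow M (m + 1) from f0 φ m) ≫
        (M ⊗ Mᘁ) ◁ act M (m + 1) (Equiv.swap 0 j) := fun φ => rfl
  rw [h1, h1, Action_f0_pre, Category.assoc, whisker_exchange_assoc]

variable [Preadditive C] [MonoidalPreadditive C]

theorem kh_faithful (M : C) {A : C} (r : A ⟶ M ⊗ Mᘁ) (h : r ▷ M ≫ kh M = 0) : r = 0 := by
  have h1 : r ▷ M ≫ ka M = 0 := by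
    have h2 : r ▷ M ≫ ka M = (r ▷ M ≫ kh M) ≫ ka M := by
      rw [Category.assoc, Action_kh_ka]
    rw [h2, h, Limits.zero_comp]
  have h3 : r = (ρ_ A).inv ≫ A ◁ η_ M Mᘁ ≫ (α_ A M Mᘁ).inv ≫ (r ▷ M ≫ ka M) ▷ Mᘁ := by
    rw [comp_whiskerRight, ← associator_inv_naturality_left_assoc, whisker_exchange_assoc,
      ← rightUnitor_inv_naturality_assoc, Action_zag, Category.comp_id]
  rw [h3, h1]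
  simp

/-- the action on `M^{⊗ (m+1)}` -/
def kS (M : C) (m : ℕ) : (M ⊗ Mᘁ) ⊗ pow M (m + 1) ⟶ pow M (m + 1) :=
  ∑ j : Fin (m + 1), kj M j

theorem kS_comm (M : C) (m : ℕ) (σ : Equiv.Perm (Fin (m + 1))) :
    (M ⊗ Mᘁ) ◁ act M (m + 1) σ ≫ kS M m = kS M m ≫ act M (m + 1) σ := by
  have h1 : ∀ j : Fin (m + 1), (M ⊗ Mᘁ) ◁ act M (m + 1) σ ≫ kj M (σ j) =
      kj M j ≫ act M (m + 1) σ := by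
    intro j
    have h2 : (fj (kh M) j : (M ⊗ Mᘁ) ⊗ pow M (m + 1) ⟶ (M ⊗ Mᘁ) ⊗ pow M (m + 1)) ≫
        (M ⊗ Mᘁ) ◁ act M (m + 1) σ = (M ⊗ Mᘁ) ◁ act M (m + 1) σ ≫
        (fj (kh M) (σ j) : (M ⊗ Mᘁ) ⊗ pow M (m + 1) ⟶ (M ⊗ Mᘁ) ⊗ pow M (m + 1)) :=
      rr_fj (kh M) σ j
    rw [fj_kh, fj_kh, Category.assoc, Action_ins] at h2
    have h3 := congrArg (fun t => t ≫ k0 M m) h2
    simp only [Category.assoc] at h3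
    rw [ins_k0, Category.comp_id, Category.comp_id] at h3
    exact h3.symm
  unfold kS
  rw [Preadditive.comp_sum, Preadditive.sum_comp]
  rw [← Equiv.sum_comp σ]
  exact Finset.sum_congr rfl fun j _ => h1 j

end Sym

variable {K : Type w} [Field K] [CharZero K] {C : Type u} [Category.{v} C] [MonoidalCategory C]
  [Preadditive C] [Linear K C] [MonoidalPreadditive C] [MonoidalLinear K C]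
  [SymmetricCategory C] [RightRigidCategory C] [UnitK K C]

/-- the action on `S` -/
def actS {M : C} {m : ℕ} (D : Cut K M (m + 1)) : (M ⊗ Mᘁ) ⊗ D.S ⟶ D.S :=
  (M ⊗ Mᘁ) ◁ D.i ≫ kS M m ≫ D.p

/-- the adjoint of the action on `S` -/
def DD {M : C} {m : ℕ} (D : Cut K M (m + 1)) : M ⊗ Mᘁ ⟶ D.S ⊗ D.Sᘁ :=
  (ρ_ (M ⊗ Mᘁ)).inv ≫ (M ⊗ Mᘁ) ◁ η_ D.S D.Sᘁ ≫ (α_ (M ⊗ Mᘁ) D.S D.Sᘁ).inv ≫ actS D ▷ D.Sᘁ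

theorem DD_act {M : C} {m : ℕ} (D : Cut K M (m + 1)) :
    DD D ▷ D.S ≫ (α_ D.S D.Sᘁ D.S).hom ≫ D.S ◁ ε_ D.S D.Sᘁ ≫ (ρ_ D.S).hom = actS D := by
  unfold DD
  simp only [comp_whiskerRight, Category.assoc]
  rw [associator_naturality_left_assoc, ← whisker_exchange_assoc, rightUnitor_naturality]
  have h1 : (ρ_ (M ⊗ Mᘁ)).inv ▷ D.S ≫ ((M ⊗ Mᘁ) ◁ η_ D.S D.Sᘁ) ▷ D.S ≫
      (α_ (M ⊗ Mᘁ) D.S D.Sᘁ).inv ▷ D.S ≫ (α_ ((M ⊗ Mᘁ) ⊗ D.S) D.Sᘁ D.S).hom ≫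
      ((M ⊗ Mᘁ) ⊗ D.S) ◁ ε_ D.S D.Sᘁ ≫ (ρ_ ((M ⊗ Mᘁ) ⊗ D.S)).hom = 𝟙 _ :=
    Action_zigW _ _
  have h2 := congrArg (fun t => t ≫ actS D) h1
  simp only [Category.assoc, Category.id_comp] at h2
  exact h2

theorem kills_of_zero {M : C} {m : ℕ} (D : Cut K M (m + 1)) (r : M ⊗ Mᘁ ⟶ M ⊗ Mᘁ)
    (h1 : r ≫ DD D = 0) (h2 : r ≫ cap M = 0) : Kills D (r ▷ M ≫ kh M) := by
  refine ⟨?_, ?_⟩
  · rw [ptr_nat_left, ptr_kh, ← Category.assoc, h2, Limits.zero_comp]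
  · have e1 : (show pow M (m + 1) ⟶ pow M (m + 1) from D.e) = D.p ≫ D.i := rfl
    have e2 : (M ⊗ Mᘁ) ◁ (D.p ≫ D.i) ≫ kS M m = kS M m ≫ D.p ≫ D.i := by
      rw [D.hpi, Action_whisker_sum, Preadditive.sum_comp, Preadditive.comp_sum]
      refine Finset.sum_congr rfl fun σ _ => ?_
      rw [MonoidalLinear.whiskerLeft_smul, Linear.smul_comp, Linear.comp_smul, kS_comm]
    have e3 : r ▷ D.S ≫ actS D = 0 := by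
      rw [← DD_act, ← Category.assoc, ← comp_whiskerRight, h1]
      simp
    have e4 : r ▷ pow M (m + 1) ≫ (M ⊗ Mᘁ) ◁ (D.p ≫ D.i) ≫ kS M m = 0 := by
      have e5 : (M ⊗ Mᘁ) ◁ (D.p ≫ D.i) ≫ kS M m =
          (M ⊗ Mᘁ) ◁ D.p ≫ actS D ≫ D.i := by
        have e6 : D.p ≫ D.i = (D.p ≫ D.i) ≫ (D.p ≫ D.i) := by
          rw [Category.assoc, ← Category.assoc D.i, D.hip, Category.id_comp]
        calc (M ⊗ Mᘁ) ◁ (D.p ≫ D.i) ≫ kS M m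
            = (M ⊗ Mᘁ) ◁ ((D.p ≫ D.i) ≫ (D.p ≫ D.i)) ≫ kS M m := by rw [← e6]
          _ = (M ⊗ Mᘁ) ◁ (D.p ≫ D.i) ≫ (M ⊗ Mᘁ) ◁ (D.p ≫ D.i) ≫ kS M m := by
              rw [MonoidalCategory.whiskerLeft_comp, Category.assoc]
          _ = (M ⊗ Mᘁ) ◁ (D.p ≫ D.i) ≫ kS M m ≫ D.p ≫ D.i := by rw [e2]
          _ = (M ⊗ Mᘁ) ◁ D.p ≫ actS D ≫ D.i := by
              unfold actS
              simp only [MonoidalCategory.whiskerLeft_comp, Category.assoc]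
      rw [e5, ← whisker_exchange_assoc, ← Category.assoc (r ▷ D.S), e3, Limits.zero_comp,
        Limits.comp_zero]
    have e7 : (∑ j : Fin (m + 1), fj (r ▷ M ≫ kh M) j :
        End ((M ⊗ Mᘁ) ⊗ pow M (m + 1))) =
        (show End ((M ⊗ Mᘁ) ⊗ pow M (m + 1)) from
          (r ▷ pow M (m + 1) ≫ kS M m ≫ ins M (pow M (m + 1)))) := by
      have e8 : (r ▷ pow M (m + 1) ≫ kS M m ≫ ins M (pow M (m + 1)) :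
          (M ⊗ Mᘁ) ⊗ pow M (m + 1) ⟶ (M ⊗ Mᘁ) ⊗ pow M (m + 1)) =
          ∑ j : Fin (m + 1), (r ▷ pow M (m + 1) ≫ kj M j ≫ ins M (pow M (m + 1)) :
            (M ⊗ Mᘁ) ⊗ pow M (m + 1) ⟶ (M ⊗ Mᘁ) ⊗ pow M (m + 1)) := by
        unfold kS
        rw [Preadditive.sum_comp, Preadditive.comp_sum]
      refine Eq.trans ?_ e8.symm
      exact Finset.sum_congr rfl fun j _ => fj_pre M r j
    rw [e7]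
    change (M ⊗ Mᘁ) ◁ (D.p ≫ D.i) ≫ r ▷ pow M (m + 1) ≫ kS M m ≫ ins M (pow M (m + 1)) = 0
    rw [whisker_exchange_assoc, ← Category.assoc ((M ⊗ Mᘁ) ◁ (D.p ≫ D.i)),
      ← Category.assoc (r ▷ pow M (m + 1)), e4, Limits.zero_comp]

end Pool.Agent.W_868bb7_h64
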