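import Pool.Agent.W_MP_868bb7_ag.ThmB
import Pool.Agent.W_MP_868bb7_h79.Smash

set_option autoImplicit false

/-!
# Base: the basic data

`Cut K M n`: a non-zero Kimura-finite object `S` cut out of `M^{⊗ n}` by an element of the group
algebra of the symmetric group.  Compositions in `End X` are functional: `f * g = g ≫ f`
(`End.mul_def`).
-/

namespace Pool.Agent.W_868bb7_h64

open CategoryTheory MonoidalCategory Pool.Agent.W_MP_868bb7_ag

universe v u w

section

variable {C : Type u} [Category.{v} C] [MonoidalCategory C] [SymmetricCategory C]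

/-- the action of the symmetric group, as a homomorphism -/
def rho (X : C) (n : ℕ) : Equiv.Perm (Fin n) →* End (pow X n) where
  toFun σ := act X n σ
  map_one' := act_one X n
  map_mul' σ τ := act_mul X n σ τ

theorem rho_apply (X : C) (n : ℕ) (σ : Equiv.Perm (Fin n)) : rho X n σ = act X n σ := rfl

end

/-- a non-zero Kimura-finite object `S`, the image of an idempotent of `M^{⊗ n}` which is given by
an element of the group algebra; `ev` is the projection of `S` to its even part -/
structure Cut (K : Type w) [Field K] {C : Type u} [Category.{v} C] [MonoidalCategory C]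
    [Preadditive C] [Linear K C] [SymmetricCategory C] (M : C) (n : ℕ) where
  /-- the object -/
  S : C
  /-- inclusion -/
  i : S ⟶ pow M n
  /-- projection -/
  p : pow M n ⟶ S
  hip : i ≫ p = 𝟙 S
  /-- coefficients -/
  a : Equiv.Perm (Fin n) → K
  hpi : p ≫ i = ∑ σ, a σ • act M n σ
  /-- even part -/
  ev : S ⟶ S
  idem : ev ≫ ev = ev
  fdt : Fd true ev
  fdf : Fd false (𝟙 S - ev)
  ne : 𝟙 S ≠ 0

variable {K : Type w} [Field K] [CharZero K] {C : Type u} [Category.{v} C] [MonoidalCategory C]
  [Preadditive C] [Linear K C] [MonoidalPreadditive C] [MonoidalLinear K C]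
  [SymmetricCategory C] [RightRigidCategory C] [UnitK K C]

namespace Cut

variable {M : C} {n : ℕ} (D : Cut K M n)

omit [CharZero K] [MonoidalPreadditive C] [MonoidalLinear K C] [RightRigidCategory C]
  [UnitK K C] in
/-- the idempotent of `M^{⊗ n}` -/
def e : End (pow M n) := D.p ≫ D.i

omit [CharZero K] [MonoidalPreadditive C] [MonoidalLinear K C] [RightRigidCategory C]
  [UnitK K C] in
theorem e_mul : D.e * D.e = D.e := by
  change (D.p ≫ D.i) ≫ (D.p ≫ D.i) = D.p ≫ D.i
  rw [Category.assoc, ← Category.assoc D.i, D.hip, Category.id_comp]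

omit [CharZero K] [MonoidalPreadditive C] [MonoidalLinear K C] [RightRigidCategory C]
  [UnitK K C] in
theorem e_eq : D.e = ∑ σ, D.a σ • rho M n σ := D.hpi

/-- `S` has an endomorphism with non-zero trace -/
theorem exists_tr : ∃ s : D.S ⟶ D.S, tr K s ≠ 0 := by
  by_contra h
  push Not at h
  have h1 := idem_zero K true D.ev D.idem D.fdt (h _)
  have h2 : (𝟙 D.S - D.ev) ≫ (𝟙 D.S - D.ev) = 𝟙 D.S - D.ev := by
    simp only [Preadditive.comp_sub, Preadditive.sub_comp, D.idem, Category.id_comp,
      Category.comp_id]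
    abel
  have h3 := idem_zero K false (𝟙 D.S - D.ev) h2 D.fdf (h _)
  apply D.ne
  rw [h1, sub_zero] at h3
  exact h3

/-- an endomorphism `t` of `M^{⊗ n}` with `t = e t e` and non-zero trace -/
theorem exists_t : ∃ t : pow M n ⟶ pow M n, D.e ≫ t = t ∧ t ≫ D.e = t ∧ tr K t ≠ 0 := by
  obtain ⟨s, hs⟩ := D.exists_tr
  refine ⟨D.p ≫ s ≫ D.i, ?_, ?_, ?_⟩
  · change (D.p ≫ D.i) ≫ _ = _
    simp only [Category.assoc]
    rw [← Category.assoc D.i D.p, D.hip, Category.id_comp]
  · change _ ≫ (D.p ≫ D.i) = _
    simp only [Category.assoc]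
    rw [← Category.assoc D.i D.p, D.hip, Category.id_comp]
  · rw [tr_comp_comm, Category.assoc, D.hip, Category.comp_id]
    exact hs

/-- tensoring with `e` is faithful -/
theorem tensor_zero {A B : C} (F : A ⟶ B) (h : F ⊗ₘ (show pow M n ⟶ pow M n from D.e) = 0) :
    F = 0 := by
  obtain ⟨t, ht, -, h0⟩ := D.exists_t
  have h1 : F ⊗ₘ t = 0 := by
    have h2 : F ⊗ₘ t = (F ⊗ₘ (show pow M n ⟶ pow M n from D.e)) ≫ (𝟙 B ⊗ₘ t) := by
      rw [MonoidalCategory.tensorHom_comp_tensorHom, Category.comp_id]
      congr 1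
      exact ht.symm
    rw [h2, h, Limits.zero_comp]
  have h2 := ptr_tensorHom K F t
  rw [h1, ptr_zero] at h2
  exact (smul_eq_zero.1 h2.symm).resolve_left h0

end Cut

end Pool.Agent.W_868bb7_h64
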