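import Pool.Agent.W_868bb7_h64.Strand

set_option autoImplicit false

/-!
# JoinAct: the joining isomorphism `J X a m : X^a ⊗ X^m ≅ X^(m + a)` and permutations

* `jn a m (σ, τ)`: `σ` on the first `a` and `τ` on the last `m` elements of `Fin (m + a)`.
* `jn_lt`, `jn_ge`: from `finSumFinEquiv`.
* `jn_succ_zero`, `jn_tail`: values at `0` and `pa_tail_eq` (`W_MP_868bb7_ag.PowAct`).
* `act_J`: induction on `a` (`wT_J` is the case `σ = 1`); for `a + 1`:
  `act X (a+1) σ = X ◁ act X a (tail σ) ≫ mv X a (σ 0)` by `rfl`, use `mv_J`, `join_mid`-like naturality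
  of the associator (compare `E_J` in `W_MP_868bb7_ag.Join`) and `jn_succ_zero`, `jn_tail`.  It
  suffices to treat `(σ, 1)` and `(1, τ)` separately (`tensorHom_def`, `act_mul`); the latter is
  `wT_J` with `wT X (act X m τ) a = act X (m + a) (jn a m (1, τ))` (`act_shift`).
* `pmv_J`: induction on `a`, as `J_nat` in `W_MP_868bb7_h79.Smash`.
-/

namespace Pool.Agent.W_868bb7_h64

open CategoryTheory MonoidalCategory Pool.Agent.W_MP_868bb7_ag

universe v u w

/-- the first `a` and the last `m` elements of `Fin (m + a)` -/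
def sumE (a m : ℕ) : Fin a ⊕ Fin m ≃ Fin (m + a) :=
  finSumFinEquiv.trans (finCongr (Nat.add_comm a m))

/-- `σ` on the first `a` and `τ` on the last `m` elements -/
def jn (a m : ℕ) : Equiv.Perm (Fin a) × Equiv.Perm (Fin m) →* Equiv.Perm (Fin (m + a)) where
  toFun x := (sumE a m).permCongr (Equiv.Perm.sumCongr x.1 x.2)
  map_one' := by
    ext x
    simp
  map_mul' x y := by
    ext z
    simp [← Equiv.Perm.sumCongr_mul]

theorem JoinAct_inl (a m : ℕ) (i : Fin a) : (sumE a m (Sum.inl i)).val = i.val := by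
  simp [sumE]

theorem JoinAct_inr (a m : ℕ) (i : Fin m) : (sumE a m (Sum.inr i)).val = i.val + a := by
  simp [sumE, Nat.add_comm]

theorem JoinAct_lt (a m : ℕ) (x : Fin (m + a)) (h : x.val < a) :
    (sumE a m).symm x = Sum.inl ⟨x.val, h⟩ := by
  rw [Equiv.symm_apply_eq]
  apply Fin.ext
  rw [JoinAct_inl]

theorem JoinAct_ge (a m : ℕ) (x : Fin (m + a)) (h : a ≤ x.val) :
    (sumE a m).symm x = Sum.inr ⟨x.val - a, by omega⟩ := by
  rw [Equiv.symm_apply_eq]
  apply Fin.ext
  rw [JoinAct_inr]
  simp only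
  omega

theorem JoinAct_apply (a m : ℕ) (σ : Equiv.Perm (Fin a)) (τ : Equiv.Perm (Fin m))
    (x : Fin (m + a)) :
    jn a m (σ, τ) x = sumE a m (Equiv.Perm.sumCongr σ τ ((sumE a m).symm x)) := rfl

theorem jn_lt (a m : ℕ) (σ : Equiv.Perm (Fin a)) (τ : Equiv.Perm (Fin m)) (x : Fin (m + a))
    (h : x.val < a) : (jn a m (σ, τ) x).val = (σ ⟨x.val, h⟩).val := by
  rw [JoinAct_apply, JoinAct_lt a m x h, Equiv.Perm.sumCongr_apply, Sum.map_inl, JoinAct_inl]

theorem jn_ge (a m : ℕ) (σ : Equiv.Perm (Fin a)) (τ : Equiv.Perm (Fin m)) (x : Fin (m + a))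
    (h : a ≤ x.val) : (jn a m (σ, τ) x).val = (τ ⟨x.val - a, by omega⟩).val + a := by
  rw [JoinAct_apply, JoinAct_ge a m x h, Equiv.Perm.sumCongr_apply, Sum.map_inr, JoinAct_inr]

theorem chi_jn (b : Bool) (a m : ℕ) (σ : Equiv.Perm (Fin a)) (τ : Equiv.Perm (Fin m)) :
    chi b (jn a m (σ, τ)) = chi b σ * chi b τ := by
  cases b
  · exact (one_mul _).symm
  · change Equiv.Perm.sign ((sumE a m).permCongr (Equiv.Perm.sumCongr σ τ)) = _
    rw [Equiv.Perm.sign_permCongr, Equiv.Perm.sign_sumCongr]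
    rfl

theorem JoinAct_zero (a m : ℕ) (σ : Equiv.Perm (Fin (a + 1))) (τ : Equiv.Perm (Fin m)) :
    (jn (a + 1) m (σ, τ) (0 : Fin (m + a + 1))).val = (σ 0).val :=
  jn_lt (a + 1) m σ τ (0 : Fin (m + a + 1)) (Nat.succ_pos a)

theorem JoinAct_tail (a m : ℕ) (σ : Equiv.Perm (Fin (a + 1))) :
    tail (n := m + a) (jn (a + 1) m (σ, 1)) = jn a m (tail σ, 1) := by
  apply pa_tail_eq
  intro i
  apply Fin.ext
  rw [pa_succAbove_val, JoinAct_zero]
  by_cases hi : i.val < a
  · rw [jn_lt a m _ _ i hi]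
    have h1 := jn_lt (a + 1) m σ 1 i.succ (by rw [Fin.val_succ]; omega)
    rw [h1]
    have h2 := tail_spec σ ⟨i.val, hi⟩
    have h3 : (⟨i.succ.val, by rw [Fin.val_succ]; omega⟩ : Fin (a + 1)) =
        Fin.succ ⟨i.val, hi⟩ := rfl
    rw [h3, h2, pa_succAbove_val]
  · have h0 := (σ 0).isLt
    rw [jn_ge a m _ _ i (by omega)]
    have h1 : (jn (a + 1) m (σ, 1) (i.succ : Fin (m + a + 1))).val =
        (i.val + 1 - (a + 1)) + (a + 1) :=
      jn_ge (a + 1) m σ 1 i.succ (by rw [Fin.val_succ]; omega)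
    refine h1.trans ?_
    change _ = if i.val - a + a < (σ 0).val then i.val - a + a else i.val - a + a + 1
    split_ifs <;> omega

theorem JoinAct_shift (a m : ℕ) (τ : Equiv.Perm (Fin m)) :
    jn (a + 1) m (1, τ) = shift (n := m + a) (jn a m (1, τ)) := by
  ext x
  rcases Fin.eq_zero_or_eq_succ (n := m + a) x with rfl | ⟨j, rfl⟩
  · rw [shift_zero, JoinAct_zero]
    rfl
  · rw [shift_succ, Fin.val_succ]
    by_cases hj : j.val < a
    · rw [jn_lt a m _ _ j hj]
      have h1 := jn_lt (a + 1) m 1 τ j.succ (by rw [Fin.val_succ]; omega)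
      rw [h1]
      simp
    · rw [jn_ge a m _ _ j (by omega)]
      have h1 := jn_ge (a + 1) m 1 τ j.succ (by rw [Fin.val_succ]; omega)
      rw [h1]
      simp only [Fin.val_succ, Nat.add_sub_add_right]
      omega

section Mon

variable {C : Type u} [Category.{v} C] [MonoidalCategory C]

theorem pmv_J (X : C) (a m : ℕ) (f : Fin a → End X) (g : Fin m → End X) :
    (pmv X a f ⊗ₘ pmv X m g) ≫ (J X a m).hom =
      (J X a m).hom ≫ pmv X (m + a) (fun x => Sum.elim f g ((sumE a m).symm x)) := by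
  induction a with
  | zero =>
    have h1 : (fun x : Fin (m + 0) => Sum.elim f g ((sumE 0 m).symm x)) = g := by
      funext x
      rw [JoinAct_ge 0 m x (Nat.zero_le _)]
      rfl
    rw [h1]
    change (𝟙 (𝟙_ C) ⊗ₘ pmv X m g) ≫ (λ_ (pow X m)).hom = (λ_ (pow X m)).hom ≫ pmv X m g
    rw [id_tensorHom, leftUnitor_naturality]
  | succ a ih =>
    have h0 : (sumE (a + 1) m).symm (0 : Fin (m + a + 1)) = Sum.inl 0 :=
      JoinAct_lt (a + 1) m (0 : Fin (m + a + 1)) (Nat.succ_pos a)
    have h1 : ∀ x : Fin (m + a), Sum.elim f g ((sumE (a + 1) m).symm (x.succ : Fin (m + a + 1))) =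
        Sum.elim (fun i : Fin a => f i.succ) g ((sumE a m).symm x) := by
      intro x
      by_cases hx : x.val < a
      · rw [JoinAct_lt a m x hx]
        have h2 := JoinAct_lt (a + 1) m (x.succ : Fin (m + a + 1)) (by rw [Fin.val_succ]; omega)
        rw [h2]
        rfl
      · rw [JoinAct_ge a m x (by omega)]
        have h2 := JoinAct_ge (a + 1) m (x.succ : Fin (m + a + 1)) (by rw [Fin.val_succ]; omega)
        rw [h2]
        simp only [Sum.elim_inr, Fin.val_succ, Nat.add_sub_add_right]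
    have h3 : pmv X (m + (a + 1)) (fun x => Sum.elim f g ((sumE (a + 1) m).symm x)) =
        ((show X ⟶ X from f 0) ⊗ₘ pmv X (m + a)
          (fun x => Sum.elim (fun i : Fin a => f i.succ) g ((sumE a m).symm x)) :
          X ⊗ pow X (m + a) ⟶ X ⊗ pow X (m + a)) := by
      have h4 : (fun x : Fin (m + a) =>
          Sum.elim (fun i : Fin a => f i.succ) g ((sumE a m).symm x)) =
          fun x : Fin (m + a) => Sum.elim f g ((sumE (a + 1) m).symm (x.succ : Fin (m + a + 1))) :=
        funext fun x => (h1 x).symm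
      rw [h4]
      have h5 : f 0 = Sum.elim f g ((sumE (a + 1) m).symm (0 : Fin (m + a + 1))) := by
        rw [h0]
        rfl
      rw [h5]
      rfl
    rw [h3]
    exact Pool.Agent.W_MP_868bb7_h79.J_nat_aux (show X ⟶ X from f 0) (pmv X a fun i => f i.succ)
      (pmv X m g) _ (J X a m).hom (J X a m).hom (ih (fun i => f i.succ))

variable [SymmetricCategory C]

theorem JoinAct_left (X : C) (a m : ℕ) (σ : Equiv.Perm (Fin a)) :
    (act X a σ ▷ pow X m) ≫ (J X a m).hom =
      (J X a m).hom ≫ act X (m + a) (jn a m (σ, 1)) := by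
  induction a with
  | zero =>
    have h1 : σ = 1 := Subsingleton.elim _ _
    subst h1
    have h2 : jn 0 m ((1 : Equiv.Perm (Fin 0)), (1 : Equiv.Perm (Fin m))) = 1 := map_one (jn 0 m)
    rw [h2, act_one, act_one]
    exact (congrArg (fun z => z ≫ (J X 0 m).hom) (id_whiskerRight _ _)).trans
      ((Category.id_comp _).trans (Category.comp_id _).symm)
  | succ a ih =>
    have h1 : act X (m + (a + 1)) (jn (a + 1) m (σ, 1)) =
        (X ◁ act X (m + a) (jn a m (tail σ, 1)) ≫ mv X (m + a) (σ 0).val :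
          X ⊗ pow X (m + a) ⟶ X ⊗ pow X (m + a)) := by
      rw [← JoinAct_tail, ← JoinAct_zero a m σ 1]
      rfl
    rw [h1]
    exact join_comp (A := X ⊗ pow X a) (B := X ⊗ pow X (m + a)) (M := pow X m)
      (X ◁ act X a (tail σ)) (mv X a (σ 0).val) (J X (a + 1) m).hom
      (X ◁ act X (m + a) (jn a m (tail σ, 1))) (mv X (m + a) (σ 0).val)
      (join_mid (X := X) (P := pow X a) (M := pow X m) (Q := pow X (m + a)) (act X a (tail σ))
        (J X a m).hom (act X (m + a) (jn a m (tail σ, 1))) (ih (tail σ)))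
      (mv_J X a m (σ 0).val (Nat.lt_succ_iff.1 (σ 0).isLt))

theorem JoinAct_wT (X : C) (a m : ℕ) (τ : Equiv.Perm (Fin m)) :
    wT X (act X m τ) a = act X (m + a) (jn a m (1, τ)) := by
  induction a with
  | zero =>
    have h1 : jn 0 m ((1 : Equiv.Perm (Fin 0)), τ) = τ := by
      ext x
      rw [jn_ge 0 m _ _ x (Nat.zero_le _)]
      rfl
    rw [h1]
    rfl
  | succ a ih =>
    rw [JoinAct_shift]
    refine Eq.trans ?_ (act_shift X (m + a) (jn a m (1, τ))).symm
    rw [← ih]
    rfl

theorem act_J (X : C) (a m : ℕ) (σ : Equiv.Perm (Fin a)) (τ : Equiv.Perm (Fin m)) :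
    (act X a σ ⊗ₘ act X m τ) ≫ (J X a m).hom =
      (J X a m).hom ≫ act X (m + a) (jn a m (σ, τ)) := by
  rw [MonoidalCategory.tensorHom_def, Category.assoc, wT_J, ← Category.assoc, JoinAct_left,
    JoinAct_wT, Category.assoc, ← act_mul, ← map_mul]
  simp

end Mon

section Pre

variable {C : Type u} [Category.{v} C] [MonoidalCategory C] [SymmetricCategory C]
  [Preadditive C] [MonoidalPreadditive C]

/-- the (anti)symmetrizer of the first `a` strands: sum over the `jn a m (σ, 1)`, which are exactly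
the permutations with support in `{x < a}` (`act_J`, `chi_jn`). -/
theorem SEsum_J (b : Bool) (X : C) (a m : ℕ) :
    (E b X a ▷ pow X m) ≫ (J X a m).hom = (J X a m).hom ≫
      SEsum b X (m + a) (Finset.univ.filter (fun x : Fin (m + a) => x.val < a)) := by
  have h1 : SEsum b X (m + a) (Finset.univ.filter (fun x : Fin (m + a) => x.val < a)) =
      ∑ σ : Equiv.Perm (Fin a), ((chi b σ : ℤˣ) : ℤ) • act X (m + a) (jn a m (σ, 1)) := by
    unfold SEsum
    symm
    refine Finset.sum_bij (fun σ _ => jn a m (σ, 1)) ?_ ?_ ?_ ?_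
    · intro σ _
      rw [Finset.mem_filter]
      refine ⟨Finset.mem_univ _, fun x hx => ?_⟩
      rw [Finset.mem_filter]
      refine ⟨Finset.mem_univ _, ?_⟩
      by_contra h
      rw [Equiv.Perm.mem_support] at hx
      apply hx
      apply Fin.ext
      rw [jn_ge a m σ 1 x (by omega)]
      change x.val - a + a = x.val
      omega
    · intro σ _ σ' _ h
      ext i
      have h2 := congrArg (fun s : Equiv.Perm (Fin (m + a)) => (s ⟨i.val, by omega⟩).val) h
      rw [jn_lt a m σ 1 ⟨i.val, by omega⟩ i.isLt, jn_lt a m σ' 1 ⟨i.val, by omega⟩ i.isLt] at h2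
      exact h2
    · intro s hs
      rw [Finset.mem_filter] at hs
      have hfix : ∀ x : Fin (m + a), a ≤ x.val → s x = x := by
        intro x hx
        by_contra h
        have h2 := hs.2 (Equiv.Perm.mem_support.2 h)
        rw [Finset.mem_filter] at h2
        omega
      have hmap : ∀ x : Fin (m + a), x.val < a → (s x).val < a := by
        intro x hx
        by_contra h
        have h2 := hfix (s x) (by omega)
        have h3 := s.injective h2
        rw [h3] at h
        exact h hx
      have hmap' : ∀ x : Fin (m + a), x.val < a → (s.symm x).val < a := by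
        intro x hx
        by_contra h
        have h2 := hfix (s.symm x) (by omega)
        rw [Equiv.apply_symm_apply] at h2
        rw [← h2] at h
        exact h hx
      refine ⟨⟨fun i => ⟨(s ⟨i.val, by omega⟩).val, hmap _ i.isLt⟩,
        fun i => ⟨(s.symm ⟨i.val, by omega⟩).val, hmap' _ i.isLt⟩, ?_, ?_⟩, Finset.mem_univ _, ?_⟩
      · intro i
        apply Fin.ext
        simp
      · intro i
        apply Fin.ext
        simp
      · ext x
        by_cases hx : x.val < a
        · rw [jn_lt a m _ _ x hx]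
          rfl
        · rw [jn_ge a m _ _ x (by omega), hfix x (by omega)]
          change x.val - a + a = x.val
          omega
    · intro σ _
      rw [chi_jn, map_one, mul_one]
  rw [h1]
  exact join_sum (A := pow X a) (B := pow X (m + a)) (M := pow X m) Finset.univ
    (fun σ : Equiv.Perm (Fin a) => ((chi b σ : ℤˣ) : ℤ)) (J X a m).hom
    (fun σ => act X a σ) (fun σ => act X (m + a) (jn a m (σ, 1)))
    fun σ _ => JoinAct_left X a m σ

end Pre

end Pool.Agent.W_868bb7_h64
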