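import Pool.Agent.W_868bb7_h64.Star
import Pool.Agent.W_868bb7_h64.JoinAct

set_option autoImplicit false

/-!
# Blocks: `k` copies of the idempotent `e` and `k` additional strands

* `eK D k = e ⊗ ... ⊗ e` on `pow M (n * k)`.
* `eK_mem`: it is a combination of permutations which preserve the blocks `{x | x / n = i}`.
  Induction on `k`: `QQ M n (k+1) = whiskerLeftIso (pow M n) (QQ M n k) ≪≫ J M n (n*k)`, so
  `eK D (k+1) = (J M n (n*k)).inv ≫ (e ⊗ₘ eK D k) ≫ (J M n (n*k)).hom`; expand with `D.e_eq`, `act_J`;
  `jn n (n*k) (σ, τ)` preserves the blocks if `τ` does (`jn_lt`, `jn_ge`,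
  `(y + n) / n = y / n + 1`).
* `eh D k = wT M (eK D k) k` on `pow M (n * k + k)`: `k` additional strands in front.
* `grp x`: the index of the additional strand, or of the block, to which `x` belongs.
* `eh_mem`: from `eK_mem`, `wT M (act σ) a = act (jn a m (1, σ))` (`wT_J` and `act_J`, cancel
  the isomorphism `J`).
* `eh_comm`: conjugation by a permutation `σ` which fixes `a` and maps the block of `a` to itself
  permutes the summands.
* `transv` (abstract): induction on the number of elements `z ∈ B` with `Z z`; if there is such a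
  `z`, apply `star_step` with `y = x B`, block `{j | ¬ Z j ∧ grp j = grp z}`: the first conjugate is
  `x (B.map (swap z i))`, the second one is
  `x ((B.map (swap z i)).map (swap z j)) = x (B.map (swap z i))`, as neither `z` nor `j` are in
  `B.map (swap z i)` (`grp` is injective on it).
-/

namespace Pool.Agent.W_868bb7_h64

open CategoryTheory MonoidalCategory Pool.Agent.W_MP_868bb7_ag Pool.Agent.W_MP_868bb7_h79

universe v u w

theorem map_swap_notMem {ι : Type*} [DecidableEq ι] (B : Finset ι) (a b : ι) (ha : a ∉ B)
    (hb : b ∉ B) : B.map (Equiv.swap a b).toEmbedding = B := by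
  ext y
  rw [Finset.mem_map_equiv, Equiv.symm_swap]
  by_cases h1 : y = a
  · subst h1
    rw [Equiv.swap_apply_left]
    exact iff_of_false hb ha
  · by_cases h2 : y = b
    · subst h2
      rw [Equiv.swap_apply_right]
      exact iff_of_false ha hb
    · rw [Equiv.swap_apply_of_ne_of_ne h1 h2]

theorem transv {R : Type*} [Ring R] {ι : Type*} [Fintype ι] [DecidableEq ι]
    (ρ : Equiv.Perm ι →* R) (e : R) (n k : ℕ) (hR : ∀ y : R, n • y = 0 → y = 0)
    (grp : ι → ℕ) (Z : ι → Prop) [DecidablePred Z] (x : Finset ι → R)
    (hx : ∀ (σ : Equiv.Perm ι) (B : Finset ι), ρ σ * x B * ρ σ⁻¹ = x (B.map σ.toEmbedding))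
    (hZ : ∀ z, Z z → Commute
      (∑ j ∈ Finset.univ.filter (fun j => ¬ Z j ∧ grp j = grp z), ρ (Equiv.swap z j)) e)
    (hcard : ∀ z, Z z → (Finset.univ.filter (fun j => ¬ Z j ∧ grp j = grp z)).card = n)
    (h0 : ∀ B : Finset ι, B.card = k → Set.InjOn grp B → (∀ y ∈ B, ¬ Z y) → x B * e = 0)
    (B : Finset ι) (hB : B.card = k) (hB2 : Set.InjOn grp B) : x B * e = 0 := by
  have key : ∀ c : ℕ, ∀ B : Finset ι, (B.filter Z).card = c → B.card = k →
      Set.InjOn grp B → x B * e = 0 := by
    intro c
    induction c using Nat.strong_induction_on with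
    | _ c ih =>
      intro B hc hB hB2
      by_cases hz : ∃ z ∈ B, Z z
      · obtain ⟨z, hzB, hz⟩ := hz
        set S := Finset.univ.filter (fun j => ¬ Z j ∧ grp j = grp z) with hS
        have hSm : ∀ i, i ∈ S ↔ ¬ Z i ∧ grp i = grp z := by
          intro i
          rw [hS, Finset.mem_filter]
          simp
        have hne : ∀ i ∈ S, i ≠ z := by
          intro i hi h
          exact ((hSm i).1 hi).1 (h ▸ hz)
        have hnB : ∀ i ∈ S, i ∉ B := by
          intro i hi h
          exact hne i hi (hB2 h hzB ((hSm i).1 hi).2)
        have hzn : ∀ i ∈ S, z ∉ B.map (Equiv.swap z i).toEmbedding := by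
          intro i hi h
          rw [Finset.mem_map_equiv, Equiv.symm_swap, Equiv.swap_apply_left] at h
          exact hnB i hi h
        have hgs : ∀ i ∈ S, ∀ y, grp (Equiv.swap z i y) = grp y := by
          intro i hi y
          by_cases h1 : y = z
          · subst h1
            rw [Equiv.swap_apply_left]
            exact ((hSm i).1 hi).2
          · by_cases h2 : y = i
            · subst h2
              rw [Equiv.swap_apply_right]
              exact ((hSm y).1 hi).2.symm
            · rw [Equiv.swap_apply_of_ne_of_ne h1 h2]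
        have hconj : ∀ (i : ι) (B : Finset ι), ρ (Equiv.swap z i) * x B * ρ (Equiv.swap z i) =
            x (B.map (Equiv.swap z i).toEmbedding) := by
          intro i B
          have := hx (Equiv.swap z i) B
          rwa [Equiv.swap_inv] at this
        have h1 : ∀ i ∈ S, x (B.map (Equiv.swap z i).toEmbedding) * e = 0 := by
          intro i hi
          refine ih ((B.map (Equiv.swap z i).toEmbedding).filter Z).card ?_ _ rfl ?_ ?_
          · rw [← hc]
            apply Finset.card_lt_card
            refine ⟨?_, ?_⟩
            · intro y hy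
              rw [Finset.mem_filter] at hy
              rw [Finset.mem_filter]
              refine ⟨?_, hy.2⟩
              have h1 : y ≠ z := fun h => hzn i hi (h ▸ hy.1)
              have h2 : y ≠ i := fun h => ((hSm i).1 hi).1 (h ▸ hy.2)
              have h3 := hy.1
              rw [Finset.mem_map_equiv, Equiv.symm_swap,
                Equiv.swap_apply_of_ne_of_ne h1 h2] at h3
              exact h3
            · intro h
              have h1 := h (Finset.mem_filter.2 ⟨hzB, hz⟩)
              exact hzn i hi (Finset.mem_filter.1 h1).1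
          · rw [Finset.card_map, hB]
          · intro u hu v hv huv
            have hu' := Finset.mem_coe.1 hu
            have hv' := Finset.mem_coe.1 hv
            rw [Finset.mem_map_equiv, Equiv.symm_swap] at hu' hv'
            apply (Equiv.swap z i).injective
            apply hB2 (Finset.mem_coe.2 hu') (Finset.mem_coe.2 hv')
            rw [hgs i hi, hgs i hi, huv]
        have h2 := star_step ρ z S e (x B) (hZ z hz) (fun i hi => by
            rw [hconj, h1 i hi]) (fun i hi j hj hij => by
            have e1 : ρ (Equiv.swap z j) * ρ (Equiv.swap z i) * x B * ρ (Equiv.swap z i) *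
                ρ (Equiv.swap z j) * e = (ρ (Equiv.swap z j) * (ρ (Equiv.swap z i) * x B *
                ρ (Equiv.swap z i)) * ρ (Equiv.swap z j)) * e := by
              simp only [mul_assoc]
            rw [e1, hconj, hconj, map_swap_notMem _ z j (hzn i hi), h1 i hi]
            intro h
            rw [Finset.mem_map_equiv, Equiv.symm_swap,
              Equiv.swap_apply_of_ne_of_ne (hne j hj) (Ne.symm hij)] at h
            exact hnB j hj h)
        rw [hcard z hz] at h2
        exact hR _ h2
      · push Not at hz
        exact h0 B hB hB2 hz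
  exact key _ B rfl hB hB2

variable {K : Type w} [Field K] [CharZero K] {C : Type u} [Category.{v} C] [MonoidalCategory C]
  [Preadditive C] [Linear K C] [MonoidalPreadditive C] [MonoidalLinear K C]
  [SymmetricCategory C] [RightRigidCategory C] [UnitK K C]

omit [CharZero K] [SymmetricCategory C] [RightRigidCategory C] [UnitK K C] in
theorem blk_smul_tensor {X Y Z W : C} (a : K) (f : X ⟶ Y) (g : Z ⟶ W) :
    (a • f) ⊗ₘ g = a • (f ⊗ₘ g) := by
  rw [MonoidalCategory.tensorHom_def, MonoidalLinear.smul_whiskerRight, Linear.smul_comp,
    ← MonoidalCategory.tensorHom_def]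

omit [CharZero K] [SymmetricCategory C] [RightRigidCategory C] [UnitK K C] in
theorem blk_tensor_smul {X Y Z W : C} (a : K) (f : X ⟶ Y) (g : Z ⟶ W) :
    f ⊗ₘ (a • g) = a • (f ⊗ₘ g) := by
  rw [MonoidalCategory.tensorHom_def, MonoidalLinear.whiskerLeft_smul, Linear.comp_smul,
    ← MonoidalCategory.tensorHom_def]

omit [CharZero K] [SymmetricCategory C] [RightRigidCategory C] [UnitK K C] in
/-- expansion of a joined tensor product -/
theorem blk_expand {P M Q : C} {ι : Type*} (s : Finset ι) (a : ι → K) (j : P ⊗ M ≅ Q)
    (f : ι → (P ⟶ P)) (g : M ⟶ M) (w : ι → (Q ⟶ Q))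
    (h : ∀ i, (f i ⊗ₘ g) ≫ j.hom = j.hom ≫ w i) :
    j.inv ≫ ((∑ i ∈ s, a i • f i) ⊗ₘ g) ≫ j.hom = ∑ i ∈ s, a i • w i := by
  rw [MonoidalCategory.tensorHom_def, sum_whiskerRight, Preadditive.sum_comp,
    Preadditive.sum_comp, Preadditive.comp_sum]
  refine Finset.sum_congr rfl fun i _ => ?_
  rw [← MonoidalCategory.tensorHom_def, blk_smul_tensor, Linear.smul_comp, h,
    Linear.comp_smul, Iso.inv_hom_id_assoc]

/-- `k` copies of `e` -/
def eK {M : C} {n : ℕ} (D : Cut K M n) (k : ℕ) : End (pow M (n * k)) :=
  (QQ M n k).inv ≫ powMap (show pow M n ⟶ pow M n from D.e) k ≫ (QQ M n k).hom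

omit [CharZero K] [RightRigidCategory C] [UnitK K C] in
theorem eK_mem {M : C} {n : ℕ} (hn : 1 ≤ n) (D : Cut K M n) (k : ℕ) :
    eK D k ∈ Submodule.span K (rho M (n * k) '' {σ | ∀ x, (σ x).val / n = x.val / n}) := by
  induction k with
  | zero =>
    refine Submodule.subset_span ⟨1, fun x => rfl, ?_⟩
    rw [map_one]
    change 𝟙 _ = (Iso.refl _).inv ≫ 𝟙 _ ≫ (Iso.refl _).hom
    simp
  | succ k ih =>
    have h1 : eK D (k + 1) = (J M n (n * k)).inv ≫ ((show pow M n ⟶ pow M n from D.e) ⊗ₘ
        (show pow M (n * k) ⟶ pow M (n * k) from eK D k)) ≫ (J M n (n * k)).hom := by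
      change (whiskerLeftIso (pow M n) (QQ M n k) ≪≫ J M n (n * k)).inv ≫
        ((show pow M n ⟶ pow M n from D.e) ⊗ₘ powMap (show pow M n ⟶ pow M n from D.e) k) ≫
        (whiskerLeftIso (pow M n) (QQ M n k) ≪≫ J M n (n * k)).hom = _
      change ((J M n (n * k)).inv ≫ (pow M n ◁ (QQ M n k).inv)) ≫
        ((show pow M n ⟶ pow M n from D.e) ⊗ₘ powMap (show pow M n ⟶ pow M n from D.e) k) ≫
        ((pow M n ◁ (QQ M n k).hom) ≫ (J M n (n * k)).hom) = _
      rw [← id_tensorHom, ← id_tensorHom]
      simp only [Category.assoc]
      rw [tensorHom_comp_tensorHom_assoc, tensorHom_comp_tensorHom_assoc]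
      simp only [Category.comp_id, Category.id_comp, Category.assoc]
      rfl
    rw [h1]
    have key : ∀ F ∈ Submodule.span K (rho M (n * k) '' {σ | ∀ x, (σ x).val / n = x.val / n}),
        (show End (pow M (n * (k + 1))) from (J M n (n * k)).inv ≫
          ((show pow M n ⟶ pow M n from D.e) ⊗ₘ
          (show pow M (n * k) ⟶ pow M (n * k) from F)) ≫ (J M n (n * k)).hom) ∈
        Submodule.span K (rho M (n * (k + 1)) '' {σ | ∀ x, (σ x).val / n = x.val / n}) := by
      intro F hF
      induction hF using Submodule.span_induction with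
      | mem F h =>
        obtain ⟨τ, hτ, rfl⟩ := h
        have e1 : (show pow M n ⟶ pow M n from D.e) = ∑ σ, D.a σ • act M n σ := D.hpi
        have e2 := blk_expand (K := K) Finset.univ D.a (J M n (n * k)) (fun σ => act M n σ)
          (act M (n * k) τ) (fun σ => act M (n * k + n) (jn n (n * k) (σ, τ)))
          (fun σ => act_J M n (n * k) σ τ)
        rw [← e1] at e2
        have e3 : (show End (pow M (n * (k + 1))) from (J M n (n * k)).inv ≫
            ((show pow M n ⟶ pow M n from D.e) ⊗ₘ
            (show pow M (n * k) ⟶ pow M (n * k) from rho M (n * k) τ)) ≫ (J M n (n * k)).hom) =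
            (∑ σ, D.a σ • act M (n * k + n) (jn n (n * k) (σ, τ)) :
              pow M (n * k + n) ⟶ pow M (n * k + n)) := e2
        rw [e3]
        refine Submodule.sum_mem _ fun σ _ => Submodule.smul_mem _ _ ?_
        refine Submodule.subset_span ⟨jn n (n * k) (σ, τ), ?_, rfl⟩
        intro x
        by_cases hx : x.val < n
        · rw [jn_lt n (n * k) σ τ x hx, Nat.div_eq_of_lt hx, Nat.div_eq_of_lt (Fin.isLt _)]
        · have hx' : n ≤ x.val := by omega
          rw [jn_ge n (n * k) σ τ x hx', Nat.add_div_right _ (by omega)]
          have h3 := hτ ⟨x.val - n, by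
            have := x.isLt
            have h4 : n * (k + 1) = n * k + n := rfl
            omega⟩
          rw [h3]
          change (x.val - n) / n + 1 = x.val / n
          rw [← Nat.add_div_right _ (by omega : 0 < n), Nat.sub_add_cancel hx']
      | zero =>
        have e3 : (show End (pow M (n * (k + 1))) from (J M n (n * k)).inv ≫
            ((show pow M n ⟶ pow M n from D.e) ⊗ₘ
            (0 : pow M (n * k) ⟶ pow M (n * k))) ≫ (J M n (n * k)).hom) = 0 := by
          rw [MonoidalPreadditive.tensor_zero, Limits.zero_comp, Limits.comp_zero]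
        have := Submodule.zero_mem (Submodule.span K (rho M (n * (k + 1)) ''
          {σ | ∀ x, (σ x).val / n = x.val / n}))
        rw [← e3] at this
        exact this
      | add F G _ _ hF hG =>
        have := Submodule.add_mem _ hF hG
        have e3 : (show End (pow M (n * (k + 1))) from (J M n (n * k)).inv ≫
            ((show pow M n ⟶ pow M n from D.e) ⊗ₘ
            ((show pow M (n * k) ⟶ pow M (n * k) from F) +
            (show pow M (n * k) ⟶ pow M (n * k) from G))) ≫ (J M n (n * k)).hom) =
            (show End (pow M (n * (k + 1))) from (J M n (n * k)).inv ≫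
            ((show pow M n ⟶ pow M n from D.e) ⊗ₘ
            ((show pow M (n * k) ⟶ pow M (n * k) from F))) ≫ (J M n (n * k)).hom) +
            (show End (pow M (n * (k + 1))) from (J M n (n * k)).inv ≫
            ((show pow M n ⟶ pow M n from D.e) ⊗ₘ
            ((show pow M (n * k) ⟶ pow M (n * k) from G))) ≫ (J M n (n * k)).hom) := by
          rw [MonoidalPreadditive.tensor_add, Preadditive.add_comp, Preadditive.comp_add]
        rw [← e3] at this
        exact this
      | smul a F _ hF =>
        have := Submodule.smul_mem _ a hF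
        have e3 : (show End (pow M (n * (k + 1))) from (J M n (n * k)).inv ≫
            ((show pow M n ⟶ pow M n from D.e) ⊗ₘ
            (a • (show pow M (n * k) ⟶ pow M (n * k) from F))) ≫ (J M n (n * k)).hom) =
            a • (show End (pow M (n * (k + 1))) from (J M n (n * k)).inv ≫
            ((show pow M n ⟶ pow M n from D.e) ⊗ₘ
            ((show pow M (n * k) ⟶ pow M (n * k) from F))) ≫ (J M n (n * k)).hom) := by
          rw [blk_tensor_smul, Linear.smul_comp, Linear.comp_smul]
        rw [← e3] at this
        exact this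
    exact key _ ih

/-- `k` additional strands in front -/
def eh {M : C} {n : ℕ} (D : Cut K M n) (k : ℕ) : End (pow M (n * k + k)) :=
  wT M (show pow M (n * k) ⟶ pow M (n * k) from eK D k) k

/-- the additional strand, or the block, to which a strand belongs -/
def grp (n k : ℕ) (x : Fin (n * k + k)) : ℕ := if x.val < k then x.val else (x.val - k) / n

omit [CharZero K] [RightRigidCategory C] [UnitK K C] in
theorem eh_mem {M : C} {n : ℕ} (hn : 1 ≤ n) (D : Cut K M n) (k : ℕ) :
    eh D k ∈ Submodule.span K (rho M (n * k + k) ''
      {σ | (∀ x, x.val < k → σ x = x) ∧ ∀ x, grp n k (σ x) = grp n k x}) := by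
  have hw : ∀ F : pow M (n * k) ⟶ pow M (n * k), wT M F k =
      (J M k (n * k)).inv ≫ (pow M k ◁ F) ≫ (J M k (n * k)).hom := by
    intro F
    rw [wT_J, Iso.inv_hom_id_assoc]
  have key : ∀ F ∈ Submodule.span K (rho M (n * k) '' {σ | ∀ x, (σ x).val / n = x.val / n}),
      (show End (pow M (n * k + k)) from wT M (show pow M (n * k) ⟶ pow M (n * k) from F) k) ∈
      Submodule.span K (rho M (n * k + k) ''
      {σ | (∀ x, x.val < k → σ x = x) ∧ ∀ x, grp n k (σ x) = grp n k x}) := by
    intro F hF
    induction hF using Submodule.span_induction with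
    | mem F h =>
      obtain ⟨τ, hτ, rfl⟩ := h
      refine Submodule.subset_span ⟨jn k (n * k) (1, τ), ⟨?_, ?_⟩, ?_⟩
      · intro x hx
        apply Fin.ext
        rw [jn_lt k (n * k) 1 τ x hx]
        rfl
      · intro x
        by_cases hx : x.val < k
        · have : jn k (n * k) (1, τ) x = x := by
            apply Fin.ext
            rw [jn_lt k (n * k) 1 τ x hx]
            rfl
          rw [this]
        · have h1 := jn_ge k (n * k) 1 τ x (by omega)
          unfold grp
          rw [if_neg hx, if_neg (by omega), h1, Nat.add_sub_cancel]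
          exact hτ _
      · have h1 := act_J M k (n * k) 1 τ
        have h2 := wT_J M (act M (n * k) τ) k
        rw [act_one, id_tensorHom, h2] at h1
        have h3 := (cancel_epi (J M k (n * k)).hom).1 h1
        exact h3.symm
    | zero =>
      have e3 : (show End (pow M (n * k + k)) from
          wT M (0 : pow M (n * k) ⟶ pow M (n * k)) k) = 0 := by
        rw [hw, MonoidalPreadditive.whiskerLeft_zero, Limits.zero_comp, Limits.comp_zero]
      have := Submodule.zero_mem (Submodule.span K (rho M (n * k + k) ''
        {σ | (∀ x, x.val < k → σ x = x) ∧ ∀ x, grp n k (σ x) = grp n k x}))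
      rw [← e3] at this
      exact this
    | add F G _ _ hF hG =>
      have := Submodule.add_mem _ hF hG
      have e3 : (show End (pow M (n * k + k)) from
          wT M ((show pow M (n * k) ⟶ pow M (n * k) from F) +
            (show pow M (n * k) ⟶ pow M (n * k) from G)) k) =
          (show End (pow M (n * k + k)) from
            wT M (show pow M (n * k) ⟶ pow M (n * k) from F) k) +
          (show End (pow M (n * k + k)) from
            wT M (show pow M (n * k) ⟶ pow M (n * k) from G) k) := by
        rw [hw, hw, hw, MonoidalPreadditive.whiskerLeft_add, Preadditive.add_comp,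
          Preadditive.comp_add]
      rw [← e3] at this
      exact this
    | smul a F _ hF =>
      have := Submodule.smul_mem _ a hF
      have e3 : (show End (pow M (n * k + k)) from
          wT M (a • (show pow M (n * k) ⟶ pow M (n * k) from F)) k) =
          a • (show End (pow M (n * k + k)) from
            wT M (show pow M (n * k) ⟶ pow M (n * k) from F) k) := by
        rw [hw, hw, MonoidalLinear.whiskerLeft_smul, Linear.smul_comp, Linear.comp_smul]
      rw [← e3] at this
      exact this
  exact key _ (eK_mem hn D k)

theorem grp_card (n k : ℕ) (hn : 1 ≤ n) (z : Fin (n * k + k)) (hz : z.val < k) :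
    (Finset.univ.filter (fun j : Fin (n * k + k) =>
      ¬ j.val < k ∧ grp n k j = grp n k z)).card = n := by
  have h1 : (Finset.univ.filter (fun j : Fin (n * k + k) =>
      ¬ j.val < k ∧ grp n k j = grp n k z)).map Fin.valEmbedding =
      Finset.Ico (k + n * z.val) (k + n * z.val + n) := by
    ext y
    rw [Finset.mem_map, Finset.mem_Ico]
    have hgz : grp n k z = z.val := by
      unfold grp
      rw [if_pos hz]
    constructor
    · rintro ⟨j, hj, rfl⟩
      rw [Finset.mem_filter, hgz] at hj
      obtain ⟨-, hj1, hj2⟩ := hj
      unfold grp at hj2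
      rw [if_neg hj1, Nat.div_eq_iff (by omega)] at hj2
      change k + n * z.val ≤ j.val ∧ j.val < k + n * z.val + n
      have h2 : z.val * n = n * z.val := Nat.mul_comm _ _
      omega
    · rintro ⟨hy1, hy2⟩
      have h3 : n * (z.val + 1) ≤ n * k := Nat.mul_le_mul_left n hz
      have h4 : n * (z.val + 1) = n * z.val + n := Nat.mul_succ _ _
      refine ⟨⟨y, by omega⟩, ?_, rfl⟩
      rw [Finset.mem_filter, hgz]
      refine ⟨Finset.mem_univ _, ?_, ?_⟩
      · change ¬ y < k
        omega
      · unfold grp
        change (if y < k then y else (y - k) / n) = z.val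
        rw [if_neg (by omega), Nat.div_eq_iff (by omega)]
        have h2 : z.val * n = n * z.val := Nat.mul_comm _ _
        omega
  have h2 := congrArg Finset.card h1
  rw [Finset.card_map, Nat.card_Ico] at h2
  rw [h2]
  omega

omit [CharZero K] [RightRigidCategory C] [UnitK K C] in
theorem eh_comm {M : C} {n : ℕ} (hn : 1 ≤ n) (D : Cut K M n) (k : ℕ) (z : Fin (n * k + k))
    (hz : z.val < k) : Commute
      (∑ j ∈ Finset.univ.filter (fun j : Fin (n * k + k) =>
        ¬ j.val < k ∧ grp n k j = grp n k z), rho M (n * k + k) (Equiv.swap z j)) (eh D k) := by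
  have key : ∀ F ∈ Submodule.span K (rho M (n * k + k) ''
      {σ | (∀ x, x.val < k → σ x = x) ∧ ∀ x, grp n k (σ x) = grp n k x}), Commute
      (∑ j ∈ Finset.univ.filter (fun j : Fin (n * k + k) =>
        ¬ j.val < k ∧ grp n k j = grp n k z), rho M (n * k + k) (Equiv.swap z j)) F := by
    intro F hF
    induction hF using Submodule.span_induction with
    | mem F h =>
      obtain ⟨σ, ⟨hσ1, hσ2⟩, rfl⟩ := h
      have hlt : ∀ x, (σ x).val < k ↔ x.val < k := by
        intro x
        constructor
        · intro h
          have h1 := hσ1 _ h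
          have h2 := σ.injective h1
          rw [← h2]
          exact h
        · intro h
          rw [hσ1 x h]
          exact h
      have h1 : ∀ j, Equiv.swap z (σ j) * σ = σ * Equiv.swap z j := by
        intro j
        have := Equiv.swap_apply_apply σ z j
        rw [hσ1 z hz] at this
        rw [this]
        group
      change (∑ j ∈ Finset.univ.filter (fun j : Fin (n * k + k) =>
        ¬ j.val < k ∧ grp n k j = grp n k z), rho M (n * k + k) (Equiv.swap z j)) *
        rho M (n * k + k) σ = rho M (n * k + k) σ *
        (∑ j ∈ Finset.univ.filter (fun j : Fin (n * k + k) =>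
        ¬ j.val < k ∧ grp n k j = grp n k z), rho M (n * k + k) (Equiv.swap z j))
      rw [Finset.sum_mul, Finset.mul_sum]
      symm
      refine Finset.sum_bij (fun j _ => σ j) ?_ ?_ ?_ ?_
      · intro j hj
        rw [Finset.mem_filter] at hj ⊢
        refine ⟨Finset.mem_univ _, ?_, ?_⟩
        · rw [hlt]
          exact hj.2.1
        · rw [hσ2]
          exact hj.2.2
      · intro i _ j _ h
        exact σ.injective h
      · intro j hj
        rw [Finset.mem_filter] at hj
        refine ⟨σ.symm j, ?_, Equiv.apply_symm_apply _ _⟩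
        rw [Finset.mem_filter]
        refine ⟨Finset.mem_univ _, ?_, ?_⟩
        · rw [← hlt, Equiv.apply_symm_apply]
          exact hj.2.1
        · rw [← hσ2, Equiv.apply_symm_apply]
          exact hj.2.2
      · intro j _
        rw [← map_mul, ← map_mul, h1]
    | zero => exact Commute.zero_right _
    | add F G _ _ hF hG => exact hF.add_right hG
    | smul a F _ hF => exact hF.smul_right a
  exact key _ (eh_mem hn D k)

end Pool.Agent.W_868bb7_h64
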