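import Pool.Agent.W_868bb7_h64.Casim
import Pool.Agent.W_868bb7_h64.JoinAct

set_option autoImplicit false

/-!
# CaseB: if `Zc D = 0` then `M` is even or odd

Let `n = m + 1`, `d = tr 𝟙`.  If `d = 0` then `wl D.e = 0`, contradiction (`Cut.tensor_zero` with
`F = 𝟙 M`, and `M ≠ 0` because `S ≠ 0`; or directly `D.ne`).  Put `g = n / d ≠ 0`:
`Xz M n * wl D.e = g • wl D.e`.

* `caseB_X`: on `pow M (n + k)` let `e' = wT M D.e k` (strands `≥ k` form the block `B`).  For every `q < k`:
  `(∑ i ∈ B, rho (swap i q)) * e' = g • e'`.  For `q = k - 1` this is `wT` (iterated `wl`) of the identity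
  above (`wl_rho`, `wT M _ (a+1) = wl (wT M _ a)` by `rfl`); in general conjugate with
  `rho (swap q (k-1))`, which commutes with `e'` (`e'` is a combination of `rho` of
  permutations fixing all `x < k`).
* `caseB_F`: `F = (J M k n).inv ≫ (E b M k ▷ pow M n) ≫ (J M k n).hom` satisfies
  `F * rho (swap a q) = cs b • F` for `a ≠ q`, both `< k`: `swap a q = jn k n (swap a' q', 1)`, `act_J`,
  `act_E`, `chi_swap`.
* `caseB`: `k = n + 1`, `l = List` of all `q < k` (e.g. `List.ofFn`), `U_prod` and `U_zero` give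
  `(∏ j ∈ range (n+1), (g - j * cs b)) • (F * e') = 0`.  The product for `b = true` (`cs = -1`) and the
  one for `b = false` (`cs = 1`) cannot both vanish as `g ≠ 0` (`g + j = 0 = g - j'` implies
  `j + j' = 0` in `K`).  So `F * e' = 0` for some `b`, that is `E b M k ⊗ₘ D.e = 0` (`wT_J`,
  `tensorHom_def`, cancel `J`), and `E b M k = 0` by `Cut.tensor_zero`; `powMap_id`.
-/

namespace Pool.Agent.W_868bb7_h64

open CategoryTheory MonoidalCategory Pool.Agent.W_MP_868bb7_ag

universe v u w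

/-! ### Auxiliary -/

theorem CaseB_swap (k n : ℕ) (a q : Fin (n + k)) (ha : a.val < k) (hq : q.val < k) :
    jn k n (Equiv.swap ⟨a.val, ha⟩ ⟨q.val, hq⟩, 1) = Equiv.swap a q := by
  ext x
  by_cases hx : x.val < k
  · rw [jn_lt k n _ _ x hx, Equiv.swap_apply_def, Equiv.swap_apply_def]
    simp only [Fin.ext_iff]
    split_ifs <;> rfl
  · rw [jn_ge k n _ _ x (by omega), Equiv.swap_apply_of_ne_of_ne]
    · change x.val - k + k = x.val
      omega
    · intro h
      rw [h] at hx
      exact hx ha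
    · intro h
      rw [h] at hx
      exact hx hq

section CaseBW

variable {C : Type u} [Category.{v} C] [MonoidalCategory C] [Preadditive C]
  [MonoidalPreadditive C]

/-- iterated whiskering -/
def CaseB_W (M : C) (n : ℕ) : (k : ℕ) → End (pow M n) →+* End (pow M (n + k))
  | 0 => RingHom.id _
  | k + 1 => (wl M (n + k)).comp (CaseB_W M n k)

theorem CaseB_W_eq (M : C) (n k : ℕ) (F : pow M n ⟶ pow M n) :
    CaseB_W M n k F = wT M F k := by
  induction k with
  | zero => rfl
  | succ k ih =>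
    change wl M (n + k) (CaseB_W M n k F) = _
    rw [ih]
    rfl

theorem CaseB_W_rho [SymmetricCategory C] (M : C) (n k : ℕ) (τ : Equiv.Perm (Fin n)) :
    CaseB_W M n k (rho M n τ) = rho M (n + k) (jn k n (1, τ)) := by
  exact (CaseB_W_eq M n k (act M n τ)).trans (JoinAct_wT M k n τ)

end CaseBW

variable {K : Type w} [Field K] [CharZero K] {C : Type u} [Category.{v} C] [MonoidalCategory C]
  [Preadditive C] [Linear K C] [MonoidalPreadditive C] [MonoidalLinear K C]
  [SymmetricCategory C] [RightRigidCategory C] [UnitK K C]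

omit [CharZero K] [SymmetricCategory C] [RightRigidCategory C] [UnitK K C] in
theorem CaseB_wl_smul (X : C) (n : ℕ) (a : K) (F : End (pow X n)) :
    wl X n (a • F) = a • wl X n F := by
  exact MonoidalLinear.whiskerLeft_smul X a (show pow X n ⟶ pow X n from F)

omit [CharZero K] [SymmetricCategory C] [RightRigidCategory C] [UnitK K C] in
theorem CaseB_W_smul (M : C) (n k : ℕ) (a : K) (F : End (pow M n)) :
    CaseB_W M n k (a • F) = a • CaseB_W M n k F := by
  induction k with
  | zero => rfl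
  | succ k ih =>
    change wl M (n + k) (CaseB_W M n k (a • F)) = a • wl M (n + k) (CaseB_W M n k F)
    rw [ih, CaseB_wl_smul]

omit [CharZero K] [RightRigidCategory C] [UnitK K C] in
theorem CaseB_comm {M : C} {n : ℕ} (D : Cut K M n) (k : ℕ) (s : Equiv.Perm (Fin k)) :
    Commute (rho M (n + k) (jn k n (s, 1))) (CaseB_W M n k D.e) := by
  rw [D.e_eq, map_sum]
  refine Commute.sum_right _ _ _ fun σ _ => ?_
  rw [CaseB_W_smul, CaseB_W_rho]
  refine Commute.smul_right ?_ _
  change _ * _ = _ * _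
  rw [← map_mul, ← map_mul, ← map_mul, ← map_mul]
  simp

theorem CaseB_filter (n k : ℕ) :
    (Finset.univ.filter (fun x : Fin (n + k + 1) => k + 1 ≤ x.val)) =
      (Finset.univ.filter (fun x : Fin (n + k) => k ≤ x.val)).image Fin.succ := by
  ext x
  rw [Finset.mem_filter, Finset.mem_image]
  constructor
  · rintro ⟨-, hx⟩
    refine ⟨⟨x.val - 1, by omega⟩, ?_, ?_⟩
    · rw [Finset.mem_filter]
      refine ⟨Finset.mem_univ _, ?_⟩
      change k ≤ x.val - 1
      omega
    · apply Fin.ext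
      rw [Fin.val_succ]
      change x.val - 1 + 1 = x.val
      omega
  · rintro ⟨y, hy, rfl⟩
    rw [Finset.mem_filter] at hy
    refine ⟨Finset.mem_univ _, ?_⟩
    rw [Fin.val_succ]
    omega

omit [CharZero K] [RightRigidCategory C] [UnitK K C] in
theorem CaseB_last {M : C} {n : ℕ} (D : Cut K M n) (g : K)
    (h : Xz M n * wl M n D.e = g • wl M n D.e) (k : ℕ) :
    (∑ i ∈ Finset.univ.filter (fun x : Fin (n + k + 1) => k + 1 ≤ x.val),
      rho M (n + k + 1) (Equiv.swap i ⟨k, by omega⟩)) * CaseB_W M n (k + 1) D.e =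
      g • CaseB_W M n (k + 1) D.e := by
  induction k with
  | zero =>
    change _ * wl M n D.e = g • wl M n D.e
    rw [← h]
    congr 1
    have h1 := CaseB_filter n 0
    refine (Finset.sum_congr h1 fun _ _ => rfl).trans ?_
    rw [Finset.sum_image fun a _ b _ hab => Fin.succ_injective _ hab]
    have h2 : (Finset.univ.filter (fun x : Fin (n + 0) => 0 ≤ x.val)) = Finset.univ := by
      ext x
      simp
    rw [h2]
    unfold Xz
    refine Finset.sum_congr rfl fun j _ => ?_
    rw [Equiv.swap_comm]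
    rfl
  | succ k ih =>
    have h1 := congrArg (wl M (n + k + 1)) ih
    rw [map_mul, map_sum, CaseB_wl_smul] at h1
    refine Eq.trans ?_ h1
    change _ * wl M (n + k + 1) (CaseB_W M n (k + 1) D.e) = _
    congr 1
    have h2 := CaseB_filter n (k + 1)
    refine (Finset.sum_congr h2 fun _ _ => rfl).trans ?_
    rw [Finset.sum_image fun a _ b _ hab => Fin.succ_injective _ hab]
    refine Finset.sum_congr rfl fun j _ => ?_
    rw [wl_rho, Casim_shift_swap]
    rfl

omit [CharZero K] [RightRigidCategory C] [UnitK K C] in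
theorem caseB_X {M : C} {n : ℕ} (D : Cut K M n) (g : K)
    (h : Xz M n * wl M n D.e = g • wl M n D.e) (k : ℕ) (q : Fin (n + k)) (hq : q.val < k) :
    (∑ i ∈ Finset.univ.filter (fun x : Fin (n + k) => k ≤ x.val),
      rho M (n + k) (Equiv.swap i q)) *
      (show End (pow M (n + k)) from wT M (show pow M n ⟶ pow M n from D.e) k) =
      g • (show End (pow M (n + k)) from wT M (show pow M n ⟶ pow M n from D.e) k) := by
  obtain ⟨k, rfl⟩ : ∃ k', k = k' + 1 := ⟨k - 1, by omega⟩
  have hW : (show End (pow M (n + (k + 1))) from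
      wT M (show pow M n ⟶ pow M n from D.e) (k + 1)) = CaseB_W M n (k + 1) D.e :=
    (CaseB_W_eq M n (k + 1) (show pow M n ⟶ pow M n from D.e)).symm
  rw [hW]
  have h0 : (∑ i ∈ Finset.univ.filter (fun x : Fin (n + (k + 1)) => k + 1 ≤ x.val),
      rho M (n + (k + 1)) (Equiv.swap i ⟨k, by omega⟩)) * CaseB_W M n (k + 1) D.e =
      g • CaseB_W M n (k + 1) D.e := CaseB_last D g h k
  have hf := CaseB_swap (k + 1) n q ⟨k, by omega⟩ hq (Nat.lt_succ_self k)
  have hc := CaseB_comm D (k + 1) (Equiv.swap ⟨q.val, hq⟩ ⟨k, Nat.lt_succ_self k⟩)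
  have hf' : jn (k + 1) n (Equiv.swap ⟨q.val, hq⟩ ⟨k, Nat.lt_succ_self k⟩, 1) =
      Equiv.swap q (⟨k, by omega⟩ : Fin (n + (k + 1))) := hf
  rw [hf'] at hc
  have hsq : rho M (n + (k + 1)) (Equiv.swap q ⟨k, by omega⟩) *
      rho M (n + (k + 1)) (Equiv.swap q ⟨k, by omega⟩) = 1 := by
    rw [← map_mul, Equiv.swap_mul_self, map_one]
  have h1 : ∀ i ∈ Finset.univ.filter (fun x : Fin (n + (k + 1)) => k + 1 ≤ x.val),
      rho M (n + (k + 1)) (Equiv.swap i q) = rho M (n + (k + 1)) (Equiv.swap q ⟨k, by omega⟩) *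
        rho M (n + (k + 1)) (Equiv.swap i ⟨k, by omega⟩) *
        rho M (n + (k + 1)) (Equiv.swap q ⟨k, by omega⟩) := by
    intro i hi
    rw [Finset.mem_filter] at hi
    have h2 := Equiv.swap_apply_apply (Equiv.swap q (⟨k, by omega⟩ : Fin (n + (k + 1)))) i
      ⟨k, by omega⟩
    rw [Equiv.swap_apply_right, Equiv.swap_apply_of_ne_of_ne, Equiv.swap_inv] at h2
    · rw [h2, map_mul, map_mul]
    · intro h
      rw [h] at hi
      omega
    · intro h
      rw [h] at hi
      have := hi.2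
      simp only at this
      omega
  rw [Finset.sum_congr rfl h1, ← Finset.sum_mul, ← Finset.mul_sum, mul_assoc, hc.eq,
    mul_assoc, ← mul_assoc (∑ i ∈ _, _), h0, smul_mul_assoc, mul_smul_comm, ← mul_assoc, hc.eq,
    mul_assoc, hsq, mul_one]

omit [CharZero K] [Linear K C] [MonoidalLinear K C] [RightRigidCategory C] [UnitK K C] [Field K] in
theorem caseB_F (b : Bool) (M : C) (n k : ℕ) (a q : Fin (n + k)) (ha : a.val < k)
    (hq : q.val < k) (haq : a ≠ q) :
    (show End (pow M (n + k)) from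
      (J M k n).inv ≫ (E b M k ▷ pow M n) ≫ (J M k n).hom) * rho M (n + k) (Equiv.swap a q) =
      cs b • (show End (pow M (n + k)) from
        (J M k n).inv ≫ (E b M k ▷ pow M n) ≫ (J M k n).hom) := by
  have h1 := CaseB_swap k n a q ha hq
  obtain ⟨s, hs⟩ : ∃ s, s = Equiv.swap (⟨a.val, ha⟩ : Fin k) ⟨q.val, hq⟩ := ⟨_, rfl⟩
  rw [← hs] at h1
  have hne : (⟨a.val, ha⟩ : Fin k) ≠ ⟨q.val, hq⟩ := by
    intro h
    exact haq (Fin.ext (Fin.mk.inj_iff.1 h))
  have h2 := JoinAct_left M k n s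
  have h3 := act_E b M k s
  rw [hs, chi_swap b _ _ hne, ← hs] at h3
  have h4 : (act M k s ▷ pow M n) ≫ (E b M k ▷ pow M n) = cs b • (E b M k ▷ pow M n) := by
    rw [← comp_whiskerRight, h3]
    exact (tensorRight (pow M n)).map_zsmul
  rw [← h1]
  change act M (n + k) (jn k n (s, 1)) ≫ (J M k n).inv ≫ (E b M k ▷ pow M n) ≫ (J M k n).hom =
    cs b • ((J M k n).inv ≫ (E b M k ▷ pow M n) ≫ (J M k n).hom)
  have h5 : act M (n + k) (jn k n (s, 1)) ≫ (J M k n).inv =
      (J M k n).inv ≫ (act M k s ▷ pow M n) := by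
    rw [Iso.comp_inv_eq, Category.assoc, h2, Iso.inv_hom_id_assoc]
  rw [reassoc_of% h5, reassoc_of% h4, Preadditive.zsmul_comp, Preadditive.comp_zsmul]

theorem CaseB_card (n k : ℕ) :
    (Finset.univ.filter (fun x : Fin (n + k) => k ≤ x.val)).card ≤ n := by
  have h1 : Finset.univ.filter (fun x : Fin (n + k) => k ≤ x.val) ⊆
      Finset.univ.image (fun i : Fin n => (⟨i.val + k, by omega⟩ : Fin (n + k))) := by
    intro x hx
    rw [Finset.mem_filter] at hx
    rw [Finset.mem_image]
    refine ⟨⟨x.val - k, by omega⟩, Finset.mem_univ _, ?_⟩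
    apply Fin.ext
    change x.val - k + k = x.val
    omega
  refine (Finset.card_le_card h1).trans (Finset.card_image_le.trans ?_)
  rw [Finset.card_univ, Fintype.card_fin]

omit [CharZero K] [RightRigidCategory C] [UnitK K C] in
theorem CaseB_key {M : C} {n : ℕ} (D : Cut K M n) (g : K)
    (hX : Xz M n * wl M n D.e = g • wl M n D.e) (b : Bool) :
    (∏ j ∈ Finset.range (n + 1), (g - (j : K) * ((cs b : ℤ) : K))) •
      ((show End (pow M (n + (n + 1))) from
        (J M (n + 1) n).inv ≫ (E b M (n + 1) ▷ pow M n) ≫ (J M (n + 1) n).hom) *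
        (show End (pow M (n + (n + 1))) from
          wT M (show pow M n ⟶ pow M n from D.e) (n + 1))) = 0 := by
  have hmem : ∀ q : Fin (n + (n + 1)), q ∈ List.ofFn
      (fun i : Fin (n + 1) => (⟨i.val, by omega⟩ : Fin (n + (n + 1)))) → q.val < n + 1 := by
    intro q hq
    obtain ⟨i, rfl⟩ := (List.mem_ofFn ..).1 hq
    exact i.isLt
  have h1 := U_prod (K := K) (rho M (n + (n + 1)))
    (Finset.univ.filter (fun x : Fin (n + (n + 1)) => n + 1 ≤ x.val))
    (show End (pow M (n + (n + 1))) from wT M (show pow M n ⟶ pow M n from D.e) (n + 1))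
    (show End (pow M (n + (n + 1))) from
      (J M (n + 1) n).inv ≫ (E b M (n + 1) ▷ pow M n) ≫ (J M (n + 1) n).hom) g ((cs b : ℤ) : K)
    (List.ofFn (fun i : Fin (n + 1) => (⟨i.val, by omega⟩ : Fin (n + (n + 1))))) ?_ ?_ ?_ ?_
  · rw [U_zero, mul_zero, zero_mul, List.length_ofFn] at h1
    · exact h1.symm
    · rw [List.length_ofFn]
      exact Nat.lt_succ_of_le (CaseB_card n (n + 1))
  · rw [List.nodup_ofFn]
    intro i j hij
    exact Fin.ext (Fin.mk.inj_iff.1 hij)
  · intro q hq hq'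
    have h2 := hmem q hq
    rw [Finset.mem_filter] at hq'
    omega
  · intro q hq
    exact caseB_X D g hX (n + 1) q (hmem q hq)
  · intro a ha q hq haq
    refine (caseB_F b M n (n + 1) a q (hmem a ha) (hmem q hq) haq).trans ?_
    exact (Int.cast_smul_eq_zsmul K _ _).symm

theorem CaseB_end {M : C} {n : ℕ} (D : Cut K M n) (b : Bool) (k : ℕ)
    (h : (show End (pow M (n + k)) from
        (J M k n).inv ≫ (E b M k ▷ pow M n) ≫ (J M k n).hom) *
        (show End (pow M (n + k)) from
          wT M (show pow M n ⟶ pow M n from D.e) k) = 0) : E b M k = 0 := by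
  apply D.tensor_zero
  have h1 : wT M (show pow M n ⟶ pow M n from D.e) k ≫ (J M k n).inv =
      (J M k n).inv ≫ (pow M k ◁ (show pow M n ⟶ pow M n from D.e)) := by
    rw [Iso.comp_inv_eq, Category.assoc, wT_J, Iso.inv_hom_id_assoc]
  have h2 : wT M (show pow M n ⟶ pow M n from D.e) k ≫
      (J M k n).inv ≫ (E b M k ▷ pow M n) ≫ (J M k n).hom = 0 := h
  rw [reassoc_of% h1] at h2
  have h3 : (J M k n).hom ≫ ((J M k n).inv ≫ (pow M k ◁ (show pow M n ⟶ pow M n from D.e)) ≫
      (E b M k ▷ pow M n) ≫ (J M k n).hom) ≫ (J M k n).inv = 0 := by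
    rw [h2, Limits.zero_comp, Limits.comp_zero]
  simp only [Category.assoc, Iso.hom_inv_id_assoc, Iso.hom_inv_id, Category.comp_id] at h3
  rw [MonoidalCategory.tensorHom_def']
  exact h3

theorem CaseB_prod {g : K} (hg : g ≠ 0) (N : ℕ)
    (h : ∀ b : Bool, (∏ j ∈ Finset.range N, (g - (j : K) * ((cs b : ℤ) : K))) = 0) : False := by
  have h1 := h true
  have h2 := h false
  rw [Finset.prod_eq_zero_iff] at h1 h2
  obtain ⟨i, -, hi⟩ := h1
  obtain ⟨j, -, hj⟩ := h2
  have e1 : ((cs true : ℤ) : K) = -1 := by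
    change ((-1 : ℤ) : K) = -1
    norm_num
  have e2 : ((cs false : ℤ) : K) = 1 := by
    change ((1 : ℤ) : K) = 1
    norm_num
  rw [e1] at hi
  rw [e2] at hj
  have h3 : ((j + i : ℕ) : K) = 0 := by
    push_cast
    linear_combination hi - hj
  have h4 : j = 0 := by
    have := Nat.cast_eq_zero.1 h3
    omega
  apply hg
  rw [h4] at hj
  linear_combination hj

theorem caseB {M : C} {m : ℕ} (D : Cut K M (m + 1)) (h : Zc D = 0) :
    ∃ b : Bool, Fd b (𝟙 M) := by
  have hn : ((m + 1 : ℕ) : K) ≠ 0 := Nat.cast_ne_zero.2 (Nat.succ_ne_zero m)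
  unfold Zc at h
  by_cases hd : tr K (𝟙 M) = 0
  · have h1 : wl M (m + 1) D.e = 0 := by
      rw [hd, zero_smul, zero_sub, neg_mul, smul_mul_assoc, one_mul, neg_eq_zero] at h
      exact (smul_eq_zero.1 h).resolve_left hn
    have h2 : 𝟙 M = 0 := by
      apply D.tensor_zero
      rw [id_tensorHom]
      exact h1
    refine ⟨true, 1, le_rfl, ?_⟩
    rw [h2]
    change ((0 : M ⟶ M) ⊗ₘ 𝟙 (𝟙_ C)) ≫ _ = 0
    rw [tensorHom_id, MonoidalPreadditive.zero_whiskerRight, Limits.zero_comp]
  · have hX : Xz M (m + 1) * wl M (m + 1) D.e =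
        (((m + 1 : ℕ) : K) / tr K (𝟙 M)) • wl M (m + 1) D.e := by
      rw [sub_mul, smul_mul_assoc, smul_mul_assoc, one_mul, sub_eq_zero] at h
      rw [div_eq_inv_mul, mul_smul, ← h, smul_smul, inv_mul_cancel₀ hd, one_smul]
    by_contra hcon
    refine CaseB_prod (div_ne_zero hn hd) (m + 1 + 1) fun b => ?_
    by_contra hb
    apply hcon
    have h3 := (smul_eq_zero.1 (CaseB_key D _ hX b)).resolve_left hb
    refine ⟨b, m + 1 + 1, Nat.succ_le_succ (Nat.zero_le _), ?_⟩
    rw [powMap_id, Category.id_comp]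
    exact CaseB_end D b (m + 1 + 1) h3

end Pool.Agent.W_868bb7_h64
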