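import Pool.Agent.W_MP_868bb7_ag.TensorFd
import Pool.Agent.W_MP_868bb7_ag.TraceB

set_option autoImplicit false

/-!
# DualFd: the dual of an evenly (oddly) finite-dimensional object

`P = pow X n`, `Q = pow Xᘁ n`, `capn X n : P ⊗ Q ⟶ 𝟙` is
`shInv ≫ powMap (cap X) n ≫ (pow (𝟙_ C) n ⟶ 𝟙_ C)`.

* `capn_act`: `(act X n σ ⊗ₘ act Xᘁ n σ) ≫ capn X n = capn X n`: `sh_act` (`sh_shInv`, `shInv_sh`),
  `powMap_act`, and `act (𝟙_ C) n σ ≫ un n = un n` (induction: `mv (𝟙_ C) n p ≫ un (n+1) = un (n+1)`;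
  `sw (𝟙_ C) Z = 𝟙`, see `kimTensor_braid`).
* `capn_powMap`: `(powMap f n ⊗ₘ 𝟙) ≫ capn = (𝟙 ⊗ₘ powMap (rightAdjointMate f) n) ≫ capn`: `sh_powMap`, `powMap_comp`,
  `cap_slide`.
* `capn_succ`: `capn X (n+1) = tensorδ .. ≫ (cap X ⊗ₘ capn X n) ≫ (λ_ _).hom` (or `ρ`).
* `cap_nd`: `F : A ⟶ Xᘁ ⊗ B` with `(X ◁ F) ≫ (α_ X Xᘁ B).inv ≫ cap X ▷ B = 0` is zero: apply
  `Xᘁ ◁ _` and compose with `η`, `β` (zigzag identity of the exact pairing `(Xᘁ, X)`, see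
  `BraidedCategory.exactPairing_swap`).
* `capn_nd`: the same for `capn`, by induction on `n`: for `F : A ⟶ (Xᘁ ⊗ Q) ⊗ B` first use `cap_nd` for
  the morphism `P ⊗ A ⟶ Xᘁ ⊗ B` obtained from `F` by exchanging `P` and `Xᘁ` and applying `capn X n`,
  then the induction hypothesis with `B` replaced by `Xᘁ ⊗ B`.
* `Fd_dual`: `(𝟙 ⊗ (powMap (rightAdjointMate f) n ≫ E b)) ≫ capn = ∑ χ(σ) (act σ⁻¹ ⊗ 𝟙) (𝟙 ⊗ powMap fᘁ) ≫ capn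
  = ((E b ≫ powMap f n) ⊗ 𝟙) ≫ capn = 0` (`powMap_E`), and `capn_nd` with `B = 𝟙_ C`.
-/

namespace Pool.Agent.W_868bb7_h64

open CategoryTheory MonoidalCategory Pool.Agent.W_MP_868bb7_ag

universe v u w

section Sym

variable {C : Type u} [Category.{v} C] [MonoidalCategory C]

/-- the tensor power of the unit -/
def un (C : Type u) [Category.{v} C] [MonoidalCategory C] : (n : ℕ) → (pow (𝟙_ C) n ⟶ 𝟙_ C)
  | 0 => 𝟙 _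
  | n + 1 => (λ_ (pow (𝟙_ C) n)).hom ≫ un C n

variable [SymmetricCategory C]

theorem DualFd_sw (Z : C) : sw (𝟙_ C) Z = 𝟙 _ := by
  unfold sw
  have h : (β_ (𝟙_ C) (𝟙_ C)).hom = 𝟙 _ := by
    rw [braiding_tensorUnit_right, ← unitors_equal, Iso.hom_inv_id]
  rw [h, id_whiskerRight, Category.id_comp, Iso.inv_hom_id]

omit [SymmetricCategory C] in
theorem DualFd_wh {Z : C} (a : Z ⟶ Z) (u : Z ⟶ 𝟙_ C) (h : a ≫ u = u) :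
    (𝟙_ C) ◁ a ≫ (λ_ Z).hom ≫ u = (λ_ Z).hom ≫ u := by
  rw [leftUnitor_naturality_assoc, h]

theorem DualFd_mv1 {Z : C} (m : 𝟙_ C ⊗ Z ⟶ 𝟙_ C ⊗ Z) (u : 𝟙_ C ⊗ Z ⟶ 𝟙_ C) (h : m ≫ u = u) :
    (sw (𝟙_ C) Z ≫ (𝟙_ C) ◁ m) ≫ (λ_ (𝟙_ C ⊗ Z)).hom ≫ u = (λ_ (𝟙_ C ⊗ Z)).hom ≫ u := by
  rw [DualFd_sw, Category.id_comp]
  exact DualFd_wh m u h

theorem DualFd_mv (n p : ℕ) : mv (𝟙_ C) n p ≫ un C (n + 1) = un C (n + 1) := by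
  induction n generalizing p with
  | zero => exact Category.id_comp _
  | succ n ih =>
    cases p with
    | zero => exact Category.id_comp _
    | succ p => exact DualFd_mv1 (mv (𝟙_ C) n p) (un C (n + 1)) (ih p)

omit [SymmetricCategory C] in
theorem DualFd_act1 {Z : C} (a : Z ⟶ Z) (m : 𝟙_ C ⊗ Z ⟶ 𝟙_ C ⊗ Z) (u : Z ⟶ 𝟙_ C)
    (h : a ≫ u = u) (hm : m ≫ (λ_ Z).hom ≫ u = (λ_ Z).hom ≫ u) :
    ((𝟙_ C) ◁ a ≫ m) ≫ (λ_ Z).hom ≫ u = (λ_ Z).hom ≫ u := by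
  rw [Category.assoc, hm]
  exact DualFd_wh a u h

theorem act_un (n : ℕ) (σ : Equiv.Perm (Fin n)) : act (𝟙_ C) n σ ≫ un C n = un C n := by
  induction n with
  | zero => exact Category.id_comp _
  | succ n ih =>
    exact DualFd_act1 (act (𝟙_ C) n (tail σ)) (mv (𝟙_ C) n (σ 0 : Fin (n + 1))) (un C n)
      (ih (tail σ)) (DualFd_mv n _)

/-- a morphism compatible with `sh` is compatible with `shInv` -/
theorem DualFd_shInv {X Y X' Y' : C} (n : ℕ) (p : pow (X ⊗ Y) n ⟶ pow (X' ⊗ Y') n)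
    (q : pow X n ⊗ pow Y n ⟶ pow X' n ⊗ pow Y' n) (h : p ≫ sh X' Y' n = sh X Y n ≫ q) :
    q ≫ shInv X' Y' n = shInv X Y n ≫ p := by
  have h1 : shInv X Y n ≫ p ≫ sh X' Y' n = q := by
    rw [h, ← Category.assoc, shInv_sh, Category.id_comp]
  rw [← h1]
  simp only [Category.assoc]
  rw [sh_shInv, Category.comp_id]

variable [RightRigidCategory C]

/-- the evaluation between tensor powers -/
def capn (X : C) (n : ℕ) : pow X n ⊗ pow Xᘁ n ⟶ 𝟙_ C :=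
  shInv X Xᘁ n ≫ powMap (cap X) n ≫ un C n

theorem capn_act (X : C) (n : ℕ) (σ : Equiv.Perm (Fin n)) :
    (act X n σ ⊗ₘ act Xᘁ n σ) ≫ capn X n = capn X n := by
  unfold capn
  rw [← Category.assoc, DualFd_shInv n _ _ (sh_act X Xᘁ n σ), Category.assoc, ← Category.assoc
    (act (X ⊗ Xᘁ) n σ), ← powMap_act, Category.assoc, act_un]

theorem capn_powMap {X : C} (f : X ⟶ X) (n : ℕ) :
    (powMap f n ▷ pow Xᘁ n) ≫ capn X n = (pow X n ◁ powMap (rightAdjointMate f) n) ≫ capn X n := by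
  have h1 : (powMap f n ▷ pow Xᘁ n) = (powMap f n ⊗ₘ powMap (𝟙 Xᘁ) n) := by
    rw [powMap_id, tensorHom_id]
  have h2 : (pow X n ◁ powMap (rightAdjointMate f) n) =
      (powMap (𝟙 X) n ⊗ₘ powMap (rightAdjointMate f) n) := by
    rw [powMap_id, id_tensorHom]
  have h3 := DualFd_shInv n _ _ (sh_powMap f (𝟙 Xᘁ) n)
  have h4 := DualFd_shInv n _ _ (sh_powMap (𝟙 X) (rightAdjointMate f) n)
  have h5 : powMap (f ⊗ₘ 𝟙 Xᘁ) n ≫ powMap (cap X) n =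
      powMap (𝟙 X ⊗ₘ rightAdjointMate f) n ≫ powMap (cap X) n := by
    rw [← powMap_comp, ← powMap_comp, tensorHom_id, id_tensorHom, cap_slide]
  rw [h1, h2]
  unfold capn
  rw [reassoc_of% h3, reassoc_of% h4, reassoc_of% h5]

omit [SymmetricCategory C] [RightRigidCategory C] in
theorem DualFd_succ1 {P Q T R : C} (c1 : P ⟶ 𝟙_ C) (s : Q ⟶ T) (q : T ⟶ R) (u : R ⟶ 𝟙_ C) :
    P ◁ s ≫ (c1 ⊗ₘ q) ≫ (λ_ R).hom ≫ u = (c1 ⊗ₘ (s ≫ q ≫ u)) ≫ (λ_ (𝟙_ C)).hom := by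
  rw [← leftUnitor_naturality, ← id_tensorHom, ← id_tensorHom, ← Category.assoc, ← Category.assoc,
    tensorHom_comp_tensorHom, tensorHom_comp_tensorHom, Category.id_comp, Category.comp_id,
    Category.assoc]

theorem DualFd_capn_succ (X : C) (n : ℕ) : (capn X (n + 1) : (X ⊗ pow X n) ⊗ (Xᘁ ⊗ pow Xᘁ n) ⟶ 𝟙_ C) =
    tensorδ X Xᘁ (pow X n) (pow Xᘁ n) ≫ (cap X ⊗ₘ capn X n) ≫ (λ_ (𝟙_ C)).hom := by
  have h : (capn X (n + 1) : (X ⊗ pow X n) ⊗ (Xᘁ ⊗ pow Xᘁ n) ⟶ 𝟙_ C) =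
      (tensorδ X Xᘁ (pow X n) (pow Xᘁ n) ≫ (X ⊗ Xᘁ) ◁ shInv X Xᘁ n) ≫
      (cap X ⊗ₘ powMap (cap X) n) ≫ (λ_ (pow (𝟙_ C) n)).hom ≫ un C n := rfl
  rw [h, Category.assoc]
  congr 1
  exact DualFd_succ1 _ _ _ _

omit [RightRigidCategory C] in
/-- the core identity of the induction -/
theorem DualFd_core {P1 Q1 P2 Q2 : C} (c1 : P1 ⊗ Q1 ⟶ 𝟙_ C) (c2 : P2 ⊗ Q2 ⟶ 𝟙_ C) :
    (β_ P2 P1).hom ▷ (Q1 ⊗ Q2) ≫ tensorδ P1 Q1 P2 Q2 ≫ (c1 ⊗ₘ c2) ≫ (λ_ (𝟙_ C)).hom =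
      𝟙 _ ⊗≫ (P2 ◁ c1) ▷ Q2 ⊗≫ c2 := by
  have hb : (β_ Q1 P2).inv = (β_ P2 Q1).hom := by
    rw [← cancel_epi (β_ Q1 P2).hom, Iso.hom_inv_id, SymmetricCategory.symmetry]
  have h1 : tensorδ P1 Q1 P2 Q2 ≫ (c1 ⊗ₘ c2) ≫ (λ_ (𝟙_ C)).hom =
      𝟙 _ ⊗≫ (𝟙 _ ⊗≫ P1 ◁ (β_ P2 Q1).hom ⊗≫ c1 ▷ P2 ⊗≫ 𝟙 _ : P1 ⊗ (P2 ⊗ Q1) ⟶ P2) ▷ Q2 ⊗≫
        c2 := by
    unfold tensorδ
    rw [hb, MonoidalCategory.tensorHom_def]
    monoidal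
  rw [h1, ← cap_nat]
  calc _ = 𝟙 _ ⊗≫ (((β_ P2 P1).hom ≫ (β_ P1 P2).hom) ▷ Q1 ⊗≫ P2 ◁ c1 ⊗≫ 𝟙 P2) ▷ Q2 ⊗≫ c2 := by
        monoidal
    _ = _ := by
        rw [SymmetricCategory.symmetry]
        monoidal

variable [Preadditive C] [MonoidalPreadditive C]

theorem cap_nd (X : C) {A B : C} (F : A ⟶ Xᘁ ⊗ B)
    (h : (X ◁ F) ≫ (α_ X Xᘁ B).inv ≫ cap X ▷ B = 0) : F = 0 := by
  let _ : ExactPairing Xᘁ X := BraidedCategory.exactPairing_swap X Xᘁ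
  have e : ∀ G : A ⟶ Xᘁ ⊗ B, (tensorLeftHomEquiv A Xᘁ X B).symm G =
      ((X ◁ G) ≫ (α_ X Xᘁ B).inv ≫ cap X ▷ B) ≫ (λ_ B).hom := by
    intro G
    simp only [Category.assoc]
    rfl
  apply (tensorLeftHomEquiv A Xᘁ X B).symm.injective
  rw [e F, e 0, h, MonoidalPreadditive.whiskerLeft_zero, Limits.zero_comp, Limits.zero_comp,
    Limits.zero_comp]

omit [MonoidalPreadditive C] [RightRigidCategory C] in
theorem DualFd_nd {P1 Q1 P2 Q2 : C} (c1 : P1 ⊗ Q1 ⟶ 𝟙_ C) (c2 : P2 ⊗ Q2 ⟶ 𝟙_ C)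
    (h1 : ∀ {A B : C} (F : A ⟶ Q1 ⊗ B), (P1 ◁ F) ≫ (α_ P1 Q1 B).inv ≫ c1 ▷ B = 0 → F = 0)
    (h2 : ∀ {A B : C} (F : A ⟶ Q2 ⊗ B), (P2 ◁ F) ≫ (α_ P2 Q2 B).inv ≫ c2 ▷ B = 0 → F = 0)
    {A B : C} (F : A ⟶ (Q1 ⊗ Q2) ⊗ B)
    (h : ((P1 ⊗ P2) ◁ F) ≫ (α_ (P1 ⊗ P2) (Q1 ⊗ Q2) B).inv ≫
      (tensorδ P1 Q1 P2 Q2 ≫ (c1 ⊗ₘ c2) ≫ (λ_ (𝟙_ C)).hom) ▷ B = 0) : F = 0 := by
  have e1 : F ≫ (α_ Q1 Q2 B).hom = 0 := by
    apply h1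
    have e2 : (P1 ◁ (F ≫ (α_ Q1 Q2 B).hom) ≫ (α_ P1 Q1 (Q2 ⊗ B)).inv ≫ c1 ▷ (Q2 ⊗ B)) ≫
        (λ_ (Q2 ⊗ B)).hom = 0 := by
      apply h2
      have e3 : P2 ◁ ((P1 ◁ (F ≫ (α_ Q1 Q2 B).hom) ≫ (α_ P1 Q1 (Q2 ⊗ B)).inv ≫
          c1 ▷ (Q2 ⊗ B)) ≫ (λ_ (Q2 ⊗ B)).hom) ≫ (α_ P2 Q2 B).inv ≫ c2 ▷ B =
          (α_ P2 P1 A).inv ≫ (β_ P2 P1).hom ▷ A ≫ (((P1 ⊗ P2) ◁ F) ≫
          (α_ (P1 ⊗ P2) (Q1 ⊗ Q2) B).inv ≫
          (tensorδ P1 Q1 P2 Q2 ≫ (c1 ⊗ₘ c2) ≫ (λ_ (𝟙_ C)).hom) ▷ B) := by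
        calc _ = 𝟙 _ ⊗≫ (P2 ⊗ P1) ◁ F ⊗≫
              (𝟙 _ ⊗≫ (P2 ◁ c1) ▷ Q2 ⊗≫ c2 : (P2 ⊗ P1) ⊗ (Q1 ⊗ Q2) ⟶ 𝟙_ C) ▷ B := by monoidal
          _ = 𝟙 _ ⊗≫ ((P2 ⊗ P1) ◁ F ≫ (β_ P2 P1).hom ▷ ((Q1 ⊗ Q2) ⊗ B)) ⊗≫
              (tensorδ P1 Q1 P2 Q2 ≫ (c1 ⊗ₘ c2) ≫ (λ_ (𝟙_ C)).hom) ▷ B := by
              rw [← DualFd_core c1 c2]
              generalize (tensorδ P1 Q1 P2 Q2 ≫ (c1 ⊗ₘ c2) ≫ (λ_ (𝟙_ C)).hom) = E
              monoidal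
          _ = _ := by
              rw [whisker_exchange]
              generalize (tensorδ P1 Q1 P2 Q2 ≫ (c1 ⊗ₘ c2) ≫ (λ_ (𝟙_ C)).hom) = E
              monoidal
      rw [e3, h, Limits.comp_zero, Limits.comp_zero]
    have e4 := congrArg (fun t => t ≫ (λ_ (Q2 ⊗ B)).inv) e2
    simp only [Category.assoc, Iso.hom_inv_id, Category.comp_id, Limits.zero_comp] at e4
    exact e4
  have e5 := congrArg (fun t => t ≫ (α_ Q1 Q2 B).inv) e1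
  simp only [Category.assoc, Iso.hom_inv_id, Category.comp_id, Limits.zero_comp] at e5
  exact e5

theorem capn_nd (X : C) (n : ℕ) {A B : C} (F : A ⟶ pow Xᘁ n ⊗ B)
    (h : (pow X n ◁ F) ≫ (α_ (pow X n) (pow Xᘁ n) B).inv ≫ capn X n ▷ B = 0) : F = 0 := by
  induction n generalizing A B with
  | zero =>
    have h0 : capn X 0 = (λ_ (𝟙_ C)).hom := by
      change (λ_ (𝟙_ C)).hom ≫ 𝟙 _ ≫ 𝟙 _ = _
      rw [Category.comp_id, Category.comp_id]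
    rw [h0] at h
    have h1 : ∀ (F : A ⟶ 𝟙_ C ⊗ B), ((𝟙_ C) ◁ F) ≫ (α_ (𝟙_ C) (𝟙_ C) B).inv ≫
        (λ_ (𝟙_ C)).hom ▷ B = 0 → F = 0 := by
      intro F h
      have h2 : F = (λ_ A).inv ≫ (((𝟙_ C) ◁ F) ≫ (α_ (𝟙_ C) (𝟙_ C) B).inv ≫
        (λ_ (𝟙_ C)).hom ▷ B) := by monoidal
      rw [h2, h, Limits.comp_zero]
    exact h1 F h
  | succ n ih =>
    refine DualFd_nd (cap X) (capn X n) (fun F => cap_nd X F) (fun F => ih F) F ?_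
    rw [← DualFd_capn_succ]
    exact h

theorem DualFd_E (b : Bool) (X : C) (n : ℕ) :
    (pow X n ◁ E b Xᘁ n) ≫ capn X n = (E b X n ▷ pow Xᘁ n) ≫ capn X n := by
  have h1 : pow X n ◁ E b Xᘁ n =
      ∑ σ : Equiv.Perm (Fin n), ((chi b σ : ℤˣ) : ℤ) • (pow X n ◁ act Xᘁ n σ) := by
    have h := (tensorLeft (pow X n)).map_sum (fun e : Equiv.Perm (Fin n) =>
      ((chi b e : ℤˣ) : ℤ) • act Xᘁ n e) Finset.univ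
    refine h.trans (Finset.sum_congr rfl fun e _ => ?_)
    exact (tensorLeft (pow X n)).map_zsmul
  have h2 : E b X n ▷ pow Xᘁ n =
      ∑ σ : Equiv.Perm (Fin n), ((chi b σ : ℤˣ) : ℤ) • (act X n σ ▷ pow Xᘁ n) := by
    have h := (tensorRight (pow Xᘁ n)).map_sum (fun e : Equiv.Perm (Fin n) =>
      ((chi b e : ℤˣ) : ℤ) • act X n e) Finset.univ
    refine h.trans (Finset.sum_congr rfl fun e _ => ?_)
    exact (tensorRight (pow Xᘁ n)).map_zsmul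
  rw [h1, h2, Preadditive.sum_comp, Preadditive.sum_comp]
  refine Fintype.sum_equiv (Equiv.inv _) _ _ fun σ => ?_
  rw [Preadditive.zsmul_comp, Preadditive.zsmul_comp]
  have h3 : chi b ((Equiv.inv (Equiv.Perm (Fin n))) σ) = chi b σ := by
    change chi b σ⁻¹ = chi b σ
    rw [map_inv]
    exact inv_eq_of_mul_eq_one_left (chi_mul_self b σ)
  rw [h3]
  congr 1
  change (pow X n ◁ act Xᘁ n σ) ≫ capn X n = (act X n σ⁻¹ ▷ pow Xᘁ n) ≫ capn X n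
  have h4 := capn_act X n σ⁻¹
  conv_lhs => rw [← h4]
  rw [← Category.assoc, ← id_tensorHom, tensorHom_comp_tensorHom, ← act_mul, inv_mul_cancel,
    act_one, Category.id_comp, tensorHom_id]

theorem Fd_dual (b : Bool) {X : C} (f : X ⟶ X) (h : Fd b f) : Fd b (rightAdjointMate f) := by
  obtain ⟨n, hn, h⟩ := h
  refine ⟨n, hn, ?_⟩
  have h1 : (pow X n ◁ (powMap (rightAdjointMate f) n ≫ E b Xᘁ n)) ≫ capn X n = 0 := by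
    rw [MonoidalCategory.whiskerLeft_comp, Category.assoc, DualFd_E, ← Category.assoc,
      whisker_exchange, Category.assoc, ← capn_powMap, ← Category.assoc, ← comp_whiskerRight,
      ← powMap_E, h, MonoidalPreadditive.zero_whiskerRight, Limits.zero_comp]
  have h2 : (powMap (rightAdjointMate f) n ≫ E b Xᘁ n) ≫ (ρ_ (pow Xᘁ n)).inv = 0 := by
    apply capn_nd X n
    generalize powMap (rightAdjointMate f) n ≫ E b Xᘁ n = G at h1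
    have h3 : (pow X n ◁ (G ≫ (ρ_ (pow Xᘁ n)).inv)) ≫
        (α_ (pow X n) (pow Xᘁ n) (𝟙_ C)).inv ≫ capn X n ▷ (𝟙_ C) =
        ((pow X n ◁ G) ≫ capn X n) ≫ (ρ_ (𝟙_ C)).inv := by
      generalize capn X n = c
      monoidal
    rw [h3, h1, Limits.zero_comp]
  have h4 := congrArg (fun t => t ≫ (ρ_ (pow Xᘁ n)).hom) h2
  simp only [Category.assoc, Iso.inv_hom_id, Category.comp_id, Limits.zero_comp] at h4
  exact h4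

end Sym

end Pool.Agent.W_868bb7_h64
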