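import Pool.Agent.W_MP_868bb7_ag.Dat
import Pool.Agent.W_MP_868bb7_ag.FdAdd

set_option autoImplicit false

/-!
# SplitL: splitting off the image of a morphism to a Kimura-finite object

We work in a category without negligible morphisms (`NegZero`).

* `alg_idem` (pure algebra): write `P = X ^ t * R` with `R.coeff 0 ≠ 0`; `X ^ (t + 1)` and `R` are
  coprime, `A * X ^ (t+1) + B * R = 1`; `f = A(x) x^(t+1) = x * (x^t A(x))` is idempotent
  (`f = 1 - B(x) R(x)`, `x^(t+1) R(x) = 0`) and non-zero, because otherwise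
  `x^(t+1) = x^(t+1) B(x) R(x) = 0`.
* `tr_of_nilp`: otherwise let `j ≥ 1` be the largest number with `tr (it x j) ≠ 0` and `y = it x j`.
  Then `tr (it y i) = 0` for `i ≥ 2` (`it y i = it x (j * i)`, see `it_eq_pow`), and by `Tn_rec`
  `Tn K b y n / n! * n = tr y * (Tn K b y (n-1) / (n-1)!)`, so that `Tn K b y n ≠ 0` for all `n`; but
  `Fd b y` (`Fd_conj` or `powMap_conj_zero`) gives `Tn K b y n = 0` for some `n`.
* `exists_idem`: from `Fd b x` one gets `x ≫ Cn b x m = 0` (see the proof of `nilp` in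
  `W_MP_868bb7_ag.Newton`), by `Cn_eq` this is `P(x) = 0` with
  `P = ∑_k c_k X^(k+1)` and `c_m ≠ 0` (`Tn K b x 0 = 1`), so `alg_idem` applies in the algebra `End X`.
* `split_pure`: strong induction on `i`.  If `D = 0` take `k = 0`.  Otherwise (`NegZero`) there is
  `k₀ : Y ⟶ W` with `tr (D ≫ k₀) ≠ 0`; replace `k₀` by `ε ≫ k₀`; `x = k₀ ≫ D` satisfies
  `ε ≫ x = x = x ≫ ε`, `Fd b x`, `tr x ≠ 0`, so it is not nilpotent (`tr_of_nilp`) and `exists_idem`
  gives an idempotent `f = x ≫ q ≠ 0` commuting with `x`.  Put `k' = f ≫ q ≫ k₀` (with `x ≫ q = q ≫ x = f`):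
  `k' ≫ D = f`, `g = D ≫ k'` is idempotent, `g ≫ D = D ≫ f`.  `ε - f` is idempotent of type `b`
  (`Fd_conj`: it is `ε ≫ (1 - f)`), its trace is smaller (`dim_int`, `idem_zero` for `f`).
  `D₁ = D - g ≫ D = D ≫ (ε - f)`; the induction hypothesis gives `k₁` with `p₁ = D₁ ≫ k₁` idempotent,
  `p₁ ≫ D₁ = D₁`.  Then `p = g + p₁ ≫ (1 - g)` is idempotent, of the form `D ≫ k`, and `p ≫ D = D`
  (`(1 - g) ≫ p₁ = p₁`, `(1-p) = (1 - p₁) ≫ (1 - g)`).
* `split_both`: apply `split_pure` to `D ≫ e` (type `true`) and `D ≫ (1 - e)` (type `false`), with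
  idempotents `p = D ≫ e ≫ k`, `q = D ≫ (1 - e) ≫ k'`.  All `p ≫ h ≫ q`, `q ≫ h ≫ p`, and
  `q ≫ D ≫ e`, `p ≫ D ≫ (1 - e)` vanish by `NegZero` and `datMixed` (for the last two insert the
  factorization of the idempotent: e.g. `tr (q ≫ D ≫ e ≫ h) = 0` by `cross`, as `q` is of type `false`
  and `e` of type `true`).
-/

namespace Pool.Agent.W_868bb7_h64

open CategoryTheory MonoidalCategory Pool.Agent.W_MP_868bb7_ag

universe v u w

theorem alg_idem {K : Type*} [Field K] {E : Type*} [Ring E] [Algebra K E] (x : E)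
    (P : Polynomial K) (hP : P ≠ 0) (h : Polynomial.aeval x P = 0) (hx : ¬ IsNilpotent x) :
    ∃ q : Polynomial K, (x * Polynomial.aeval x q) * (x * Polynomial.aeval x q) =
      x * Polynomial.aeval x q ∧ x * Polynomial.aeval x q ≠ 0 := by
  obtain ⟨R, hR, hd⟩ := Polynomial.exists_eq_pow_rootMultiplicity_mul_and_not_dvd P hP 0
  obtain ⟨t, ht⟩ : ∃ t, t = Polynomial.rootMultiplicity 0 P := ⟨_, rfl⟩
  rw [← ht, map_zero, sub_zero] at hR
  rw [map_zero, sub_zero] at hd
  have h1 : IsCoprime (Polynomial.X ^ (t + 1)) R :=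
    (Polynomial.irreducible_X.coprime_iff_not_dvd.2 hd).pow_left
  obtain ⟨A, B, hAB⟩ := h1
  have h2 : x * Polynomial.aeval x (A * Polynomial.X ^ t) =
      Polynomial.aeval x (A * Polynomial.X ^ (t + 1)) := by
    have h3 : A * Polynomial.X ^ (t + 1) = Polynomial.X * (A * Polynomial.X ^ t) := by ring
    rw [h3, map_mul _ Polynomial.X, Polynomial.aeval_X]
  refine ⟨A * Polynomial.X ^ t, ?_, ?_⟩
  · rw [h2, ← map_mul]
    have h3 : A * Polynomial.X ^ (t + 1) * (A * Polynomial.X ^ (t + 1)) =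
        A * Polynomial.X ^ (t + 1) - A * B * Polynomial.X * P := by
      rw [hR]
      linear_combination (A * Polynomial.X ^ (t + 1)) * hAB
    rw [h3, map_sub, map_mul _ _ P, h, mul_zero, sub_zero]
  · intro h0
    rw [h2] at h0
    apply hx
    refine ⟨t + 1, ?_⟩
    have h3 : (Polynomial.X : Polynomial K) ^ (t + 1) =
        Polynomial.X ^ (t + 1) * (A * Polynomial.X ^ (t + 1)) + B * Polynomial.X * P := by
      rw [hR]
      linear_combination (-(Polynomial.X : Polynomial K) ^ (t + 1)) * hAB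
    have h4 := congrArg (Polynomial.aeval x) h3
    rw [map_add, map_mul _ (Polynomial.X ^ (t + 1)), h0, mul_zero, map_mul _ _ P, h, mul_zero,
      add_zero, map_pow, Polynomial.aeval_X] at h4
    exact h4

/-- there are no non-zero negligible morphisms -/
def NegZero (K : Type w) [Field K] (C : Type u) [Category.{v} C] [MonoidalCategory C]
    [Preadditive C] [Linear K C] [SymmetricCategory C] [RightRigidCategory C] [UnitK K C] : Prop :=
  ∀ {X Y : C} (f : X ⟶ Y), Neg K f → f = 0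

variable (K : Type w) [Field K] [CharZero K] {C : Type u} [Category.{v} C] [MonoidalCategory C]
  [Preadditive C] [Linear K C] [MonoidalPreadditive C] [MonoidalLinear K C]
  [SymmetricCategory C] [RightRigidCategory C] [UnitK K C]

theorem tr_of_nilp (b : Bool) {X : C} (x : X ⟶ X) (h : Fd b x) (hx : ∃ k, it x k = 0) :
    tr K x = 0 := by
  obtain ⟨k, hk⟩ := hx
  have hge : ∀ j, k ≤ j → it x j = 0 := by
    intro j hj
    obtain ⟨d, rfl⟩ := Nat.exists_eq_add_of_le hj
    rw [it_eq_pow] at hk ⊢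
    rw [pow_add, hk]
    exact zero_mul ((show End X from x) ^ d)
  suffices hs : ∀ d j : ℕ, 1 ≤ j → k ≤ j + d → tr K (it x j) = 0 by
    have h1 := hs k 1 le_rfl (by omega)
    have h2 : it x 1 = x := Category.comp_id x
    rwa [h2] at h1
  intro d
  induction d with
  | zero =>
    intro j _ hj2
    rw [hge j hj2, tr_zero]
  | succ d ih =>
    intro j hj hj2
    by_contra hne
    obtain ⟨y, hy⟩ : ∃ y : X ⟶ X, y = it x j := ⟨_, rfl⟩
    rw [← hy] at hne
    have hit : ∀ i : ℕ, it y i = it x (j * i) := by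
      intro i
      rw [it_eq_pow y, it_eq_pow x, pow_mul, hy, it_eq_pow x j]
    have htr : ∀ i : ℕ, tr K (it y (i + 2)) = 0 := by
      intro i
      rw [hit]
      have hq : j * (i + 2) = j * i + 2 * j := by ring
      apply ih _ (by rw [hq]; nlinarith [Nat.zero_le (j * i)])
      rw [hq]
      have := Nat.zero_le (j * i)
      omega
    have hFd : Fd b y := by
      obtain ⟨j', rfl⟩ : ∃ j', j = j' + 1 := ⟨j - 1, by omega⟩
      rw [hy]
      have h1 := Fd_conj b (𝟙 X) x (it x j') h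
      rw [Category.id_comp] at h1
      exact h1
    have hT : ∀ n, Tn K b y n ≠ 0 := by
      intro n
      induction n with
      | zero => rw [Tn_zero]; exact one_ne_zero
      | succ n ihn =>
        intro h0
        have h1 := Tn_rec K b y n
        rw [h0, zero_div, zero_mul, Finset.sum_range_succ'] at h1
        have h2 : ∑ k ∈ Finset.range n, (cs b : K) ^ (k + 1) * tr K (it y (k + 1 + 1)) *
            (Tn K b y (n - (k + 1)) / ((n - (k + 1)).factorial : K)) = 0 := by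
          refine Finset.sum_eq_zero fun k _ => ?_
          rw [htr k, mul_zero, zero_mul]
        have h3 : it y (0 + 1) = y := Category.comp_id y
        rw [h2, zero_add, pow_zero, one_mul, h3, Nat.sub_zero] at h1
        have h4 : (n.factorial : K) ≠ 0 := Nat.cast_ne_zero.2 (Nat.factorial_ne_zero _)
        exact (mul_ne_zero hne (div_ne_zero ihn h4)) h1.symm
    obtain ⟨n, _, hn2⟩ := hFd
    apply hT n
    unfold Tn
    rw [hn2, tr_zero]

include K in
theorem exists_idem (b : Bool) {X : C} (x : X ⟶ X) (h : Fd b x) (hx : ¬ ∃ k, it x k = 0) :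
    ∃ q : X ⟶ X, x ≫ q = q ≫ x ∧ (x ≫ q) ≫ (x ≫ q) = x ≫ q ∧ x ≫ q ≠ 0 := by
  obtain ⟨n, hn, hz⟩ := h
  obtain ⟨m, rfl⟩ : ∃ m, n = m + 1 := ⟨n - 1, by omega⟩
  have h3 : x ≫ Cn b x m = ptr (pow X m) (0 : X ⊗ pow X m ⟶ X ⊗ pow X m) :=
    (comp_Cn b x m).trans
      (congrArg (fun F : X ⊗ pow X m ⟶ X ⊗ pow X m => ptr (pow X m) F) hz)
  rw [ptr_zero, Cn_eq K, Linear.comp_smul, Preadditive.comp_sum] at h3
  have hm : (m.factorial : K) ≠ 0 := Nat.cast_ne_zero.2 (Nat.factorial_ne_zero _)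
  have h4 := (smul_eq_zero_iff_right hm).1 h3
  obtain ⟨a, ha⟩ : ∃ a : ℕ → K, ∀ k, a k =
      (cs b : K) ^ k * (Tn K b x (m - k) / ((m - k).factorial : K)) := ⟨_, fun _ => rfl⟩
  obtain ⟨P, hP⟩ : ∃ P : Polynomial K, P = ∑ k ∈ Finset.range (m + 1),
      Polynomial.monomial (k + 1) (a k) := ⟨_, rfl⟩
  have ham : a m ≠ 0 := by
    rw [ha, Nat.sub_self, Tn_zero, Nat.factorial_zero, Nat.cast_one, div_one, mul_one]
    exact pow_ne_zero _ (cs_ne_zero K b)
  have hP0 : P ≠ 0 := by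
    intro h0
    have h5 : P.coeff (m + 1) = a m := by
      rw [hP, Polynomial.finsetSum_coeff, Finset.sum_eq_single m]
      · rw [Polynomial.coeff_monomial, if_pos rfl]
      · intro k _ hk
        rw [Polynomial.coeff_monomial, if_neg (by omega)]
      · intro h6
        exact absurd (Finset.mem_range.2 (Nat.lt_succ_self m)) h6
    rw [h0, Polynomial.coeff_zero] at h5
    exact ham h5.symm
  have hPx : Polynomial.aeval (show End X from x) P = 0 := by
    rw [hP, map_sum]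
    refine Eq.trans (Finset.sum_congr rfl fun k _ => ?_) h4
    rw [Polynomial.aeval_monomial, Linear.comp_smul, ← ha, ← Algebra.smul_def, ← it_eq_pow]
    rfl
  have hnil : ¬ IsNilpotent (show End X from x) := by
    rintro ⟨k, hk⟩
    exact hx ⟨k, by rw [it_eq_pow]; exact hk⟩
  obtain ⟨q, hq1, hq2⟩ := alg_idem (show End X from x) P hP0 hPx hnil
  have hc : (show End X from x) * Polynomial.aeval (show End X from x) q =
      Polynomial.aeval (show End X from x) q * (show End X from x) := by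
    have h6 : Polynomial.aeval (show End X from x) (Polynomial.X * q) =
        Polynomial.aeval (show End X from x) (q * Polynomial.X) := by
      rw [mul_comm]
    rw [map_mul, map_mul, Polynomial.aeval_X] at h6
    exact h6
  refine ⟨Polynomial.aeval (show End X from x) q, hc.symm, ?_, ?_⟩
  · have h7 : x ≫ (Polynomial.aeval (show End X from x) q : End X) =
        ((show End X from x) * Polynomial.aeval (show End X from x) q : End X) := hc.symm
    rw [h7]
    exact hq1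
  · intro h0
    apply hq2
    rw [hc]
    exact h0

theorem split_pure (hN : NegZero K C) (b : Bool) {W Y : C} (i : ℕ) :
    ∀ (ε : Y ⟶ Y) (D : W ⟶ Y), ε ≫ ε = ε → Fd b ε → tr K ε = -(cs b : K) * i → D ≫ ε = D →
      ∃ k : Y ⟶ W, (D ≫ k) ≫ (D ≫ k) = D ≫ k ∧ (D ≫ k) ≫ D = D := by
  induction i using Nat.strong_induction_on with
  | _ i ih =>
  intro ε D hε hFd htr hD
  by_cases hD0 : D = 0
  · refine ⟨0, ?_, ?_⟩
    · simp
    · rw [hD0]
      simp
  have h1 : ¬ Neg K D := fun h => hD0 (hN D h)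
  unfold W_MP_868bb7_ag.Neg at h1
  push Not at h1
  obtain ⟨k0, hk0⟩ := h1
  obtain ⟨k1, hk1⟩ : ∃ k1 : Y ⟶ W, k1 = ε ≫ k0 := ⟨_, rfl⟩
  obtain ⟨x, hx⟩ : ∃ x : Y ⟶ Y, x = k1 ≫ D := ⟨_, rfl⟩
  have hεx : ε ≫ x = x := by
    rw [hx, hk1, ← Category.assoc, ← Category.assoc, hε]
  have hxε : x ≫ ε = x := by
    rw [hx, Category.assoc, hD]
  have hFx : Fd b x := by
    have h2 := Fd_conj b (𝟙 Y) ε x hFd
    rwa [Category.id_comp, hεx] at h2
  have htx : tr K x ≠ 0 := by
    rw [hx, tr_comp_comm, hk1, ← Category.assoc, hD]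
    exact hk0
  obtain ⟨q, hq1, hq2, hq3⟩ := exists_idem K b x hFx (fun h => htx (tr_of_nilp K b x hFx h))
  obtain ⟨f, hf⟩ : ∃ f : Y ⟶ Y, f = x ≫ q := ⟨_, rfl⟩
  rw [← hf] at hq1 hq2 hq3
  obtain ⟨k', hk'⟩ : ∃ k' : Y ⟶ W, k' = f ≫ q ≫ k1 := ⟨_, rfl⟩
  have hk'D : k' ≫ D = f := by
    rw [hk', Category.assoc, Category.assoc, ← hx, ← hq1, hq2]
  have hfk' : f ≫ k' = k' := by
    rw [hk', ← Category.assoc, hq2]
  have hεf : ε ≫ f = f := by
    rw [hf, ← Category.assoc, hεx]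
  have hfε : f ≫ ε = f := by
    rw [hq1, Category.assoc, hxε]
  obtain ⟨g, hg⟩ : ∃ g : W ⟶ W, g = D ≫ k' := ⟨_, rfl⟩
  have hgD : g ≫ D = D ≫ f := by
    rw [hg, Category.assoc, hk'D]
  have hgg : g ≫ g = g := by
    nth_rewrite 2 [hg]
    rw [← Category.assoc, hgD, Category.assoc, hfk', hg]
  obtain ⟨r, hr⟩ : ∃ r : Y ⟶ Y, r = ε - f := ⟨_, rfl⟩
  have hrr : r ≫ r = r := by
    rw [hr]
    simp only [Preadditive.comp_sub, Preadditive.sub_comp, hε, hεf, hfε, hq2]
    abel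
  have hfr : f ≫ r = 0 := by
    rw [hr, Preadditive.comp_sub, hfε, hq2, sub_self]
  have hFr : Fd b r := by
    have h2 := Fd_conj b (𝟙 Y) ε (𝟙 Y - f) hFd
    rwa [Category.id_comp, Preadditive.comp_sub, Category.comp_id, hεf, ← hr] at h2
  have hFf : Fd b f := by
    have h2 := Fd_conj b (𝟙 Y) ε f hFd
    rwa [Category.id_comp, hεf] at h2
  obtain ⟨j, hj⟩ := dim_int K b f hq2 hFf
  obtain ⟨i', hi'⟩ := dim_int K b r hrr hFr
  have hj0 : j ≠ 0 := by
    intro h0
    apply hq3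
    apply idem_zero K b f hq2 hFf
    rw [hj, h0]
    simp
  have hii : i' < i := by
    have h2 : tr K r = tr K ε - tr K f := by rw [hr, tr_sub]
    rw [hi', htr, hj] at h2
    have h3 : (cs b : K) * ((i' : K) + j) = (cs b : K) * i := by linear_combination -h2
    have h4 := mul_left_cancel₀ (cs_ne_zero K b) h3
    have h5 : i' + j = i := by exact_mod_cast h4
    omega
  obtain ⟨D1, hD1⟩ : ∃ D1 : W ⟶ Y, D1 = D ≫ r := ⟨_, rfl⟩
  have hD1' : D1 = D - D ≫ f := by
    rw [hD1, hr, Preadditive.comp_sub, hD]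
  obtain ⟨k2, hk2, hk2'⟩ := ih i' hii r D1 hrr hFr hi' (by rw [hD1, Category.assoc, hrr])
  obtain ⟨p1, hp1⟩ : ∃ p1 : W ⟶ W, p1 = D1 ≫ k2 := ⟨_, rfl⟩
  rw [← hp1] at hk2 hk2'
  have hgp : g ≫ p1 = 0 := by
    rw [hp1, hD1, ← Category.assoc, ← Category.assoc, hgD, Category.assoc D, hfr,
      Limits.comp_zero, Limits.zero_comp]
  have hk : D ≫ (k' + r ≫ k2 ≫ (𝟙 W - g)) = g + (p1 - p1 ≫ g) := by
    rw [Preadditive.comp_add, ← hg, ← Category.assoc, ← hD1, ← Category.assoc, ← hp1,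
      Preadditive.comp_sub, Category.comp_id]
  refine ⟨k' + r ≫ k2 ≫ (𝟙 W - g), ?_, ?_⟩
  · rw [hk]
    have a1 : g ≫ p1 ≫ g = 0 := by rw [← Category.assoc, hgp, Limits.zero_comp]
    have a2 : p1 ≫ p1 ≫ g = p1 ≫ g := by rw [← Category.assoc, hk2]
    have a3 : p1 ≫ g ≫ g = p1 ≫ g := by rw [hgg]
    have a4 : p1 ≫ g ≫ p1 = 0 := by rw [hgp, Limits.comp_zero]
    have a5 : p1 ≫ g ≫ p1 ≫ g = 0 := by rw [a1, Limits.comp_zero]
    simp only [Preadditive.comp_add, Preadditive.add_comp, Preadditive.comp_sub,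
      Preadditive.sub_comp, Category.assoc, hgg, hgp, hk2, a1, a2, Limits.comp_zero]
    abel
  · rw [hk, Preadditive.add_comp, Preadditive.sub_comp, hgD, Category.assoc, hgD]
    have a1 : p1 ≫ D - p1 ≫ D ≫ f = D - D ≫ f := by
      rw [← Preadditive.comp_sub, ← hD1', hk2']
    rw [a1]
    abel

/-- splitting off the image of `D : W ⟶ Y` if `Y` is Kimura-finite -/
theorem split_both (hN : NegZero K C) {W Y : C} (D : W ⟶ Y) (e : Y ⟶ Y) (he : e ≫ e = e)
    (h1 : Fd true e) (h2 : Fd false (𝟙 Y - e)) :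
    ∃ p q : W ⟶ W, p ≫ p = p ∧ q ≫ q = q ∧ p ≫ q = 0 ∧ q ≫ p = 0 ∧ Fd true p ∧ Fd false q ∧
      (𝟙 W - p - q) ≫ D = 0 := by
  have hz : ∀ (b : Bool) {A B : C} (f : A ⟶ B) (u : A ⟶ A) (v : B ⟶ B), Fd b u → Fd (!b) v →
      u ≫ f ≫ v = 0 := by
    intro b A B f u v hu hv
    apply hN
    intro h
    apply cross K b
    · have h3 := Fd_conj b (𝟙 A) u (f ≫ v ≫ h) hu
      rw [Category.id_comp] at h3
      simpa only [Category.assoc] using h3
    · have h3 := Fd_conj (!b) (h ≫ u ≫ f) v (𝟙 B) hv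
      rw [Category.comp_id] at h3
      simpa only [Category.assoc] using h3
  have he' : (𝟙 Y - e) ≫ (𝟙 Y - e) = 𝟙 Y - e := by
    simp only [Preadditive.comp_sub, Preadditive.sub_comp, he, Category.id_comp,
      Category.comp_id]
    abel
  obtain ⟨i, hi⟩ := dim_int K true e he h1
  obtain ⟨j, hj⟩ := dim_int K false (𝟙 Y - e) he' h2
  obtain ⟨k, hk1, hk2⟩ := split_pure K hN true i e (D ≫ e) he h1 hi (by rw [Category.assoc, he])
  obtain ⟨l, hl1, hl2⟩ := split_pure K hN false j (𝟙 Y - e) (D ≫ (𝟙 Y - e)) he' h2 hj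
    (by rw [Category.assoc, he'])
  obtain ⟨p, hp⟩ : ∃ p : W ⟶ W, p = (D ≫ e) ≫ k := ⟨_, rfl⟩
  obtain ⟨q, hq⟩ : ∃ q : W ⟶ W, q = (D ≫ (𝟙 Y - e)) ≫ l := ⟨_, rfl⟩
  rw [← hp] at hk1 hk2
  rw [← hq] at hl1 hl2
  have hFp : Fd true p := by
    rw [hp, Category.assoc]
    exact Fd_conj true _ _ _ h1
  have hFq : Fd false q := by
    rw [hq, Category.assoc]
    exact Fd_conj false _ _ _ h2
  refine ⟨p, q, hk1, hl1, ?_, ?_, hFp, hFq, ?_⟩
  · have h3 := hz true (𝟙 W) p q hFp hFq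
    rwa [Category.id_comp] at h3
  · have h3 := hz false (𝟙 W) q p hFq hFp
    rwa [Category.id_comp] at h3
  · have h3 : p ≫ D ≫ (𝟙 Y - e) = 0 := hz true D p _ hFp h2
    have h4 : q ≫ D ≫ e = 0 := hz false D q _ hFq h1
    rw [Preadditive.comp_sub, Preadditive.comp_sub, Category.comp_id, sub_eq_zero] at h3
    rw [Preadditive.comp_sub, Category.comp_id, Preadditive.comp_sub, h4, sub_zero] at hl2
    rw [Preadditive.sub_comp, Preadditive.sub_comp, Category.id_comp, h3, hk2, hl2]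
    abel

end Pool.Agent.W_868bb7_h64
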