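import Pool.Agent.W_868bb7_h64.Action
import Pool.Agent.W_868bb7_h64.CaseB
import Pool.Agent.W_868bb7_h64.DualFd
import Pool.Agent.W_868bb7_h64.SplitL
import Pool.Agent.W_MP_868bb7_ag.BaseChange
import Pool.Agent.W_MP_868bb7_ag.KimTensor

set_option autoImplicit false

/-!
# CaseA: the theorem in a category without negligible morphisms

* `faith`: `Zc D ≠ 0` and `NegZero` give `h` with `tr (Zc D ≫ h) ≠ 0`; `φ ⊗ (Zc D ≫ h) = 0` by `casim3`, and
  `ptr_tensorHom` gives `φ = 0`.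
* `unit_Fd`: `Fd true (𝟙 (𝟙_ C))` (extracted from `kimura_unit`).
* `Y_kim`: `Y = S ⊗ Sᘁ`, `e = ev ⊗ evᘁ + (1 - ev) ⊗ (1 - ev)ᘁ` (`Fd_tensor`, `Fd_dual`, `Fd_add`).
* `W_kim`: `split_both` for `DD D : W ⟶ Y` gives `p`, `q`; let `r = 𝟙 - p - q` (idempotent), `c = r ≫ cap M`.
  If `c = 0` then `r = 0` by `kills_of_zero`, `faith`, `kh_faithful`.  Otherwise there is `k : 𝟙_ C ⟶ W` with
  `k ≫ c = 𝟙` (`NegZero`, `UnitK`), replace `k` by `k ≫ r`; `g = c ≫ k` is idempotent,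
  `r ≫ g = g = g ≫ r`, `Fd true g`; `(r - g) ≫ DD D = 0` and `(r - g) ≫ cap M = 0`, so `r = g`.
  In both cases `e = p` or `p + g` is idempotent of type `true` and `𝟙 - e = q`.
* `N0`: if `Zc D = 0` then `caseB`; otherwise `Dat.main` for `Dat M Mᘁ` given by `W_kim`.
-/

namespace Pool.Agent.W_868bb7_h64

open CategoryTheory MonoidalCategory Pool.Agent.W_MP_868bb7_ag

universe v u w

variable {K : Type w} [Field K] [CharZero K] {C : Type u} [Category.{v} C] [MonoidalCategory C]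
  [Preadditive C] [Linear K C] [MonoidalPreadditive C] [MonoidalLinear K C]
  [SymmetricCategory C] [RightRigidCategory C] [UnitK K C]

theorem faith (hN : NegZero K C) {R M : C} {m : ℕ} (D : Cut K M (m + 1)) (hZ : Zc D ≠ 0)
    (φ : R ⊗ M ⟶ R ⊗ M) (h : Kills D φ) : φ = 0 := by
  obtain ⟨Z, hZe⟩ : ∃ Z : pow M (m + 1 + 1) ⟶ pow M (m + 1 + 1), Z = Zc D := ⟨_, rfl⟩
  have h1 : φ ⊗ₘ Z = 0 := by
    rw [hZe]
    exact casim3 D φ h
  have h2 : ∃ g, tr K (Z ≫ g) ≠ 0 := by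
    by_contra h3
    push Not at h3
    exact hZ (hZe.symm.trans (hN Z h3))
  obtain ⟨g, hg⟩ := h2
  have h3 : φ ⊗ₘ (Z ≫ g) = 0 := by
    have h4 : φ ⊗ₘ (Z ≫ g) = (φ ⊗ₘ Z) ≫ (𝟙 _ ⊗ₘ g) := by
      rw [MonoidalCategory.tensorHom_comp_tensorHom, Category.comp_id]
    rw [h4, h1, Limits.zero_comp]
  have h5 := ptr_tensorHom K φ (Z ≫ g)
  rw [h3, ptr_zero] at h5
  exact (smul_eq_zero.1 h5.symm).resolve_left hg

theorem zero_of_zero (hN : NegZero K C) {M : C} {m : ℕ} (D : Cut K M (m + 1)) (hZ : Zc D ≠ 0)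
    (r : M ⊗ Mᘁ ⟶ M ⊗ Mᘁ) (h1 : r ≫ DD D = 0) (h2 : r ≫ cap M = 0) : r = 0 :=
  kh_faithful M r (faith hN D hZ _ (kills_of_zero D r h1 h2))

theorem caseA_braid {C : Type u} [Category.{v} C] [MonoidalCategory C] [SymmetricCategory C] :
    (β_ (𝟙_ C) (𝟙_ C)).hom = 𝟙 _ := by
  rw [braiding_tensorUnit_right, ← unitors_equal, Iso.hom_inv_id]

omit [CharZero K] [Linear K C] [MonoidalLinear K C] [RightRigidCategory C] [UnitK K C]
  [Field K] in
theorem caseA_zero (b : Bool) (X : C) : Fd b (0 : X ⟶ X) := by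
  refine ⟨1, le_rfl, ?_⟩
  have h : powMap (0 : X ⟶ X) 1 = 0 := by
    change (0 : X ⟶ X) ⊗ₘ (𝟙 (𝟙_ C)) = 0
    exact MonoidalPreadditive.zero_tensor _
  rw [h, Limits.zero_comp]

include K in
omit [MonoidalLinear K C] [RightRigidCategory C] [UnitK K C] in
theorem unit_Fd : Fd true (𝟙 (𝟙_ C)) := by
  refine ⟨2, by norm_num, ?_⟩
  rw [powMap_id, Category.id_comp]
  have h1 : act (𝟙_ C) 2 (Equiv.swap 0 1) = 𝟙 _ := by
    have h2 := act_swap (𝟙_ C) 0
    refine h2.trans ?_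
    unfold sw
    rw [caseA_braid, id_whiskerRight, Category.id_comp, Iso.inv_hom_id]
    rfl
  have h3 := act_E true (𝟙_ C) 2 (Equiv.swap 0 1)
  rw [h1, Category.id_comp, chi_swap true (0 : Fin 2) 1 (by decide)] at h3
  have h4 : (2 : K) • E true (𝟙_ C) 2 = 0 := by
    have h5 : E true (𝟙_ C) 2 = -E true (𝟙_ C) 2 := by
      refine h3.trans ?_
      change (-1 : ℤ) • _ = _
      rw [neg_smul, one_smul]
    rw [two_smul]
    nth_rewrite 2 [h5]
    exact add_neg_cancel _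
  exact (smul_eq_zero_iff_right (two_ne_zero : (2 : K) ≠ 0)).1 h4

omit [SymmetricCategory C] in
theorem mate_sub {C : Type u} [Category.{v} C] [MonoidalCategory C] [Preadditive C]
    [MonoidalPreadditive C] [RightRigidCategory C] {X Y : C} (f g : X ⟶ Y) :
    rightAdjointMate (f - g) = rightAdjointMate f - rightAdjointMate g := by
  have hw : ∀ (Z W : C), ((f - g) ▷ W) = f ▷ W - g ▷ W := by
    intro Z W
    rw [← MonoidalCategory.tensorHom_id, ← MonoidalCategory.tensorHom_id,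
      ← MonoidalCategory.tensorHom_id, dat_sub_tensor]
  have hl : ∀ (Z : C) {A B : C} (a b : A ⟶ B), Z ◁ (a - b) = Z ◁ a - Z ◁ b := by
    intro Z A B a b
    rw [← MonoidalCategory.id_tensorHom, ← MonoidalCategory.id_tensorHom,
      ← MonoidalCategory.id_tensorHom, dat_tensor_sub]
  unfold rightAdjointMate
  rw [hw Y, hl]
  simp only [Preadditive.comp_sub, Preadditive.sub_comp]

theorem Y_kim {M : C} {m : ℕ} (D : Cut K M (m + 1)) :
    ∃ e : D.S ⊗ D.Sᘁ ⟶ D.S ⊗ D.Sᘁ, e ≫ e = e ∧ Fd true e ∧ Fd false (𝟙 _ - e) := by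
  obtain ⟨o, ho⟩ : ∃ o : D.S ⟶ D.S, o = 𝟙 D.S - D.ev := ⟨_, rfl⟩
  obtain ⟨e', he'⟩ : ∃ e' : D.Sᘁ ⟶ D.Sᘁ, e' = rightAdjointMate D.ev := ⟨_, rfl⟩
  obtain ⟨o', ho'⟩ : ∃ o' : D.Sᘁ ⟶ D.Sᘁ, o' = 𝟙 D.Sᘁ - e' := ⟨_, rfl⟩
  have hoF : Fd false o := by
    rw [ho]
    exact D.fdf
  have heF' : Fd true e' := by
    rw [he']
    exact Fd_dual true D.ev D.fdt
  have hoF' : Fd false o' := by
    have h := Fd_dual false _ D.fdf
    rw [mate_sub, rightAdjointMate_id, ← he', ← ho'] at h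
    exact h
  have hee : e' ≫ e' = e' := by
    rw [he', ← comp_rightAdjointMate, D.idem]
  have a1 : D.ev ≫ o = 0 := by
    rw [ho, Preadditive.comp_sub, Category.comp_id, D.idem, sub_self]
  have a2 : o ≫ D.ev = 0 := by
    rw [ho, Preadditive.sub_comp, Category.id_comp, D.idem, sub_self]
  have a3 : o ≫ o = o := by
    nth_rewrite 2 [ho]
    rw [Preadditive.comp_sub, Category.comp_id, a2, sub_zero]
  have b3 : o' ≫ o' = o' := by
    rw [ho']
    simp only [Preadditive.comp_sub, Preadditive.sub_comp, hee, Category.id_comp,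
      Category.comp_id]
    abel
  have h11 : Fd true (D.ev ⊗ₘ e') := Fd_tensor K true true D.ev e' D.fdt heF'
  have h22 : Fd true (o ⊗ₘ o') := Fd_tensor K false false _ _ hoF hoF'
  have h12 : Fd false (D.ev ⊗ₘ o') := Fd_tensor K true false _ _ D.fdt hoF'
  have h21 : Fd false (o ⊗ₘ e') := Fd_tensor K false true _ _ hoF heF'
  refine ⟨D.ev ⊗ₘ e' + o ⊗ₘ o', ?_, Fd_add K true _ _ h11 h22, ?_⟩
  · rw [Preadditive.add_comp, Preadditive.comp_add, Preadditive.comp_add,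
      tensorHom_comp_tensorHom, tensorHom_comp_tensorHom, tensorHom_comp_tensorHom,
      tensorHom_comp_tensorHom, D.idem, hee, a1, a2, a3, b3, MonoidalPreadditive.zero_tensor,
      MonoidalPreadditive.zero_tensor, add_zero, zero_add]
  · have h1 : 𝟙 (D.S ⊗ D.Sᘁ) - (D.ev ⊗ₘ e' + o ⊗ₘ o') = D.ev ⊗ₘ o' + o ⊗ₘ e' := by
      have h2 : 𝟙 D.S = D.ev + o := by
        rw [ho]
        abel
      have h3 : 𝟙 D.Sᘁ = e' + o' := by
        rw [ho']
        abel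
      rw [← id_tensorHom_id, h2, h3, MonoidalPreadditive.add_tensor,
        MonoidalPreadditive.tensor_add, MonoidalPreadditive.tensor_add]
      abel
    rw [h1]
    exact Fd_add K false _ _ h12 h21

theorem W_kim (hN : NegZero K C) {M : C} {m : ℕ} (D : Cut K M (m + 1)) (hZ : Zc D ≠ 0) :
    ∃ e : M ⊗ Mᘁ ⟶ M ⊗ Mᘁ, e ≫ e = e ∧ Fd true e ∧ Fd false (𝟙 _ - e) := by
  obtain ⟨e, he, h1, h2⟩ := Y_kim D
  obtain ⟨p, q, hp, hq, hpq, hqp, hpF, hqF, h0⟩ := split_both K hN (DD D) e he h1 h2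
  obtain ⟨r, hr⟩ : ∃ r : M ⊗ Mᘁ ⟶ M ⊗ Mᘁ, r = 𝟙 _ - p - q := ⟨_, rfl⟩
  have hrr : r ≫ r = r := by
    rw [hr]
    simp only [Preadditive.comp_sub, Preadditive.sub_comp, hp, hq, hpq, hqp, Category.id_comp,
      Category.comp_id]
    abel
  have hrD : r ≫ DD D = 0 := by
    rw [hr]
    exact h0
  have hpr : p ≫ r = 0 := by
    rw [hr]
    simp only [Preadditive.comp_sub, hp, hpq, Category.comp_id]
    abel
  have hrp : r ≫ p = 0 := by
    rw [hr]
    simp only [Preadditive.sub_comp, hp, hqp, Category.id_comp]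
    abel
  by_cases hc : r ≫ cap M = 0
  · have hr0 := zero_of_zero hN D hZ r hrD hc
    refine ⟨p, hp, hpF, ?_⟩
    have h3 : 𝟙 (M ⊗ Mᘁ) - p = q := by
      rw [hr0] at hr
      have h4 : 𝟙 (M ⊗ Mᘁ) - p - q = 0 := hr.symm
      exact sub_eq_zero.1 h4
    rw [h3]
    exact hqF
  · obtain ⟨k, hk⟩ : ∃ k : 𝟙_ C ⟶ M ⊗ Mᘁ, tr K ((r ≫ cap M) ≫ k) ≠ 0 := by
      by_contra h3
      push Not at h3
      exact hc (hN _ h3)
    obtain ⟨s, hs⟩ : ∃ s : K, k ≫ r ≫ cap M = s • 𝟙 (𝟙_ C) := ⟨_, (sc_spec K _).symm⟩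
    have hs0 : s ≠ 0 := by
      intro h3
      apply hk
      rw [tr_comp_comm, hs, h3, zero_smul, tr_zero]
    obtain ⟨c, hcdef⟩ : ∃ c : M ⊗ Mᘁ ⟶ 𝟙_ C, c = r ≫ cap M := ⟨_, rfl⟩
    obtain ⟨k', hk'⟩ : ∃ k' : 𝟙_ C ⟶ M ⊗ Mᘁ, k' = s⁻¹ • (k ≫ r) := ⟨_, rfl⟩
    have hkc : k' ≫ c = 𝟙 (𝟙_ C) := by
      rw [hk', hcdef, Linear.smul_comp, Category.assoc, ← Category.assoc r r, hrr, hs, smul_smul,
        inv_mul_cancel₀ hs0, one_smul]
    have hkcap : k' ≫ cap M = 𝟙 (𝟙_ C) := by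
      rw [hk', Linear.smul_comp, Category.assoc, hs, smul_smul, inv_mul_cancel₀ hs0, one_smul]
    have hkD : k' ≫ DD D = 0 := by
      rw [hk', Linear.smul_comp, Category.assoc, hrD, Limits.comp_zero, smul_zero]
    have hkr : k' ≫ r = k' := by
      rw [hk', Linear.smul_comp, Category.assoc, hrr]
    have hrc : r ≫ c = c := by
      rw [hcdef, ← Category.assoc, hrr]
    have h5 : r - c ≫ k' = 0 := by
      apply zero_of_zero hN D hZ
      · rw [Preadditive.sub_comp, hrD, Category.assoc, hkD, Limits.comp_zero, sub_zero]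
      · rw [Preadditive.sub_comp, Category.assoc, hkcap, Category.comp_id, hcdef, sub_self]
    have hrg : r = c ≫ k' := sub_eq_zero.1 h5
    have hrF : Fd true r := by
      have h6 := Fd_conj true c (𝟙 (𝟙_ C)) k' (unit_Fd (K := K))
      rw [Category.id_comp, ← hrg] at h6
      exact h6
    refine ⟨p + r, ?_, Fd_add K true _ _ hpF hrF, ?_⟩
    · simp only [Preadditive.add_comp, Preadditive.comp_add, hp, hrr, hpr, hrp]
      abel
    · have h3 : 𝟙 (M ⊗ Mᘁ) - (p + r) = q := by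
        rw [hr]
        abel
      rw [h3]
      exact hqF

/-- the theorem in a category without negligible morphisms -/
theorem N0 (hN : NegZero K C) {M : C} {m : ℕ} (D : Cut K M (m + 1)) :
    ∃ u : M ⟶ M, u ≫ u = u ∧ Fd true u ∧ Fd false (𝟙 M - u) := by
  by_cases hZ : Zc D = 0
  · obtain ⟨b, hb⟩ := caseB D hZ
    cases b
    · refine ⟨0, Limits.zero_comp, caseA_zero true M, ?_⟩
      rw [sub_zero]
      exact hb
    · refine ⟨𝟙 M, Category.id_comp _, hb, ?_⟩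
      rw [sub_self]
      exact caseA_zero false M
  · obtain ⟨e, he, h1, h2⟩ := W_kim hN D hZ
    refine Dat.main K (M := M) (N := Mᘁ) ⟨e, he, h1, h2, ?_⟩
    intro h0
    have hη : η_ M Mᘁ = 0 := by
      rw [← Category.comp_id (η_ M Mᘁ), h0, Limits.comp_zero]
    have hz : (λ_ M).hom ≫ (ρ_ M).inv = 0 := by
      rw [← ExactPairing.evaluation_coevaluation M Mᘁ, hη, MonoidalPreadditive.zero_whiskerRight,
        Limits.zero_comp]
    have hM : 𝟙 M = 0 := by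
      have h3 : 𝟙 M = (λ_ M).inv ≫ ((λ_ M).hom ≫ (ρ_ M).inv) ≫ (ρ_ M).hom := by simp
      rw [h3, hz, Limits.zero_comp, Limits.comp_zero]
    have hP : 𝟙 (pow M (m + 1)) = 0 := by
      change 𝟙 (M ⊗ pow M m) = 0
      rw [← id_whiskerRight, hM, MonoidalPreadditive.zero_whiskerRight]
    apply D.ne
    rw [← D.hip, ← Category.comp_id D.i, hP, Limits.comp_zero, Limits.zero_comp]

end Pool.Agent.W_868bb7_h64
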