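import Pool.Agent.W_868bb7_h64.Star
import Pool.Agent.W_MP_868bb7_ag.TraceK

set_option autoImplicit false

/-!
# StrandR: operators on `R ⊗ M^{⊗ m}` and the partial trace over the first strand

* `rr`: permutations; `f0 φ m`, `fj φ j`: `φ : R ⊗ M ⟶ R ⊗ M` on `R` and the strand `0`, `j`.
* `up G`: one additional strand in front on which nothing happens; `rsw` and `rsw_rsw` are in
  `W_MP_868bb7_ag.TraceA`.
* `rr_fj`: for `σ` with `σ 0 = 0` (`σ = shift τ`) `rr σ` commutes with `f0` (`act_shift`, naturality of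
  the associator, `whisker_exchange`); in general `σ * swap 0 j = swap 0 (σ j) * τ` with `τ 0 = 0`.
* `up_rr`: naturality (`up G` with `G = R ◁ g` is `R ◁ (M ◁ g)`; both sides are coherence plus the
  braiding of `M` past `g`), then `act_shift`.
* `up_f0`: `up (f0 φ m)` is `φ` on `R` and the strand `1`, i.e. `fj φ 1`: coherence and hexagon; compare
  `act_swap`, `sw` (`sw X Z` exchanges the first two factors).
* `up_fj`: `up_f0`, `up_rr`, `rr_fj`, `up` is multiplicative.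
* `lt`: `lt F = ptr M (rsw R P M ≫ α.hom ≫ F ≫ α.inv ≫ rsw R M P)`.
* `lt_up_mul`, `lt_mul_up`: `rsw_rsw`, `ptr_nat_left`, `ptr_nat_right`.
* `lt_one`: `ptr_whiskerLeft` or `ptr_tensorHom` with `u = 𝟙 M`.
* `lt_f0`: `ptr_rsw`.
* `lt_swap`: for `j = 0`, `rr (swap 0 1) = R ◁ sw M _`; `ptr_braid`, `ptr_whisker`, `ptr_rsw` (compare the
  proofs around `Cn` in `W_MP_868bb7_ag.Euler`, `Exch`); in general conjugate with
  `up (rr (swap 0 j)) = rr (swap 1 j.succ)` and use `lt_up_mul`, `lt_mul_up`.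
-/

namespace Pool.Agent.W_868bb7_h64

open CategoryTheory MonoidalCategory Pool.Agent.W_MP_868bb7_ag

universe v u w

section Sym

variable {C : Type u} [Category.{v} C] [MonoidalCategory C] [SymmetricCategory C]

/-- permutations of the strands -/
def rr (R M : C) (m : ℕ) : Equiv.Perm (Fin m) →* End (R ⊗ pow M m) where
  toFun σ := R ◁ act M m σ
  map_one' := by
    rw [act_one]
    exact MonoidalCategory.whiskerLeft_id _ _
  map_mul' σ τ := by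
    rw [act_mul]
    exact MonoidalCategory.whiskerLeft_comp _ _ _

variable {R M : C}

/-- `φ` on `R` and the first strand -/
def f0 (φ : R ⊗ M ⟶ R ⊗ M) (m : ℕ) : End (R ⊗ pow M (m + 1)) :=
  (α_ R M (pow M m)).inv ≫ φ ▷ pow M m ≫ (α_ R M (pow M m)).hom

/-- `φ` on `R` and the strand `j` -/
def fj (φ : R ⊗ M ⟶ R ⊗ M) {m : ℕ} (j : Fin (m + 1)) : End (R ⊗ pow M (m + 1)) :=
  rr R M (m + 1) (Equiv.swap 0 j) * f0 φ m * rr R M (m + 1) (Equiv.swap 0 j)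

theorem fj_zero (φ : R ⊗ M ⟶ R ⊗ M) (m : ℕ) : fj φ (0 : Fin (m + 1)) = f0 φ m := by
  unfold fj
  rw [Equiv.swap_self]
  have h : rr R M (m + 1) (Equiv.refl _) = 1 := map_one (rr R M (m + 1))
  rw [h, one_mul, mul_one]

theorem StrandR_shift {m : ℕ} (τ : Equiv.Perm (Fin (m + 1))) (h : τ 0 = 0) :
    τ = shift (tail τ) := by
  apply perm_ext
  · rw [shift_zero, h]
  · symm
    apply pa_tail_eq
    intro i
    rw [shift_succ, shift_zero, Fin.succAbove_zero]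

theorem StrandR_comm (φ : R ⊗ M ⟶ R ⊗ M) {m : ℕ} (e : Equiv.Perm (Fin m)) :
    rr R M (m + 1) (shift e) * f0 φ m = f0 φ m * rr R M (m + 1) (shift e) := by
  change f0 φ m ≫ (R ◁ act M (m + 1) (shift e)) = (R ◁ act M (m + 1) (shift e)) ≫ f0 φ m
  rw [act_shift]
  change ((α_ R M (pow M m)).inv ≫ φ ▷ pow M m ≫ (α_ R M (pow M m)).hom) ≫
    (R ◁ (M ◁ act M m e)) = (R ◁ (M ◁ act M m e)) ≫
      ((α_ R M (pow M m)).inv ≫ φ ▷ pow M m ≫ (α_ R M (pow M m)).hom)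
  rw [Category.assoc, Category.assoc, ← associator_naturality_right, ← whisker_exchange_assoc,
    associator_inv_naturality_right_assoc]

theorem rr_fj (φ : R ⊗ M ⟶ R ⊗ M) {m : ℕ} (σ : Equiv.Perm (Fin (m + 1))) (j : Fin (m + 1)) :
    rr R M (m + 1) σ * fj φ j = fj φ (σ j) * rr R M (m + 1) σ := by
  obtain ⟨τ, hτ⟩ : ∃ τ, τ = Equiv.swap 0 (σ j) * σ * Equiv.swap 0 j := ⟨_, rfl⟩
  have h0 : τ 0 = 0 := by
    rw [hτ, Equiv.Perm.mul_apply, Equiv.Perm.mul_apply, Equiv.swap_apply_left,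
      Equiv.swap_apply_right]
  have h1 : σ * Equiv.swap 0 j = Equiv.swap 0 (σ j) * τ := by
    rw [hτ, ← mul_assoc, ← mul_assoc, Equiv.swap_mul_self, one_mul]
  have h2 : τ * Equiv.swap 0 j = Equiv.swap 0 (σ j) * σ := by
    rw [hτ, mul_assoc, Equiv.swap_mul_self, mul_one]
  have h3 : rr R M (m + 1) τ * f0 φ m = f0 φ m * rr R M (m + 1) τ := by
    rw [StrandR_shift τ h0]
    exact StrandR_comm φ (tail τ)
  unfold fj
  calc rr R M (m + 1) σ * (rr R M (m + 1) (Equiv.swap 0 j) * f0 φ m *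
        rr R M (m + 1) (Equiv.swap 0 j))
      = rr R M (m + 1) (σ * Equiv.swap 0 j) * f0 φ m * rr R M (m + 1) (Equiv.swap 0 j) := by
        rw [map_mul]
        simp only [mul_assoc]
    _ = rr R M (m + 1) (Equiv.swap 0 (σ j)) * (rr R M (m + 1) τ * f0 φ m) *
        rr R M (m + 1) (Equiv.swap 0 j) := by
        rw [h1, map_mul]
        simp only [mul_assoc]
    _ = rr R M (m + 1) (Equiv.swap 0 (σ j)) * f0 φ m *
        rr R M (m + 1) (τ * Equiv.swap 0 j) := by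
        rw [h3, map_mul]
        simp only [mul_assoc]
    _ = _ := by
        rw [h2, map_mul]
        simp only [mul_assoc]

end Sym

section Lin

variable {C : Type u} [Category.{v} C] [MonoidalCategory C] [SymmetricCategory C]
  [Preadditive C] [MonoidalPreadditive C] {R M : C}

/-- one additional strand in front -/
def up (R M : C) (m : ℕ) : End (R ⊗ pow M m) →+* End (R ⊗ pow M (m + 1)) where
  toFun G := (α_ R M (pow M m)).inv ≫ rsw R M (pow M m) ≫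
    (show R ⊗ pow M m ⟶ R ⊗ pow M m from G) ▷ M ≫ rsw R (pow M m) M ≫ (α_ R M (pow M m)).hom
  map_one' := by
    change (α_ R M (pow M m)).inv ≫ rsw R M (pow M m) ≫ (𝟙 (R ⊗ pow M m)) ▷ M ≫
      rsw R (pow M m) M ≫ (α_ R M (pow M m)).hom = 𝟙 (R ⊗ (M ⊗ pow M m))
    rw [id_whiskerRight, Category.id_comp, ← Category.assoc (rsw R M (pow M m)), rsw_rsw,
      Category.id_comp, Iso.inv_hom_id]
  map_mul' F G := by
    change (α_ R M (pow M m)).inv ≫ rsw R M (pow M m) ≫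
      ((show R ⊗ pow M m ⟶ R ⊗ pow M m from G) ≫ (show R ⊗ pow M m ⟶ R ⊗ pow M m from F)) ▷ M ≫
      rsw R (pow M m) M ≫ (α_ R M (pow M m)).hom =
      ((α_ R M (pow M m)).inv ≫ rsw R M (pow M m) ≫
        (show R ⊗ pow M m ⟶ R ⊗ pow M m from G) ▷ M ≫ rsw R (pow M m) M ≫
          (α_ R M (pow M m)).hom) ≫
      ((α_ R M (pow M m)).inv ≫ rsw R M (pow M m) ≫
        (show R ⊗ pow M m ⟶ R ⊗ pow M m from F) ▷ M ≫ rsw R (pow M m) M ≫
          (α_ R M (pow M m)).hom)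
    have h := rsw_rsw R (pow M m) M
    simp only [Category.assoc, Iso.hom_inv_id_assoc, comp_whiskerRight]
    rw [reassoc_of% h]
  map_zero' := by
    change (α_ R M (pow M m)).inv ≫ rsw R M (pow M m) ≫
      (0 : R ⊗ pow M m ⟶ R ⊗ pow M m) ▷ M ≫ rsw R (pow M m) M ≫ (α_ R M (pow M m)).hom = 0
    rw [MonoidalPreadditive.zero_whiskerRight, Limits.zero_comp, Limits.comp_zero,
      Limits.comp_zero]
  map_add' F G := by
    change (α_ R M (pow M m)).inv ≫ rsw R M (pow M m) ≫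
      ((show R ⊗ pow M m ⟶ R ⊗ pow M m from F) + (show R ⊗ pow M m ⟶ R ⊗ pow M m from G)) ▷ M ≫
      rsw R (pow M m) M ≫ (α_ R M (pow M m)).hom = _
    rw [MonoidalPreadditive.add_whiskerRight, Preadditive.add_comp, Preadditive.comp_add,
      Preadditive.comp_add]
    rfl

theorem up_whisker (m : ℕ) (g : End (pow M m)) :
    up R M m (R ◁ (show pow M m ⟶ pow M m from g) : R ⊗ pow M m ⟶ R ⊗ pow M m) =
      (R ◁ (show pow M (m + 1) ⟶ pow M (m + 1) from wl M m g) :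
        R ⊗ pow M (m + 1) ⟶ R ⊗ pow M (m + 1)) := by
  change (α_ R M (pow M m)).inv ≫ ((α_ R M (pow M m)).hom ≫ R ◁ (β_ M (pow M m)).hom ≫
    (α_ R (pow M m) M).inv) ≫ (R ◁ (show pow M m ⟶ pow M m from g)) ▷ M ≫
    ((α_ R (pow M m) M).hom ≫ R ◁ (β_ (pow M m) M).hom ≫ (α_ R M (pow M m)).inv) ≫
    (α_ R M (pow M m)).hom = R ◁ (M ◁ (show pow M m ⟶ pow M m from g))
  simp only [Category.assoc, Iso.inv_hom_id_assoc, Iso.inv_hom_id, Category.comp_id]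
  rw [associator_naturality_middle_assoc, Iso.inv_hom_id_assoc,
    ← MonoidalCategory.whiskerLeft_comp, ← MonoidalCategory.whiskerLeft_comp,
    ← BraidedCategory.braiding_naturality_right_assoc, SymmetricCategory.symmetry,
    Category.comp_id]

theorem up_rr (m : ℕ) (σ : Equiv.Perm (Fin m)) :
    up R M m (rr R M m σ) = rr R M (m + 1) (shift σ) := by
  refine (up_whisker (R := R) m (act M m σ)).trans ?_
  change R ◁ (M ◁ act M m σ) = R ◁ act M (m + 1) (shift σ)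
  rw [act_shift]
  rfl

omit [Preadditive C] [MonoidalPreadditive C] in
theorem StrandR_braid (M Q : C) :
    (β_ M (M ⊗ Q)).hom = sw M Q ≫ M ◁ (β_ M Q).hom ≫ (α_ M Q M).inv := by
  rw [BraidedCategory.braiding_tensor_right_hom]
  unfold sw
  simp only [Category.assoc]

omit [Preadditive C] [MonoidalPreadditive C] in
theorem StrandR_braid' (M Q : C) :
    (β_ (M ⊗ Q) M).hom = (α_ M Q M).hom ≫ M ◁ (β_ Q M).hom ≫ sw M Q := by
  rw [BraidedCategory.braiding_tensor_left_hom]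
  rfl

omit [Preadditive C] [MonoidalPreadditive C] in
theorem StrandR_mid (φ : R ⊗ M ⟶ R ⊗ M) (Q : C) :
    R ◁ (M ◁ (β_ M Q).hom ≫ (α_ M Q M).inv) ≫ (α_ R (M ⊗ Q) M).inv ≫
      ((α_ R M Q).inv ≫ φ ▷ Q ≫ (α_ R M Q).hom) ▷ M ≫ (α_ R (M ⊗ Q) M).hom ≫
      R ◁ ((α_ M Q M).hom ≫ M ◁ (β_ Q M).hom) =
    (α_ R M (M ⊗ Q)).inv ≫ φ ▷ (M ⊗ Q) ≫ (α_ R M (M ⊗ Q)).hom := by
  have h1 : R ◁ (M ◁ (β_ M Q).hom ≫ (α_ M Q M).inv) ≫ (α_ R (M ⊗ Q) M).inv ≫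
      ((α_ R M Q).inv ≫ φ ▷ Q ≫ (α_ R M Q).hom) ▷ M ≫ (α_ R (M ⊗ Q) M).hom ≫
      R ◁ ((α_ M Q M).hom ≫ M ◁ (β_ Q M).hom) =
      (α_ R M (M ⊗ Q)).inv ≫ (R ⊗ M) ◁ (β_ M Q).hom ≫ φ ▷ (Q ⊗ M) ≫
        (R ⊗ M) ◁ (β_ Q M).hom ≫ (α_ R M (M ⊗ Q)).hom := by
    monoidal
  rw [h1, whisker_exchange_assoc, ← MonoidalCategory.whiskerLeft_comp_assoc,
    SymmetricCategory.symmetry, MonoidalCategory.whiskerLeft_id, Category.id_comp]

theorem up_f0 (φ : R ⊗ M ⟶ R ⊗ M) (m : ℕ) :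
    up R M (m + 1) (f0 φ m) = fj φ (1 : Fin (m + 1 + 1)) := by
  have h1 : rr R M (m + 1 + 1) (Equiv.swap 0 1) =
      (R ◁ sw M (pow M m) : R ⊗ (M ⊗ (M ⊗ pow M m)) ⟶ R ⊗ (M ⊗ (M ⊗ pow M m))) := by
    change R ◁ act M (m + 1 + 1) (Equiv.swap 0 1) = _
    rw [act_swap]
    rfl
  unfold fj
  rw [h1]
  change (α_ R M (M ⊗ pow M m)).inv ≫ ((α_ R M (M ⊗ pow M m)).hom ≫
    R ◁ (β_ M (M ⊗ pow M m)).hom ≫ (α_ R (M ⊗ pow M m) M).inv) ≫
    ((α_ R M (pow M m)).inv ≫ φ ▷ pow M m ≫ (α_ R M (pow M m)).hom) ▷ M ≫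
    ((α_ R (M ⊗ pow M m) M).hom ≫ R ◁ (β_ (M ⊗ pow M m) M).hom ≫
      (α_ R M (M ⊗ pow M m)).inv) ≫ (α_ R M (M ⊗ pow M m)).hom =
    R ◁ sw M (pow M m) ≫ ((α_ R M (M ⊗ pow M m)).inv ≫ φ ▷ (M ⊗ pow M m) ≫
      (α_ R M (M ⊗ pow M m)).hom) ≫ R ◁ sw M (pow M m)
  rw [← StrandR_mid φ (pow M m), StrandR_braid, StrandR_braid']
  simp only [Category.assoc, Iso.inv_hom_id_assoc, Iso.inv_hom_id, Category.comp_id,
    MonoidalCategory.whiskerLeft_comp]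

theorem up_fj (φ : R ⊗ M ⟶ R ⊗ M) (m : ℕ) (j : Fin (m + 1)) :
    up R M (m + 1) (fj φ j) = fj φ j.succ := by
  obtain ⟨s, hs⟩ : ∃ s, s = shift (Equiv.swap 0 j) := ⟨_, rfl⟩
  have h1 : s 1 = j.succ := by
    rw [hs, ← Fin.succ_zero_eq_one, shift_succ, Equiv.swap_apply_left]
  have h2 : s * s = 1 := by
    rw [hs]
    apply Equiv.ext
    intro x
    refine Fin.cases ?_ (fun i => ?_) x
    · rw [Equiv.Perm.mul_apply, shift_zero, shift_zero]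
      rfl
    · rw [Equiv.Perm.mul_apply, shift_succ, shift_succ, Equiv.swap_apply_self]
      rfl
  have h3 : up R M (m + 1) (fj φ j) =
      rr R M (m + 1 + 1) s * fj φ 1 * rr R M (m + 1 + 1) s := by
    unfold fj
    rw [map_mul, map_mul, up_rr, up_f0, ← hs]
    rfl
  rw [h3, rr_fj, h1, mul_assoc, ← map_mul, h2, map_one, mul_one]

variable [RightRigidCategory C]

theorem StrandR_aux0 (R M P : C) :
    ptr M (rsw R P M ≫ (α_ R M P).hom ≫ (0 : R ⊗ (M ⊗ P) ⟶ R ⊗ (M ⊗ P)) ≫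
      (α_ R M P).inv ≫ rsw R M P) = 0 := by
  rw [Limits.zero_comp, Limits.comp_zero, Limits.comp_zero, ptr_zero]

theorem StrandR_aux1 (R M P : C) (F G : R ⊗ (M ⊗ P) ⟶ R ⊗ (M ⊗ P)) :
    ptr M (rsw R P M ≫ (α_ R M P).hom ≫ (F + G) ≫ (α_ R M P).inv ≫ rsw R M P) =
    ptr M (rsw R P M ≫ (α_ R M P).hom ≫ F ≫ (α_ R M P).inv ≫ rsw R M P) +
    ptr M (rsw R P M ≫ (α_ R M P).hom ≫ G ≫ (α_ R M P).inv ≫ rsw R M P) := by
  rw [Preadditive.add_comp, Preadditive.comp_add, Preadditive.comp_add, ptr_add]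

omit [Preadditive C] [MonoidalPreadditive C] in
theorem StrandR_aux2 (R M P : C) (F : R ⊗ (M ⊗ P) ⟶ R ⊗ (M ⊗ P)) (G : R ⊗ P ⟶ R ⊗ P) :
    ptr M (rsw R P M ≫ (α_ R M P).hom ≫ (F ≫ (α_ R M P).inv ≫ rsw R M P ≫ G ▷ M ≫
      rsw R P M ≫ (α_ R M P).hom) ≫ (α_ R M P).inv ≫ rsw R M P) =
    ptr M (rsw R P M ≫ (α_ R M P).hom ≫ F ≫ (α_ R M P).inv ≫ rsw R M P) ≫ G := by
  have h := rsw_rsw R P M
  rw [← ptr_nat_right]
  congr 1
  simp only [Category.assoc, Iso.hom_inv_id_assoc]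
  rw [h, Category.comp_id]

omit [Preadditive C] [MonoidalPreadditive C] in
theorem StrandR_aux3 (R M P : C) (F : R ⊗ (M ⊗ P) ⟶ R ⊗ (M ⊗ P)) (G : R ⊗ P ⟶ R ⊗ P) :
    ptr M (rsw R P M ≫ (α_ R M P).hom ≫ (((α_ R M P).inv ≫ rsw R M P ≫ G ▷ M ≫
      rsw R P M ≫ (α_ R M P).hom) ≫ F) ≫ (α_ R M P).inv ≫ rsw R M P) =
    G ≫ ptr M (rsw R P M ≫ (α_ R M P).hom ≫ F ≫ (α_ R M P).inv ≫ rsw R M P) := by
  have h := rsw_rsw R P M
  rw [← ptr_nat_left]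
  congr 1
  simp only [Category.assoc, Iso.hom_inv_id_assoc]
  rw [reassoc_of% h]

/-- partial trace over the first strand -/
def lt (R M : C) (m : ℕ) : End (R ⊗ pow M (m + 1)) →+ End (R ⊗ pow M m) where
  toFun F := ptr M (rsw R (pow M m) M ≫ (α_ R M (pow M m)).hom ≫
    (show R ⊗ pow M (m + 1) ⟶ R ⊗ pow M (m + 1) from F) ≫ (α_ R M (pow M m)).inv ≫
      rsw R M (pow M m))
  map_zero' := StrandR_aux0 R M (pow M m)
  map_add' F G := StrandR_aux1 R M (pow M m) F G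

theorem lt_up_mul (m : ℕ) (G : End (R ⊗ pow M m)) (F : End (R ⊗ pow M (m + 1))) :
    lt R M m (up R M m G * F) = G * lt R M m F :=
  StrandR_aux2 R M (pow M m) F G

theorem lt_mul_up (m : ℕ) (G : End (R ⊗ pow M m)) (F : End (R ⊗ pow M (m + 1))) :
    lt R M m (F * up R M m G) = lt R M m F * G :=
  StrandR_aux3 R M (pow M m) F G

theorem lt_f0 (φ : R ⊗ M ⟶ R ⊗ M) (m : ℕ) (h : ptr M φ = 0) : lt R M m (f0 φ m) = 0 := by
  change ptr M (rsw R (pow M m) M ≫ (α_ R M (pow M m)).hom ≫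
    ((α_ R M (pow M m)).inv ≫ φ ▷ pow M m ≫ (α_ R M (pow M m)).hom) ≫
      (α_ R M (pow M m)).inv ≫ rsw R M (pow M m)) = (0 : R ⊗ pow M m ⟶ R ⊗ pow M m)
  have h1 : rsw R (pow M m) M ≫ (α_ R M (pow M m)).hom ≫
    ((α_ R M (pow M m)).inv ≫ φ ▷ pow M m ≫ (α_ R M (pow M m)).hom) ≫
      (α_ R M (pow M m)).inv ≫ rsw R M (pow M m) =
      rsw R (pow M m) M ≫ φ ▷ pow M m ≫ rsw R M (pow M m) := by
    simp only [Category.assoc, Iso.hom_inv_id_assoc]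
  rw [h1, ptr_rsw, h, MonoidalPreadditive.zero_whiskerRight]

omit [Preadditive C] [MonoidalPreadditive C] in
theorem StrandR_ptr_sw (M Q : C) :
    ptr M ((β_ (M ⊗ Q) M).hom ≫ sw M Q ≫ (β_ M (M ⊗ Q)).hom) = 𝟙 (M ⊗ Q) := by
  have h1 : (β_ (M ⊗ Q) M).hom ≫ sw M Q ≫ (β_ M (M ⊗ Q)).hom =
      rsw M Q M ≫ (β_ M M).hom ▷ Q ≫ rsw M M Q := by
    have h2 := sw_sw M Q
    rw [StrandR_braid, StrandR_braid', Category.assoc, Category.assoc, reassoc_of% h2]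
    unfold rsw sw
    simp only [Category.assoc]
  rw [h1, ptr_rsw, ptr_braid, id_whiskerRight]

theorem StrandR_lt_sw (m : ℕ) :
    lt R M (m + 1) (rr R M (m + 1 + 1) (Equiv.swap 0 1)) = 1 := by
  have h1 : rr R M (m + 1 + 1) (Equiv.swap 0 1) =
      (R ◁ sw M (pow M m) : R ⊗ (M ⊗ (M ⊗ pow M m)) ⟶ R ⊗ (M ⊗ (M ⊗ pow M m))) := by
    change R ◁ act M (m + 1 + 1) (Equiv.swap 0 1) = _
    rw [act_swap]
    rfl
  rw [h1]
  change ptr M (((α_ R (M ⊗ pow M m) M).hom ≫ R ◁ (β_ (M ⊗ pow M m) M).hom ≫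
      (α_ R M (M ⊗ pow M m)).inv) ≫ (α_ R M (M ⊗ pow M m)).hom ≫
    R ◁ sw M (pow M m) ≫ (α_ R M (M ⊗ pow M m)).inv ≫
    ((α_ R M (M ⊗ pow M m)).hom ≫ R ◁ (β_ M (M ⊗ pow M m)).hom ≫
      (α_ R (M ⊗ pow M m) M).inv)) = 𝟙 (R ⊗ (M ⊗ pow M m))
  have h2 : ((α_ R (M ⊗ pow M m) M).hom ≫ R ◁ (β_ (M ⊗ pow M m) M).hom ≫
      (α_ R M (M ⊗ pow M m)).inv) ≫ (α_ R M (M ⊗ pow M m)).hom ≫
    R ◁ sw M (pow M m) ≫ (α_ R M (M ⊗ pow M m)).inv ≫
    ((α_ R M (M ⊗ pow M m)).hom ≫ R ◁ (β_ M (M ⊗ pow M m)).hom ≫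
      (α_ R (M ⊗ pow M m) M).inv) = (α_ R (M ⊗ pow M m) M).hom ≫
      R ◁ ((β_ (M ⊗ pow M m) M).hom ≫ sw M (pow M m) ≫ (β_ M (M ⊗ pow M m)).hom) ≫
      (α_ R (M ⊗ pow M m) M).inv := by
    simp only [Category.assoc, Iso.inv_hom_id_assoc, MonoidalCategory.whiskerLeft_comp]
  rw [h2, ptr_whisker, StrandR_ptr_sw, MonoidalCategory.whiskerLeft_id]

theorem lt_swap (m : ℕ) (j : Fin m) :
    lt R M m (rr R M (m + 1) (Equiv.swap 0 j.succ)) = 1 := by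
  obtain ⟨m, rfl⟩ : ∃ m', m = m' + 1 := ⟨m - 1, by have := j.isLt; omega⟩
  obtain ⟨s, hs⟩ : ∃ s, s = shift (Equiv.swap 0 j) := ⟨_, rfl⟩
  have h0 : s 0 = 0 := by rw [hs, shift_zero]
  have h1 : s 1 = j.succ := by
    rw [hs, ← Fin.succ_zero_eq_one, shift_succ, Equiv.swap_apply_left]
  have h2 : s * s = 1 := by
    rw [hs]
    apply Equiv.ext
    intro x
    refine Fin.cases ?_ (fun i => ?_) x
    · rw [Equiv.Perm.mul_apply, shift_zero, shift_zero]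
      rfl
    · rw [Equiv.Perm.mul_apply, shift_succ, shift_succ, Equiv.swap_apply_self]
      rfl
  have h3 : Equiv.swap 0 j.succ = s * Equiv.swap 0 1 * s := by
    have h4 := Equiv.swap_apply_apply s 0 1
    rw [h0, h1] at h4
    rw [h4]
    congr 1
    exact inv_eq_of_mul_eq_one_left h2
  have h4 : rr R M (m + 1 + 1) s = up R M (m + 1) (rr R M (m + 1) (Equiv.swap 0 j)) := by
    rw [up_rr, hs]
  have h5 : rr R M (m + 1 + 1) (s * Equiv.swap 0 1 * s) =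
      up R M (m + 1) (rr R M (m + 1) (Equiv.swap 0 j)) * rr R M (m + 1 + 1) (Equiv.swap 0 1) *
        up R M (m + 1) (rr R M (m + 1) (Equiv.swap 0 j)) := by
    rw [← h4, ← map_mul, ← map_mul]
  rw [h3, h5, lt_mul_up, lt_up_mul, StrandR_lt_sw, mul_one, ← map_mul,
    Equiv.swap_mul_self, map_one]

theorem lt_one {K : Type w} [Field K] [Linear K C] [MonoidalLinear K C] [UnitK K C] (m : ℕ) :
    lt R M m 1 = tr K (𝟙 M) • (1 : End (R ⊗ pow M m)) := by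
  change ptr M (rsw R (pow M m) M ≫ (α_ R M (pow M m)).hom ≫ 𝟙 (R ⊗ (M ⊗ pow M m)) ≫
    (α_ R M (pow M m)).inv ≫ rsw R M (pow M m)) = tr K (𝟙 M) • 𝟙 (R ⊗ pow M m)
  have h1 : rsw R (pow M m) M ≫ (α_ R M (pow M m)).hom ≫ 𝟙 (R ⊗ (M ⊗ pow M m)) ≫
    (α_ R M (pow M m)).inv ≫ rsw R M (pow M m) = (R ⊗ pow M m) ◁ 𝟙 M := by
    rw [Category.id_comp, Iso.hom_inv_id_assoc, rsw_rsw, MonoidalCategory.whiskerLeft_id]
  rw [h1, ptr_whiskerLeft K]

end Lin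

end Pool.Agent.W_868bb7_h64
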