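import Pool.Agent.W_868bb7_h64.RingE
import Pool.Agent.W_868bb7_h64.StrandR

set_option autoImplicit false

/-!
# Casim: internal endomorphisms of `M` which act by zero on `S`

`Zc D = (d X_0 - n) e` on `M ⊗ M^{⊗ n}`, `d = tr 𝟙_M`, `n = m + 1`.

* `casim2`: in `End (R ⊗ pow M (n+2))` take `q = 0`, `p = 1`, `B = {2, ..., n+1}` (the image of
  `Fin n` under `Fin.succ ∘ Fin.succ`), `e = up (up (R ◁ D.e))`, `φ j = fj φ j`.  The hypothesis of
  `e2` holds: `(∑ j ∈ B, fj φ j) * e = up (up ((∑ j, fj φ j) * (R ◁ D.e))) = 0` (`up_fj`, `up` is a ring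
  homomorphism), the commutations hold because `e` is a combination of `rr (shift (shift σ))`
  (`D.e_eq`, `up_rr`), which permutes the summands, resp. fixes `0` and `1`.  Apply `lt` to `e2`:
  - `(fj φ 1) * rr (swap 1 i) * e = up (f0 φ * rr (swap 0 i') * e')`, `lt (up G) = d • G`
    (`lt_mul_up`, `lt_one`; `i = i'.succ`);
  - `(fj φ 0) * rr (swap 1 i) * e = f0 φ * up (...)`, `lt = 0` (`lt_f0`);
  - `(fj φ 1) * rr (swap 0 i) * e = up (f0 φ) * rr (swap 0 i) * up e'`, `lt = f0 φ * e'` (`lt_swap`);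
  - `(fj φ i) * rr (swap 0 i) * e` has `lt = fj φ i' * e'`, with sum `0` by the hypothesis (`up`).
* `casim3`: put `R' = R ⊗ M`, `k : R' ⊗ M ⟶ R' ⊗ M`,
  `k = (d • (α_ R M M).hom ≫ R ◁ (β_ M M).hom ≫ (α_ R M M).inv - 𝟙) ≫ φ ▷ M`.  Let `a m` be
  conjugation by `α_ R M (pow M m) : (R ⊗ M) ⊗ pow M m ≅ R ⊗ pow M (m+1)`, a ring isomorphism
  `End ((R ⊗ M) ⊗ pow M m) ≃ End (R ⊗ pow M (m+1))`.  Then `a (rr σ) = rr (shift σ)`,
  `a (f0 k) = f0 φ * (d • rr (swap 0 1) - 1)`, hence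
  `a (fj k j) = f0 φ * (d • rr (swap 0 j.succ) - 1)` (`rr_fj`: `rr (shift σ)` commutes with `f0 φ`).  So
  `∑ j, fj k j * ((R ⊗ M) ◁ e)` corresponds to `casim2 φ`, it is `0`, and `ptr M k = d φ - d φ = 0`
  (`ptr_braid`, `ptr_whisker`, `ptr_nat_right`, `ptr_tensorHom`).  Now `casim2` for `k`, transported by
  `a`, says: on `R ⊗ pow M (n+2)` (strands `0`, `1`, block),
  `f0 φ * (d • rr (swap 0 1) - 1) * (d • X_1 - n) * e = 0`, `X_1 = ∑_{i in block} rr (swap 1 i)`.  And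
  `f0 φ * rr (swap 0 1) * (d • X_1 - n) * e = f0 φ * (d • X_0 - n) * e * rr (swap 0 1) = 0`, because
  `fj φ 1 * (d • X_1 - n) * e = up (casim2 φ) = 0`, conjugated by `rr (swap 0 1)`.  Hence
  `f0 φ * (d • X_1 - n) * e = 0`, which is `φ ⊗ₘ Zc D = 0` up to `α_ R M _` (`up_whisker`).
-/

namespace Pool.Agent.W_868bb7_h64

open CategoryTheory MonoidalCategory Pool.Agent.W_MP_868bb7_ag

universe v u w

variable {K : Type w} [Field K] [CharZero K] {C : Type u} [Category.{v} C] [MonoidalCategory C]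
  [Preadditive C] [Linear K C] [MonoidalPreadditive C] [MonoidalLinear K C]
  [SymmetricCategory C] [RightRigidCategory C] [UnitK K C]

/-! ### Auxiliary ring homomorphisms -/

section CasimAux

variable {C : Type u} [Category.{v} C] [MonoidalCategory C] [Preadditive C]
  [MonoidalPreadditive C]

/-- whiskering by `R` as a ring homomorphism -/
def Casim_W (R M : C) (m : ℕ) : End (pow M m) →+* End (R ⊗ pow M m) where
  toFun g := (R ◁ (show pow M m ⟶ pow M m from g) : R ⊗ pow M m ⟶ R ⊗ pow M m)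
  map_one' := MonoidalCategory.whiskerLeft_id _ _
  map_mul' f g := MonoidalCategory.whiskerLeft_comp _ _ _
  map_zero' := MonoidalPreadditive.whiskerLeft_zero
  map_add' f g := MonoidalPreadditive.whiskerLeft_add _ _

/-- conjugation with the associator -/
def Casim_a (R M : C) (m : ℕ) : End ((R ⊗ M) ⊗ pow M m) →+* End (R ⊗ pow M (m + 1)) where
  toFun F := (α_ R M (pow M m)).inv ≫ (show (R ⊗ M) ⊗ pow M m ⟶ (R ⊗ M) ⊗ pow M m from F) ≫
    (α_ R M (pow M m)).hom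
  map_one' := by
    change (α_ R M (pow M m)).inv ≫ 𝟙 _ ≫ (α_ R M (pow M m)).hom = 𝟙 _
    rw [Category.id_comp, Iso.inv_hom_id]
  map_mul' F G := by
    change (α_ R M (pow M m)).inv ≫ ((show (R ⊗ M) ⊗ pow M m ⟶ (R ⊗ M) ⊗ pow M m from G) ≫
      (show (R ⊗ M) ⊗ pow M m ⟶ (R ⊗ M) ⊗ pow M m from F)) ≫ (α_ R M (pow M m)).hom =
      ((α_ R M (pow M m)).inv ≫ (show (R ⊗ M) ⊗ pow M m ⟶ (R ⊗ M) ⊗ pow M m from G) ≫
        (α_ R M (pow M m)).hom) ≫ ((α_ R M (pow M m)).inv ≫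
        (show (R ⊗ M) ⊗ pow M m ⟶ (R ⊗ M) ⊗ pow M m from F) ≫ (α_ R M (pow M m)).hom)
    simp only [Category.assoc, Iso.hom_inv_id_assoc]
  map_zero' := by
    change (α_ R M (pow M m)).inv ≫ (0 : (R ⊗ M) ⊗ pow M m ⟶ (R ⊗ M) ⊗ pow M m) ≫
      (α_ R M (pow M m)).hom = 0
    rw [Limits.zero_comp, Limits.comp_zero]
  map_add' F G := by
    change (α_ R M (pow M m)).inv ≫ ((show (R ⊗ M) ⊗ pow M m ⟶ (R ⊗ M) ⊗ pow M m from F) +
      (show (R ⊗ M) ⊗ pow M m ⟶ (R ⊗ M) ⊗ pow M m from G)) ≫ (α_ R M (pow M m)).hom = _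
    rw [Preadditive.add_comp, Preadditive.comp_add]
    rfl

theorem Casim_a_inj {R M : C} {m : ℕ} {F : End ((R ⊗ M) ⊗ pow M m)}
    (h : Casim_a R M m F = 0) : F = 0 := by
  have h1 : (α_ R M (pow M m)).inv ≫ (show (R ⊗ M) ⊗ pow M m ⟶ (R ⊗ M) ⊗ pow M m from F) ≫
    (α_ R M (pow M m)).hom = 0 := h
  have h2 : (α_ R M (pow M m)).hom ≫ ((α_ R M (pow M m)).inv ≫
      (show (R ⊗ M) ⊗ pow M m ⟶ (R ⊗ M) ⊗ pow M m from F) ≫
    (α_ R M (pow M m)).hom) ≫ (α_ R M (pow M m)).inv = 0 := by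
    rw [h1, Limits.zero_comp, Limits.comp_zero]
  simp only [Category.assoc, Iso.hom_inv_id_assoc, Iso.hom_inv_id, Category.comp_id] at h2
  exact h2

theorem Casim_a_W (R M : C) (m : ℕ) (g : End (pow M m)) :
    Casim_a R M m (Casim_W (R ⊗ M) M m g) = Casim_W R M (m + 1) (wl M m g) := by
  change (α_ R M (pow M m)).inv ≫ ((R ⊗ M) ◁ (show pow M m ⟶ pow M m from g)) ≫
    (α_ R M (pow M m)).hom = R ◁ (M ◁ (show pow M m ⟶ pow M m from g))
  rw [MonoidalCategory.tensor_whiskerLeft]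
  simp only [Category.assoc, Iso.inv_hom_id_assoc, Iso.inv_hom_id, Category.comp_id]

variable [SymmetricCategory C]

theorem Casim_rr (R M : C) (m : ℕ) (σ : Equiv.Perm (Fin m)) :
    rr R M m σ = Casim_W R M m (rho M m σ) := rfl

theorem Casim_a_rr (R M : C) (m : ℕ) (σ : Equiv.Perm (Fin m)) :
    Casim_a R M m (rr (R ⊗ M) M m σ) = rr R M (m + 1) (shift σ) := by
  rw [Casim_rr, Casim_a_W, wl_rho]
  rfl

theorem Casim_a_f0_whisker (R M : C) (φ : R ⊗ M ⟶ R ⊗ M) (m : ℕ) :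
    Casim_a R M (m + 1) (f0 (φ ▷ M : (R ⊗ M) ⊗ M ⟶ (R ⊗ M) ⊗ M) m) = f0 φ (m + 1) := by
  have h1 : f0 (φ ▷ M : (R ⊗ M) ⊗ M ⟶ (R ⊗ M) ⊗ M) m =
      (φ ▷ pow M (m + 1) : (R ⊗ M) ⊗ pow M (m + 1) ⟶ (R ⊗ M) ⊗ pow M (m + 1)) := by
    change (α_ (R ⊗ M) M (pow M m)).inv ≫ (φ ▷ M) ▷ pow M m ≫ (α_ (R ⊗ M) M (pow M m)).hom =
      φ ▷ (M ⊗ pow M m)
    rw [MonoidalCategory.whiskerRight_tensor]
  rw [h1]
  rfl

theorem Casim_coh (R M P : C) (b : M ⊗ M ⟶ M ⊗ M) :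
    (α_ R M (M ⊗ P)).inv ≫ ((α_ (R ⊗ M) M P).inv ≫ ((α_ R M M).hom ≫ R ◁ b ≫
      (α_ R M M).inv) ▷ P ≫ (α_ (R ⊗ M) M P).hom) ≫ (α_ R M (M ⊗ P)).hom =
    R ◁ ((α_ M M P).inv ≫ b ▷ P ≫ (α_ M M P).hom) := by
  monoidal

theorem Casim_a_f0_swap (R M : C) (m : ℕ) :
    Casim_a R M (m + 1) (f0 (((α_ R M M).hom ≫ R ◁ (β_ M M).hom ≫ (α_ R M M).inv :
      (R ⊗ M) ⊗ M ⟶ (R ⊗ M) ⊗ M)) m) = rr R M (m + 2) (Equiv.swap 0 1) := by
  have h1 : rr R M (m + 2) (Equiv.swap 0 1) = (R ◁ sw M (pow M m) :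
      R ⊗ (M ⊗ (M ⊗ pow M m)) ⟶ R ⊗ (M ⊗ (M ⊗ pow M m))) := by
    change R ◁ act M (m + 2) (Equiv.swap 0 1) = _
    rw [act_swap]
    rfl
  rw [h1]
  exact Casim_coh R M (pow M m) (β_ M M).hom

theorem Casim_f0_comp {R M : C} (k k' : R ⊗ M ⟶ R ⊗ M) (m : ℕ) :
    f0 (k ≫ k') m = f0 k' m * f0 k m := by
  change (α_ R M (pow M m)).inv ≫ (k ≫ k') ▷ pow M m ≫ (α_ R M (pow M m)).hom =
    ((α_ R M (pow M m)).inv ≫ k ▷ pow M m ≫ (α_ R M (pow M m)).hom) ≫
    ((α_ R M (pow M m)).inv ≫ k' ▷ pow M m ≫ (α_ R M (pow M m)).hom)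
  simp only [comp_whiskerRight, Category.assoc, Iso.hom_inv_id_assoc]

theorem Casim_f0_sub {R M : C} (k k' : R ⊗ M ⟶ R ⊗ M) (m : ℕ) :
    f0 (k - k') m = f0 k m - f0 k' m := by
  have h1 : ∀ k : R ⊗ M ⟶ R ⊗ M, f0 k m = Casim_a R M m (k ▷ pow M m) := fun _ => rfl
  have h2 : (k - k') ▷ pow M m = k ▷ pow M m - k' ▷ pow M m := by
    rw [sub_eq_add_neg, sub_eq_add_neg, MonoidalPreadditive.add_whiskerRight]
    congr 1
    have h3 := MonoidalPreadditive.add_whiskerRight (-k') k' (X := pow M m)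
    rw [neg_add_cancel, MonoidalPreadditive.zero_whiskerRight] at h3
    exact eq_neg_of_add_eq_zero_left h3.symm
  rw [h1, h1, h1, h2]
  exact map_sub (Casim_a R M m) _ _

theorem Casim_shift_swap {n : ℕ} (a b : Fin n) :
    shift (Equiv.swap a b) = Equiv.swap a.succ b.succ := by
  apply Equiv.ext
  intro x
  refine Fin.cases ?_ (fun x => ?_) x
  · rw [shift_zero, Equiv.swap_apply_of_ne_of_ne (Fin.succ_ne_zero a).symm
      (Fin.succ_ne_zero b).symm]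
  · rw [shift_succ]
    by_cases h1 : x = a
    · subst h1
      rw [Equiv.swap_apply_left, Equiv.swap_apply_left]
    · by_cases h2 : x = b
      · subst h2
        rw [Equiv.swap_apply_right, Equiv.swap_apply_right]
      · rw [Equiv.swap_apply_of_ne_of_ne h1 h2, Equiv.swap_apply_of_ne_of_ne
          (fun h => h1 (Fin.succ_injective _ h)) (fun h => h2 (Fin.succ_injective _ h))]

end CasimAux

section CasimLin

variable {K : Type w} [Field K] {C : Type u} [Category.{v} C] [MonoidalCategory C]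
  [Preadditive C] [Linear K C] [MonoidalPreadditive C] [MonoidalLinear K C]

theorem Casim_W_smul (R M : C) (m : ℕ) (c : K) (g : End (pow M m)) :
    Casim_W R M m (c • g) = c • Casim_W R M m g :=
  MonoidalLinear.whiskerLeft_smul _ c _

theorem Casim_a_smul (R M : C) (m : ℕ) (c : K) (F : End ((R ⊗ M) ⊗ pow M m)) :
    Casim_a R M m (c • F) = c • Casim_a R M m F := by
  change (α_ R M (pow M m)).inv ≫ (c • (show (R ⊗ M) ⊗ pow M m ⟶ (R ⊗ M) ⊗ pow M m from F)) ≫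
    (α_ R M (pow M m)).hom = c • ((α_ R M (pow M m)).inv ≫
      (show (R ⊗ M) ⊗ pow M m ⟶ (R ⊗ M) ⊗ pow M m from F) ≫ (α_ R M (pow M m)).hom)
  rw [Linear.smul_comp, Linear.comp_smul]

theorem Casim_f0_smul {R M : C} (c : K) (k : R ⊗ M ⟶ R ⊗ M) (m : ℕ) :
    f0 (c • k) m = c • f0 k m := by
  have h1 : ∀ k : R ⊗ M ⟶ R ⊗ M, f0 k m = Casim_a R M m (k ▷ pow M m) := fun _ => rfl
  rw [h1, h1, MonoidalLinear.smul_whiskerRight]
  exact Casim_a_smul R M m c _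

end CasimLin

/-- the operator `(d X_0 - n) e` on `M ⊗ M^{⊗ n}` -/
noncomputable def Zc {M : C} {n : ℕ} (D : Cut K M n) : End (pow M (n + 1)) :=
  (tr K (𝟙 M) • Xz M n - (n : K) • 1) * wl M n D.e

/-- `φ` acts by zero on `S` and has partial trace zero -/
structure Kills {R M : C} {m : ℕ} (D : Cut K M (m + 1)) (φ : R ⊗ M ⟶ R ⊗ M) : Prop where
  ptr_eq : ptr M φ = 0
  sum_eq : (∑ j : Fin (m + 1), fj φ j) *
    (show End (R ⊗ pow M (m + 1)) from R ◁ (show pow M (m + 1) ⟶ pow M (m + 1) from D.e)) = 0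

/-- the conjugates of `swap 0 1` -/
theorem Casim_conj {n : ℕ} (j : Fin (n + 1)) :
    Equiv.swap (1 : Fin (n + 1 + 1)) j.succ * Equiv.swap 0 1 * Equiv.swap 1 j.succ =
      Equiv.swap 0 j.succ := by
  have h1 := Equiv.swap_apply_apply (Equiv.swap (1 : Fin (n + 1 + 1)) j.succ) 0 1
  rw [Equiv.swap_apply_left, Equiv.swap_apply_of_ne_of_ne (by
      intro h
      exact absurd (congrArg Fin.val h) (by simp)) (Fin.succ_ne_zero j).symm, Equiv.swap_inv] at h1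
  exact h1.symm

theorem Casim_up_W (R M : C) (k : ℕ) (g : End (pow M k)) :
    up R M k (Casim_W R M k g) = Casim_W R M (k + 1) (wl M k g) := up_whisker k g

omit [CharZero K] [RightRigidCategory C] [UnitK K C] in
theorem Casim_e2_eq {R M : C} {n : ℕ} (D : Cut K M n) :
    Casim_W R M (n + 2) (wl M (n + 1) (wl M n D.e)) =
      ∑ σ, D.a σ • rr R M (n + 2) (shift (shift σ)) := by
  rw [D.e_eq, map_sum, map_sum, map_sum]
  refine Finset.sum_congr rfl fun σ _ => ?_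
  rw [wl_smul, wl_smul, Casim_W_smul, wl_rho, wl_rho]
  rfl

omit [CharZero K] [RightRigidCategory C] [UnitK K C] in
theorem Casim_comm {R M : C} {n : ℕ} (D : Cut K M n) (X : End (R ⊗ pow M (n + 2)))
    (h : ∀ σ : Equiv.Perm (Fin n), Commute X (rr R M (n + 2) (shift (shift σ)))) :
    Commute X (Casim_W R M (n + 2) (wl M (n + 1) (wl M n D.e))) := by
  rw [Casim_e2_eq]
  exact Commute.sum_right _ _ _ fun σ _ => (h σ).smul_right _

theorem Casim_comm_X (R M : C) (n : ℕ) (p : Fin (n + 2))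
    (hp : ∀ σ : Equiv.Perm (Fin n), shift (shift σ) p = p) (σ : Equiv.Perm (Fin n)) :
    Commute (∑ j : Fin n, rr R M (n + 2) (Equiv.swap p j.succ.succ))
      (rr R M (n + 2) (shift (shift σ))) := by
  have h1 : ∀ j : Fin n, rr R M (n + 2) (Equiv.swap p (σ j).succ.succ) *
      rr R M (n + 2) (shift (shift σ)) =
      rr R M (n + 2) (shift (shift σ)) * rr R M (n + 2) (Equiv.swap p j.succ.succ) := by
    intro j
    rw [← map_mul, ← map_mul]
    congr 1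
    have h2 := Equiv.swap_apply_apply (shift (shift σ)) p j.succ.succ
    rw [hp, shift_succ, shift_succ] at h2
    rw [h2, inv_mul_cancel_right]
  show _ * _ = _ * _
  rw [Finset.sum_mul, Finset.mul_sum, ← Equiv.sum_comp σ]
  exact Finset.sum_congr rfl fun j _ => h1 j

/-- expansion of the left hand side of `casim2` -/
theorem Casim_expand {R M : C} {m : ℕ} (D : Cut K M (m + 1)) (F : End (R ⊗ pow M (m + 1 + 1))) :
    F * Casim_W R M (m + 1 + 1) (Zc D) =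
      ∑ i : Fin (m + 1), (tr K (𝟙 M) • (F * rr R M (m + 1 + 1) (Equiv.swap 0 i.succ) *
        Casim_W R M (m + 1 + 1) (wl M (m + 1) D.e)) -
          F * Casim_W R M (m + 1 + 1) (wl M (m + 1) D.e)) := by
  unfold Zc Xz
  rw [map_mul, map_sub, Casim_W_smul, Casim_W_smul, map_one, map_sum, Finset.sum_sub_distrib,
    Finset.sum_const, Finset.card_univ, Fintype.card_fin, ← Finset.smul_sum, ← Finset.sum_mul,
    ← Finset.mul_sum, ← mul_assoc, mul_sub, sub_mul, mul_smul_comm, smul_mul_assoc, mul_smul_comm,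
    mul_one, smul_mul_assoc, Nat.cast_smul_eq_nsmul]
  rfl

theorem casim2 {R M : C} {m : ℕ} (D : Cut K M (m + 1)) (φ : R ⊗ M ⟶ R ⊗ M) (h : Kills D φ) :
    f0 φ (m + 1) * (show End (R ⊗ pow M (m + 1 + 1)) from
      R ◁ (show pow M (m + 1 + 1) ⟶ pow M (m + 1 + 1) from Zc D)) = 0 := by
  have hE0 : (∑ j : Fin (m + 1), fj φ j) * Casim_W R M (m + 1) D.e = 0 := h.sum_eq
  have hsum1 : (∑ j : Fin (m + 1), fj φ j.succ) *
      Casim_W R M (m + 1 + 1) (wl M (m + 1) D.e) = 0 := by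
    have h1 := congrArg (up R M (m + 1)) hE0
    rw [map_mul, map_sum, Casim_up_W, map_zero] at h1
    rw [← h1]
    congr 1
    exact Finset.sum_congr rfl fun j _ => (up_fj φ m j).symm
  have hsum2 : (∑ j : Fin (m + 1), fj φ j.succ.succ) *
      Casim_W R M (m + 1 + 2) (wl M (m + 1 + 1) (wl M (m + 1) D.e)) = 0 := by
    have h1 := congrArg (up R M (m + 1 + 1)) hsum1
    rw [map_mul, map_sum, Casim_up_W, map_zero] at h1
    rw [← h1]
    congr 1
    exact Finset.sum_congr rfl fun j _ => (up_fj φ (m + 1) j.succ).symm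
  have hinj : Function.Injective (fun j : Fin (m + 1) => (j.succ.succ : Fin (m + 1 + 1 + 1))) :=
    fun a b hab => Fin.succ_injective _ (Fin.succ_injective _ hab)
  have h0 : ∀ σ : Equiv.Perm (Fin (m + 1)), shift (shift σ) 0 = 0 := fun σ => shift_zero _
  have h1 : ∀ σ : Equiv.Perm (Fin (m + 1)), shift (shift σ) 1 = 1 := by
    intro σ
    have h2 := shift_succ (shift σ) 0
    rw [shift_zero] at h2
    exact h2
  have key := e2 (rr R M (m + 1 + 1 + 1)) (fun j => fj φ j) (fun σ j => rr_fj φ σ j)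
    (Finset.univ.map ⟨_, hinj⟩) 1 0 ?_ ?_ ?_
    (Casim_W R M (m + 1 + 2) (wl M (m + 1 + 1) (wl M (m + 1) D.e))) ?_ ?_ ?_ ?_
  rotate_left
  · intro hmem
    obtain ⟨j, -, hj⟩ := Finset.mem_map.1 hmem
    exact absurd (congrArg Fin.val hj) (by simp)
  · intro hmem
    obtain ⟨j, -, hj⟩ := Finset.mem_map.1 hmem
    exact absurd (congrArg Fin.val hj) (by simp)
  · intro h2
    exact absurd (congrArg Fin.val h2) (by simp)
  · rw [Finset.sum_map]
    exact Casim_comm D _ fun σ => Casim_comm_X R M (m + 1) 1 h1 σ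
  · rw [Finset.sum_map]
    exact Casim_comm D _ fun σ => Casim_comm_X R M (m + 1) 0 h0 σ
  · refine Casim_comm D _ fun σ => ?_
    show _ * _ = _ * _
    rw [← map_mul, ← map_mul]
    congr 1
    have h2 := Equiv.swap_apply_apply (shift (shift σ)) 1 0
    rw [h0, h1] at h2
    conv_lhs => rw [h2]
    rw [inv_mul_cancel_right]
  · rw [Finset.sum_map]
    exact hsum2
  rw [Finset.sum_map, Finset.sum_mul] at key
  have key2 := congrArg (lt R M (m + 1 + 1)) key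
  rw [map_sum, map_zero] at key2
  have hterm : ∀ i : Fin (m + 1), lt R M (m + 1 + 1)
      (((fj φ 1 - fj φ 0) * rr R M (m + 1 + 1 + 1) (Equiv.swap 1 i.succ.succ) -
        (fj φ 1 - fj φ i.succ.succ) * rr R M (m + 1 + 1 + 1) (Equiv.swap 0 i.succ.succ)) *
        Casim_W R M (m + 1 + 2) (wl M (m + 1 + 1) (wl M (m + 1) D.e))) =
      (tr K (𝟙 M) • (f0 φ (m + 1) * rr R M (m + 1 + 1) (Equiv.swap 0 i.succ) *
        Casim_W R M (m + 1 + 1) (wl M (m + 1) D.e)) -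
          f0 φ (m + 1) * Casim_W R M (m + 1 + 1) (wl M (m + 1) D.e)) +
        fj φ i.succ * Casim_W R M (m + 1 + 1) (wl M (m + 1) D.e) := by
    intro i
    have e1 : Casim_W R M (m + 1 + 2) (wl M (m + 1 + 1) (wl M (m + 1) D.e)) =
        up R M (m + 1 + 1) (Casim_W R M (m + 1 + 1) (wl M (m + 1) D.e)) :=
      (Casim_up_W R M _ _).symm
    have e3 : rr R M (m + 1 + 1 + 1) (Equiv.swap 1 i.succ.succ) =
        up R M (m + 1 + 1) (rr R M (m + 1 + 1) (Equiv.swap 0 i.succ)) := by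
      rw [up_rr, Casim_shift_swap]
      rfl
    have e4 : fj φ (1 : Fin (m + 1 + 1 + 1)) = up R M (m + 1 + 1) (f0 φ (m + 1)) :=
      (up_f0 φ (m + 1)).symm
    have e5 : fj φ i.succ.succ = up R M (m + 1 + 1) (fj φ i.succ) := (up_fj φ (m + 1) i.succ).symm
    rw [fj_zero, e1, e3, e4, e5]
    have t1 : lt R M (m + 1 + 1) (up R M (m + 1 + 1) (f0 φ (m + 1)) *
        up R M (m + 1 + 1) (rr R M (m + 1 + 1) (Equiv.swap 0 i.succ)) *
        up R M (m + 1 + 1) (Casim_W R M (m + 1 + 1) (wl M (m + 1) D.e))) =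
        tr K (𝟙 M) • (f0 φ (m + 1) * rr R M (m + 1 + 1) (Equiv.swap 0 i.succ) *
        Casim_W R M (m + 1 + 1) (wl M (m + 1) D.e)) := by
      rw [← map_mul, ← map_mul]
      have h5 := lt_mul_up (m + 1 + 1) (f0 φ (m + 1) * rr R M (m + 1 + 1) (Equiv.swap 0 i.succ) *
        Casim_W R M (m + 1 + 1) (wl M (m + 1) D.e)) (1 : End (R ⊗ pow M (m + 1 + 1 + 1)))
      rw [one_mul, lt_one (K := K), smul_mul_assoc, one_mul] at h5
      exact h5
    have t2 : lt R M (m + 1 + 1) (f0 φ (m + 1 + 1) *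
        up R M (m + 1 + 1) (rr R M (m + 1 + 1) (Equiv.swap 0 i.succ)) *
        up R M (m + 1 + 1) (Casim_W R M (m + 1 + 1) (wl M (m + 1) D.e))) = 0 := by
      rw [lt_mul_up, lt_mul_up, lt_f0 φ _ h.ptr_eq, zero_mul, zero_mul]
    have t3 : lt R M (m + 1 + 1) (up R M (m + 1 + 1) (f0 φ (m + 1)) *
        rr R M (m + 1 + 1 + 1) (Equiv.swap 0 i.succ.succ) *
        up R M (m + 1 + 1) (Casim_W R M (m + 1 + 1) (wl M (m + 1) D.e))) =
        f0 φ (m + 1) * Casim_W R M (m + 1 + 1) (wl M (m + 1) D.e) := by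
      rw [lt_mul_up, lt_up_mul, lt_swap, mul_one]
    have t4 : lt R M (m + 1 + 1) (up R M (m + 1 + 1) (fj φ i.succ) *
        rr R M (m + 1 + 1 + 1) (Equiv.swap 0 i.succ.succ) *
        up R M (m + 1 + 1) (Casim_W R M (m + 1 + 1) (wl M (m + 1) D.e))) =
        fj φ i.succ * Casim_W R M (m + 1 + 1) (wl M (m + 1) D.e) := by
      rw [lt_mul_up, lt_up_mul, lt_swap, mul_one]
    rw [sub_mul, sub_mul, sub_mul, sub_mul, sub_mul, map_sub, map_sub, map_sub, t1, t2, t3, t4]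
    abel
  have key3 : ∑ i : Fin (m + 1), ((tr K (𝟙 M) • (f0 φ (m + 1) *
      rr R M (m + 1 + 1) (Equiv.swap 0 i.succ) * Casim_W R M (m + 1 + 1) (wl M (m + 1) D.e)) -
          f0 φ (m + 1) * Casim_W R M (m + 1 + 1) (wl M (m + 1) D.e)) +
        fj φ i.succ * Casim_W R M (m + 1 + 1) (wl M (m + 1) D.e)) = 0 := by
    rw [← key2]
    exact Finset.sum_congr rfl fun i _ => (hterm i).symm
  rw [Finset.sum_add_distrib, ← Finset.sum_mul, hsum1, add_zero, ← Casim_expand] at key3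
  exact key3

theorem casim3 {R M : C} {m : ℕ} (D : Cut K M (m + 1)) (φ : R ⊗ M ⟶ R ⊗ M) (h : Kills D φ) :
    φ ⊗ₘ (show pow M (m + 1 + 1) ⟶ pow M (m + 1 + 1) from Zc D) = 0 := by
  -- the new endomorphism
  let k : (R ⊗ M) ⊗ M ⟶ (R ⊗ M) ⊗ M :=
    tr K (𝟙 M) • (((α_ R M M).hom ≫ R ◁ (β_ M M).hom ≫ (α_ R M M).inv) ≫ φ ▷ M) - φ ▷ M
  have hk : ∀ l : ℕ, Casim_a R M (l + 1) (f0 k l) =
      tr K (𝟙 M) • (f0 φ (l + 1) * rr R M (l + 2) (Equiv.swap 0 1)) - f0 φ (l + 1) := by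
    intro l
    show Casim_a R M (l + 1) (f0 (tr K (𝟙 M) • (((α_ R M M).hom ≫ R ◁ (β_ M M).hom ≫
      (α_ R M M).inv) ≫ φ ▷ M) - φ ▷ M) l) = _
    rw [Casim_f0_sub, Casim_f0_smul, Casim_f0_comp, map_sub, Casim_a_smul, map_mul,
      Casim_a_f0_whisker, Casim_a_f0_swap]
  have hcomm : ∀ (l : ℕ) (σ : Equiv.Perm (Fin (l + 1))), σ 0 = 0 →
      rr R M (l + 1) σ * f0 φ l = f0 φ l * rr R M (l + 1) σ := by
    intro l σ hσ
    have h1 := rr_fj φ σ 0
    rw [hσ, fj_zero] at h1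
    exact h1
  have hswsw : ∀ (l : ℕ) (a b : Fin l),
      rr R M l (Equiv.swap a b) * rr R M l (Equiv.swap a b) = 1 := by
    intro l a b
    rw [← map_mul, Equiv.swap_mul_self, map_one]
  have hfj : ∀ (l : ℕ) (j : Fin (l + 1)), Casim_a R M (l + 1) (fj k j) =
      tr K (𝟙 M) • (f0 φ (l + 1) * rr R M (l + 2) (Equiv.swap 0 j.succ)) - f0 φ (l + 1) := by
    intro l j
    have e1 : shift (Equiv.swap 0 j) = Equiv.swap (1 : Fin (l + 1 + 1)) j.succ := by
      rw [Casim_shift_swap]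
      rfl
    have e2 : rr R M (l + 2) (Equiv.swap 1 j.succ) * f0 φ (l + 1) =
        f0 φ (l + 1) * rr R M (l + 2) (Equiv.swap 1 j.succ) := by
      apply hcomm
      exact Equiv.swap_apply_of_ne_of_ne (by
        intro h
        exact absurd (congrArg Fin.val h) (by simp)) (Fin.succ_ne_zero j).symm
    have e3 : rr R M (l + 2) (Equiv.swap 1 j.succ) * rr R M (l + 2) (Equiv.swap 0 1) *
        rr R M (l + 2) (Equiv.swap 1 j.succ) = rr R M (l + 2) (Equiv.swap 0 j.succ) := by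
      rw [← map_mul, ← map_mul, Casim_conj]
    have e4 : fj k j = rr (R ⊗ M) M (l + 1) (Equiv.swap 0 j) * f0 k l *
      rr (R ⊗ M) M (l + 1) (Equiv.swap 0 j) := rfl
    rw [e4, map_mul, map_mul, Casim_a_rr, hk, e1, mul_sub, sub_mul, mul_smul_comm,
      smul_mul_assoc, ← mul_assoc, e2, mul_assoc, mul_assoc, ← mul_assoc _ _
      (rr R M (l + 2) (Equiv.swap 1 j.succ)), e3, mul_assoc, hswsw, mul_one]
  have hkill : Kills D k := by
    constructor
    · show ptr M (tr K (𝟙 M) • (((α_ R M M).hom ≫ R ◁ (β_ M M).hom ≫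
        (α_ R M M).inv) ≫ φ ▷ M) - φ ▷ M) = 0
      rw [ptr_sub, ptr_smul K, ptr_nat_right, ptr_whisker, ptr_braid, whiskerLeft_id,
        Category.id_comp, ← tensorHom_id, ptr_tensorHom K, sub_self]
    · apply Casim_a_inj
      have h1 : Casim_a R M (m + 1) ((∑ j : Fin (m + 1), fj k j) *
          Casim_W (R ⊗ M) M (m + 1) D.e) = 0 := by
        rw [map_mul, map_sum, Casim_a_W]
        have h2 := casim2 D φ h
        have h3 := Casim_expand D (f0 φ (m + 1))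
        have h4 : f0 φ (m + 1) * Casim_W R M (m + 1 + 1) (Zc D) = 0 := h2
        rw [h4] at h3
        rw [Finset.sum_mul, h3]
        refine Finset.sum_congr rfl fun j _ => ?_
        rw [hfj, sub_mul, smul_mul_assoc]
      exact h1
  have h1 : f0 k (m + 1) * Casim_W (R ⊗ M) M (m + 1 + 1) (Zc D) = 0 := casim2 D k hkill
  have h2 := congrArg (Casim_a R M (m + 1 + 1)) h1
  rw [map_mul, map_zero, hk, Casim_a_W, sub_mul, smul_mul_assoc] at h2
  have h3 : f0 φ (m + 1) * Casim_W R M (m + 1 + 1) (Zc D) = 0 := casim2 D φ h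
  have h4 := congrArg (up R M (m + 1 + 1)) h3
  rw [map_mul, map_zero, Casim_up_W, up_f0] at h4
  have h5 : f0 φ (m + 1 + 1) * rr R M (m + 1 + 2) (Equiv.swap 0 1) *
      Casim_W R M (m + 1 + 1 + 1) (wl M (m + 1 + 1) (Zc D)) = 0 := by
    have h6 := congrArg (fun F => rr R M (m + 1 + 2) (Equiv.swap 0 1) * F) h4
    simp only [mul_zero] at h6
    have h7 : fj φ (1 : Fin (m + 1 + 1 + 1)) = rr R M (m + 1 + 2) (Equiv.swap 0 1) *
      f0 φ (m + 1 + 1) * rr R M (m + 1 + 2) (Equiv.swap 0 1) := rfl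
    rw [h7, mul_assoc, mul_assoc, ← mul_assoc, hswsw, one_mul] at h6
    rw [mul_assoc]
    exact h6
  rw [h5, smul_zero, zero_sub, neg_eq_zero] at h2
  apply Casim_a_inj
  have h6 : Casim_a R M (m + 1 + 1) ((show End ((R ⊗ M) ⊗ pow M (m + 1 + 1)) from
      φ ▷ pow M (m + 1 + 1)) * Casim_W (R ⊗ M) M (m + 1 + 1) (Zc D)) = 0 := by
    rw [map_mul, Casim_a_W]
    exact h2
  have h7 : (φ ⊗ₘ (show pow M (m + 1 + 1) ⟶ pow M (m + 1 + 1) from Zc D) :
      (R ⊗ M) ⊗ pow M (m + 1 + 1) ⟶ (R ⊗ M) ⊗ pow M (m + 1 + 1)) =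
      (R ⊗ M) ◁ (show pow M (m + 1 + 1) ⟶ pow M (m + 1 + 1) from Zc D) ≫
        φ ▷ pow M (m + 1 + 1) := tensorHom_def' _ _
  rw [h7]
  exact h6

end Pool.Agent.W_868bb7_h64
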