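import Pool.Agent.W_868bb7_h64.XB
import Pool.Agent.W_868bb7_h64.Maschke

set_option autoImplicit false

/-!
# Wreath: a finite group whose span contains all `xB b v B`

`v` is an idempotent of `M`, `w = 2 v - 1`, `w * w = 1`.  `G = (Fin N → ℤˣ) ⋊ Perm (Fin N)`
(`mulAutArrow`), `th v : ℤˣ →* End M` sends `-1` to `w`.

* `gh v N : G →* End (pow M N)`, `⟨s, σ⟩ ↦ pm (th ∘ s) * rho σ`: e.g. by `SemidirectProduct.lift` of
  the two homomorphisms `MonoidHom.toHomUnits (pm.comp (MonoidHom.compLeft (th v) (Fin N)))` and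
  `MonoidHom.toHomUnits rho` to `(End (pow M N))ˣ` followed by `Units.coeHom`; the compatibility is
  `rho_pm`.  Or define it directly and check `map_mul` with `rho_pm`.
* `alg v N`: the subalgebra generated by its range.
* `st_mem`: `st v j = (1/2) (1 + st w j)` (`st_add`, `st_smul`, `st_one`), `st w j = gh ⟨s, 1⟩`.
* `xB_mem`: `SEsum` is a combination of `rho σ`, `pm (ind v B)` is a product of the `st v j`
  (`pm_ind_insert`, `Finset.induction_on`).
* `xB_kill`: let `T` be a non-zero retract of `pow M N` with idempotent `f = p ≫ i` in `alg v N` and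
  negligible endomorphisms of `T` nilpotent.  If `B.card = k` and `powMap v k ≫ E b M k` is negligible
  then `xB b v B * f = 0`: `maschke_nil` with `y = xB * f`; for `a` in `alg`,
  `(a * xB * f)^(t+1) = a * xB * (f * a * xB * f)^t`, and `f * (a * xB) * f = p ≫ (i ≫ (a xB) ≫ p) ≫ i`,
  whose powers are `p ≫ it (i ≫ .. ≫ p) t ≫ i`.
-/

namespace Pool.Agent.W_868bb7_h64

open CategoryTheory MonoidalCategory Pool.Agent.W_MP_868bb7_ag

universe v u w

variable (K : Type w) [Field K] [CharZero K] {C : Type u} [Category.{v} C] [MonoidalCategory C]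
  [Preadditive C] [Linear K C] [MonoidalPreadditive C] [MonoidalLinear K C]
  [SymmetricCategory C]

/-- the subalgebra generated by the permutations and the `st v j` -/
def alg {M : C} (v : End M) (N : ℕ) : Subalgebra K (End (pow M N)) :=
  Algebra.adjoin K (Set.range (rho M N) ∪ Set.range (fun j : Fin N => st v j))

theorem rho_mem {M : C} (v : End M) (N : ℕ) (σ : Equiv.Perm (Fin N)) :
    rho M N σ ∈ alg K v N :=
  Algebra.subset_adjoin (Or.inl ⟨σ, rfl⟩)

theorem Wreath_st_mem {M : C} (v : End M) (N : ℕ) (j : Fin N) : st v j ∈ alg K v N :=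
  Algebra.subset_adjoin (Or.inr ⟨j, rfl⟩)

omit [Preadditive C] [MonoidalPreadditive C] [SymmetricCategory C] in
theorem Wreath_th_mul {M : C} (w : End M) (hw : w * w = 1) (a b : ℤˣ) :
    (if a * b = 1 then (1 : End M) else w) =
      (if a = 1 then (1 : End M) else w) * (if b = 1 then (1 : End M) else w) := by
  rcases Int.units_eq_one_or a with rfl | rfl <;> rcases Int.units_eq_one_or b with rfl | rfl <;>
    simp [hw]

/-- the involution `w` on the strands with sign `-1` -/
def Wreath_pm {M : C} (w : End M) (hw : w * w = 1) (N : ℕ) : (Fin N → ℤˣ) →* End (pow M N) where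
  toFun s := pm M N (fun j => if s j = 1 then (1 : End M) else w)
  map_one' := by
    have : (fun j : Fin N => if (1 : Fin N → ℤˣ) j = 1 then (1 : End M) else w) = 1 := by
      funext j; simp
    rw [this, map_one]
  map_mul' s t := by
    rw [← map_mul]
    congr 1
    funext j
    exact Wreath_th_mul w hw (s j) (t j)

theorem Wreath_pm_single {M : C} (w : End M) (hw : w * w = 1) (N : ℕ) (j : Fin N) (u : ℤˣ) :
    Wreath_pm w hw N (Pi.mulSingle j u) = st (if u = 1 then (1 : End M) else w) j := by
  show pm M N _ = pm M N _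
  congr 1
  funext i
  by_cases h : i = j
  · subst h; simp
  · simp [Pi.mulSingle_eq_of_ne h]

theorem Wreath_pm_conj {M : C} (w : End M) (hw : w * w = 1) (N : ℕ) (σ : Equiv.Perm (Fin N))
    (s : Fin N → ℤˣ) : rho M N σ * Wreath_pm w hw N s =
      Wreath_pm w hw N (fun i => s (σ⁻¹ i)) * rho M N σ :=
  rho_pm M N σ _

/-- the representation of the wreath product -/
def Wreath_gh {M : C} (w : End M) (hw : w * w = 1) (N : ℕ) :
    ((Fin N → ℤˣ) ⋊[mulAutArrow (G := Equiv.Perm (Fin N)) (A := Fin N) (M := ℤˣ)]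
      Equiv.Perm (Fin N)) →* End (pow M N) where
  toFun g := Wreath_pm w hw N g.left * rho M N g.right
  map_one' := by simp
  map_mul' g h := by
    have h1 : (g * h).left = g.left * fun i => h.left (g.right⁻¹ i) := rfl
    have h2 : (g * h).right = g.right * h.right := rfl
    rw [h1, h2, map_mul, map_mul, mul_assoc, ← mul_assoc (Wreath_pm w hw N _) (rho M N g.right),
      ← Wreath_pm_conj]
    simp only [mul_assoc]

/-- the subalgebra is generated by the image of a finite group -/
theorem exists_group {M : C} (v : End M) (hv : v * v = v) (N : ℕ) :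
    ∃ (G : Type) (_ : Group G) (_ : Finite G) (f : G →* End (pow M N)),
      Algebra.adjoin K (Set.range f) = alg K v N := by
  have hw : (v + v - 1) * (v + v - 1) = 1 := by
    noncomm_ring
    rw [hv]
    abel
  obtain ⟨w, hw1⟩ : ∃ w : End M, w = v + v - 1 := ⟨_, rfl⟩
  rw [← hw1] at hw
  have hst : ∀ j : Fin N, st w j = st v j + st v j - 1 := by
    intro j
    have h1 : st (w + 1) j = st v j + st v j := by
      rw [hw1, sub_add_cancel, st_add]
    rw [st_add, st_one] at h1
    rw [← h1, add_sub_cancel_right]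
  refine ⟨_, inferInstance,
    Finite.of_equiv _ (SemidirectProduct.equivProd (φ := mulAutArrow
      (G := Equiv.Perm (Fin N)) (A := Fin N) (M := ℤˣ))).symm, Wreath_gh w hw N, ?_⟩
  apply le_antisymm
  · rw [Algebra.adjoin_le_iff]
    rintro _ ⟨g, rfl⟩
    show Wreath_pm w hw N g.left * rho M N g.right ∈ alg K v N
    refine mul_mem ?_ (rho_mem K v N _)
    let Q : Submonoid (Fin N → ℤˣ) := (alg K v N).toSubmonoid.comap (Wreath_pm w hw N)
    have h1 : ∀ s : Fin N → ℤˣ, s ∈ Q := by
      intro s
      rw [← Finset.univ_prod_mulSingle s]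
      refine Submonoid.prod_mem _ fun j _ => ?_
      show Wreath_pm w hw N (Pi.mulSingle j (s j)) ∈ alg K v N
      rw [Wreath_pm_single]
      split_ifs
      · rw [st_one]; exact one_mem _
      · rw [hst]
        exact sub_mem (add_mem (Wreath_st_mem K v N j) (Wreath_st_mem K v N j)) (one_mem _)
    exact h1 g.left
  · unfold alg
    rw [Algebra.adjoin_le_iff]
    rintro _ (⟨σ, rfl⟩ | ⟨j, rfl⟩)
    · refine Algebra.subset_adjoin ⟨⟨1, σ⟩, ?_⟩
      show Wreath_pm w hw N 1 * rho M N σ = rho M N σ
      rw [map_one, one_mul]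
    · have h1 : st w j ∈ Algebra.adjoin K (Set.range (Wreath_gh w hw N)) := by
        refine Algebra.subset_adjoin ⟨⟨Pi.mulSingle j (-1), 1⟩, ?_⟩
        show Wreath_pm w hw N (Pi.mulSingle j (-1)) * rho M N 1 = st w j
        rw [map_one, mul_one, Wreath_pm_single]
        simp
      have h2 : st v j = ((1 : K) / 2) • (st w j + 1) := by
        rw [hst, sub_add_cancel, ← two_smul K, smul_smul]
        norm_num
      show st v j ∈ _
      rw [h2]
      exact Subalgebra.smul_mem _ (add_mem h1 (one_mem _)) _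

theorem xB_mem (b : Bool) {M : C} (v : End M) {N : ℕ} (B : Finset (Fin N)) :
    xB b v B ∈ alg K v N := by
  unfold xB
  refine mul_mem ?_ ?_
  · unfold SEsum
    refine Subalgebra.sum_mem _ fun σ _ => ?_
    exact zsmul_mem (rho_mem K v N σ) _
  · induction B using Finset.induction_on with
    | empty =>
      have : (ind v (∅ : Finset (Fin N))) = 1 := by
        funext j; simp [ind]
      rw [this, map_one]
      exact one_mem _
    | insert j B hj ih =>
      rw [pm_ind_insert v B j hj]
      exact mul_mem (Wreath_st_mem K v N j) ih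

variable [RightRigidCategory C] [UnitK K C]

theorem xB_kill (b : Bool) {M : C} (v : M ⟶ M) (hv : v ≫ v = v) (k : ℕ)
    (h : Neg K (powMap v k ≫ E b M k)) {N : ℕ} (B : Finset (Fin N)) (hB : B.card = k)
    {T : C} (i : T ⟶ pow M N) (p : pow M N ⟶ T) (hip : i ≫ p = 𝟙 T)
    (hf : (show End (pow M N) from p ≫ i) ∈ alg K (show End M from v) N)
    (hT : ∀ f : T ⟶ T, Neg K f → ∃ t, it f t = 0) :
    xB b (show End M from v) B * (show End (pow M N) from p ≫ i) = 0 := by
  obtain ⟨G, _, _, f, hG⟩ := exists_group K (show End M from v) hv N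
  refine maschke_nil (K := K) f _ ?_ ?_
  · rw [hG]
    exact mul_mem (xB_mem K b _ B) hf
  · intro a _
    -- `z = xB ≫ a`
    obtain ⟨z, hz⟩ : ∃ z : pow M N ⟶ pow M N,
        z = (show pow M N ⟶ pow M N from xB b (show End M from v) B) ≫
          (show pow M N ⟶ pow M N from a) := ⟨_, rfl⟩
    have hzn : Neg K z := by
      rw [hz]
      exact Neg_comp_right K _ _ (xB_neg K b v k h N B hB)
    have hy : a * (xB b (show End M from v) B * (show End (pow M N) from p ≫ i)) =
        (show End (pow M N) from (p ≫ i) ≫ z) := by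
      rw [hz, ← Category.assoc]
      rfl
    obtain ⟨t, ht⟩ := hT (i ≫ z ≫ p) (Neg_comp_left K _ _ (Neg_comp_right K _ _ hzn))
    refine ⟨t + 1, ?_⟩
    rw [hy]
    have key : ∀ t : ℕ, it ((p ≫ i) ≫ z) (t + 1) = p ≫ it (i ≫ z ≫ p) t ≫ i ≫ z := by
      intro t
      induction t with
      | zero =>
        show ((p ≫ i) ≫ z) ≫ 𝟙 _ = p ≫ 𝟙 _ ≫ i ≫ z
        simp
      | succ t ih =>
        show ((p ≫ i) ≫ z) ≫ it ((p ≫ i) ≫ z) (t + 1) = p ≫ ((i ≫ z ≫ p) ≫ it (i ≫ z ≫ p) t) ≫ i ≫ z
        rw [ih]
        simp only [Category.assoc]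
    have h3 := it_eq_pow ((p ≫ i) ≫ z) (t + 1)
    rw [key t, ht, Limits.zero_comp, Limits.comp_zero] at h3
    exact h3.symm

end Pool.Agent.W_868bb7_h64
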