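import Pool.Agent.W_868bb7_h64.Blocks
import Pool.Agent.W_868bb7_h64.Wreath

set_option autoImplicit false

/-!
# Exact: exactness

* `kim_S`: `kimura_of_idem K D.ev D.idem D.fdt D.fdf`.
* `nil_powS`: `kimura_pow`, `idem_of_kimura`, `neg_nil`.
* `cut_pow`: `iK = powMap D.i k ≫ (QQ M n k).hom`, `pK = (QQ M n k).inv ≫ powMap D.p k`;
  `iK ≫ pK = 𝟙` (`powMap_comp`, `powMap_id`), `pK ≫ iK = eK D k`.
* `exact_step`: `transv` with `R = End (pow M (n*k+k))`, `e = eh D k`, `x B = xB b v B`,
  `Z x ↔ x.val < k`, `grp = grp n k`: `hx` is `xB_conj`, `hZ` is `eh_comm`, `hcard` is `grp_card`; `hR`: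
  `n • y = (n : K) • y`.  `h0`: `B` consists of block strands, `xB_shift` writes `xB b v B` as
  `wT M (xB b v B') k` with `B'.card = k`, and `xB b v B' * eK D k = 0` by `xB_kill` with
  `i = iK`, `p = pK` (`eK_mem`, `rho_mem`).
* `exact`: for `B = {x | x.val < k}`, `xB b v B * eh D k = 0`; by `xB_first` and `wT_J`,
  `(powMap v k ≫ E b M k) ⊗ₘ eK D k = 0` up to the isomorphism `J`, and `eK D k ≫ t'` with
  `t' = (QQ).inv ≫ powMap t k ≫ (QQ).hom` has trace `tr t ^ k ≠ 0` (`Cut.exists_t`, `tr_powMap`,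
  `tr_comp_comm`); conclude with `ptr_tensorHom` as in `Cut.tensor_zero`.
-/

namespace Pool.Agent.W_868bb7_h64

open CategoryTheory MonoidalCategory Limits Pool.Agent.W_MP_868bb7_ag
  Pool.Agent.W_MP_868bb7_h79

universe v u w

variable {K : Type w} [Field K] [CharZero K] {C : Type u} [Category.{v} C] [MonoidalCategory C]
  [Preadditive C] [Linear K C] [MonoidalPreadditive C] [MonoidalLinear K C]
  [SymmetricCategory C] [RightRigidCategory C] [UnitK K C]
  [HasBinaryBiproducts C] [IsIdempotentComplete C]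

theorem kim_S {M : C} {n : ℕ} (D : Cut K M n) : KimuraFD K D.S :=
  kimura_of_idem K D.ev D.idem D.fdt D.fdf

theorem nil_powS {M : C} {n : ℕ} (D : Cut K M n) (k : ℕ) (f : pow D.S k ⟶ pow D.S k)
    (hf : Neg K f) : ∃ t, it f t = 0 := by
  obtain ⟨u, hu, h1, h2⟩ := idem_of_kimura K (kimura_pow K D.S (kim_S D) k)
  exact neg_nil K true u hu h1 h2 f hf

theorem cut_pow {M : C} {n : ℕ} (D : Cut K M n) (k : ℕ) :
    ∃ (i : pow D.S k ⟶ pow M (n * k)) (p : pow M (n * k) ⟶ pow D.S k),
      i ≫ p = 𝟙 _ ∧ p ≫ i = (show pow M (n * k) ⟶ pow M (n * k) from eK D k) := by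
  refine ⟨powMap D.i k ≫ (QQ M n k).hom, (QQ M n k).inv ≫ powMap D.p k, ?_, ?_⟩
  · rw [Category.assoc, Iso.hom_inv_id_assoc, ← powMap_comp, D.hip, powMap_id]
  · have h1 : powMap D.p k ≫ powMap D.i k = powMap (D.p ≫ D.i) k := (powMap_comp _ _ _).symm
    rw [Category.assoc, ← Category.assoc (powMap D.p k), h1]
    rfl

omit [Field K] [CharZero K] [Linear K C] [MonoidalLinear K C] [SymmetricCategory C]
  [RightRigidCategory C] [UnitK K C] [HasBinaryBiproducts C] [IsIdempotentComplete C] in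
theorem Exact_wT_comp (M : C) {m : ℕ} (g h : pow M m ⟶ pow M m) (a : ℕ) :
    wT M g a ≫ wT M h a = wT M (g ≫ h) a := by
  induction a with
  | zero => rfl
  | succ a ih =>
    show (M ◁ wT M g a) ≫ (M ◁ wT M h a) = M ◁ wT M (g ≫ h) a
    rw [← MonoidalCategory.whiskerLeft_comp, ih]

omit [Field K] [CharZero K] [Linear K C] [MonoidalLinear K C] [SymmetricCategory C]
  [RightRigidCategory C] [UnitK K C] [HasBinaryBiproducts C] [IsIdempotentComplete C] in
theorem Exact_wT_zero (M : C) (m a : ℕ) : wT M (0 : pow M m ⟶ pow M m) a = 0 := by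
  induction a with
  | zero => rfl
  | succ a ih =>
    show (M ◁ wT M (0 : pow M m ⟶ pow M m) a) = 0
    rw [ih, MonoidalPreadditive.whiskerLeft_zero]

theorem Exact_eK_alg {M : C} {n : ℕ} (hn : 1 ≤ n) (D : Cut K M n) (v : End M) (k : ℕ) :
    eK D k ∈ alg K v (n * k) := by
  have h1 := eK_mem hn D k
  have h2 : Submodule.span K (rho M (n * k) '' {σ | ∀ x, (σ x).val / n = x.val / n}) ≤
      Subalgebra.toSubmodule (alg K v (n * k)) := by
    rw [Submodule.span_le]
    rintro _ ⟨σ, _, rfl⟩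
    exact rho_mem K v (n * k) σ
  exact h2 h1

theorem Exact_kill {M : C} {n : ℕ} (hn : 1 ≤ n) (D : Cut K M n) (v : M ⟶ M) (hv : v ≫ v = v)
    (b : Bool) (k : ℕ) (h : Neg K (powMap v k ≫ E b M k)) (B : Finset (Fin (n * k)))
    (hB : B.card = k) : xB b (show End M from v) B * eK D k = 0 := by
  obtain ⟨i, p, hip, hpi⟩ := cut_pow D k
  have h1 : (show End (pow M (n * k)) from p ≫ i) = eK D k := hpi
  have h2 := xB_kill K b v hv k h B hB i p hip (by rw [h1]; exact Exact_eK_alg hn D v k)
    (nil_powS D k)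
  rw [h1] at h2
  exact h2

theorem exact_step {M : C} {n : ℕ} (hn : 1 ≤ n) (D : Cut K M n) (v : M ⟶ M) (hv : v ≫ v = v)
    (b : Bool) (k : ℕ) (h : Neg K (powMap v k ≫ E b M k)) (B : Finset (Fin (n * k + k)))
    (hB : B.card = k) (hB2 : Set.InjOn (grp n k) B) :
    xB b (show End M from v) B * eh D k = 0 := by
  refine transv (rho M (n * k + k)) (eh D k) n k ?_ (grp n k) (fun x => x.val < k)
    (fun B => xB b (show End M from v) B) ?_ ?_ ?_ ?_ B hB hB2
  · intro y hy
    have h1 : (n : K) • y = 0 := by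
      rw [Nat.cast_smul_eq_nsmul]
      exact hy
    have h2 : (n : K) ≠ 0 := by
      have : n ≠ 0 := by omega
      exact_mod_cast this
    exact (smul_eq_zero_iff_right h2).1 h1
  · intro σ B
    exact xB_conj b _ B σ
  · intro z hz
    exact eh_comm hn D k z hz
  · intro z hz
    exact grp_card n k hn z hz
  · intro B hB _ hB3
    have h1 : ∀ x ∈ B, k ≤ x.val := fun x hx => not_lt.1 (hB3 x hx)
    show xB b (show End M from v) B * eh D k = 0
    rw [xB_shift b (show End M from v) k (n * k) B h1]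
    obtain ⟨B', hB'⟩ : ∃ B' : Finset (Fin (n * k)), B' = Finset.univ.filter
      (fun i : Fin (n * k) => (⟨i.val + k, by omega⟩ : Fin (n * k + k)) ∈ B) := ⟨_, rfl⟩
    have hcard : B'.card = k := by
      refine Eq.trans ?_ hB
      refine Finset.card_bij (fun i _ => (⟨i.val + k, by omega⟩ : Fin (n * k + k))) ?_ ?_ ?_
      · intro i hi
        rw [hB', Finset.mem_filter] at hi
        exact hi.2
      · intro i _ j _ hij
        have := congrArg Fin.val hij
        simp only at this
        exact Fin.ext (by omega)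
      · intro x hx
        have h2 := h1 x hx
        have h3 := x.isLt
        refine ⟨⟨x.val - k, by omega⟩, ?_, ?_⟩
        · rw [hB', Finset.mem_filter]
          refine ⟨Finset.mem_univ _, ?_⟩
          have : (⟨x.val - k + k, by omega⟩ : Fin (n * k + k)) = x := Fin.ext (by simp; omega)
          simp only
          rw [this]
          exact hx
        · exact Fin.ext (by simp; omega)
    rw [← hB']
    have h4 := Exact_kill hn D v hv b k h B' hcard
    show (wT M (show pow M (n * k) ⟶ pow M (n * k) from eK D k) k ≫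
      wT M (show pow M (n * k) ⟶ pow M (n * k) from xB b (show End M from v) B') k : _) = 0
    rw [Exact_wT_comp]
    have h5 : (show pow M (n * k) ⟶ pow M (n * k) from eK D k) ≫
      (show pow M (n * k) ⟶ pow M (n * k) from xB b (show End M from v) B') = 0 := h4
    rw [h5, Exact_wT_zero]

/-- exactness: if the (anti)symmetric power of the idempotent `v` is negligible then it is zero -/
theorem exact_of_neg {M : C} {n : ℕ} (hn : 1 ≤ n) (D : Cut K M n) (v : M ⟶ M) (hv : v ≫ v = v)
    (b : Bool) (k : ℕ) (h : Neg K (powMap v k ≫ E b M k)) : powMap v k ≫ E b M k = 0 := by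
  obtain ⟨F, hF⟩ : ∃ F : pow M k ⟶ pow M k, F = powMap v k ≫ E b M k := ⟨_, rfl⟩
  obtain ⟨e, he⟩ : ∃ e : pow M (n * k) ⟶ pow M (n * k),
    e = (show pow M (n * k) ⟶ pow M (n * k) from eK D k) := ⟨_, rfl⟩
  rw [← hF]
  -- the first `k` strands
  obtain ⟨B, hBd⟩ : ∃ B : Finset (Fin (n * k + k)), B = Finset.univ.filter
    (fun x : Fin (n * k + k) => x.val < k) := ⟨_, rfl⟩
  have hcard : B.card = k := by
    have h1 : B = (Finset.univ : Finset (Fin k)).map
        (Fin.castLEEmb (Nat.le_add_left k (n * k))) := by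
      rw [hBd]
      ext x
      simp only [Finset.mem_filter, Finset.mem_univ, true_and, Finset.mem_map]
      constructor
      · intro hx
        exact ⟨⟨x.val, hx⟩, Fin.ext rfl⟩
      · rintro ⟨y, rfl⟩
        exact y.isLt
    rw [h1, Finset.card_map, Finset.card_univ, Fintype.card_fin]
  have hinj : Set.InjOn (grp n k) B := by
    intro x hx y hy hxy
    rw [hBd] at hx hy
    simp only [Finset.coe_filter, Finset.mem_univ, true_and, Set.mem_setOf_eq] at hx hy
    unfold grp at hxy
    rw [if_pos hx, if_pos hy] at hxy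
    exact Fin.ext hxy
  have h1 := exact_step hn D v hv b k h B hcard hinj
  have h2 := xB_first b (show End M from v) k (n * k)
  rw [← hBd] at h2
  have h3 := wT_J M (show pow M (n * k) ⟶ pow M (n * k) from eK D k) k
  have h4 : wT M (show pow M (n * k) ⟶ pow M (n * k) from eK D k) k ≫
      (show pow M (n * k + k) ⟶ pow M (n * k + k) from xB b (show End M from v) B) = 0 := h1
  have h5 : (pow M k ◁ e) ≫ (F ▷ pow M (n * k)) ≫ (J M k (n * k)).hom = 0 := by
    rw [hF]
    refine (congrArg (fun z => (pow M k ◁ e) ≫ z) h2).trans ?_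
    rw [← Category.assoc, he, h3, Category.assoc]
    refine (congrArg (fun z => (J M k (n * k)).hom ≫ z) h4).trans ?_
    exact Limits.comp_zero
  have h6 : F ⊗ₘ e = 0 := by
    rw [MonoidalCategory.tensorHom_def']
    rw [← cancel_mono (J M k (n * k)).hom, Category.assoc, h5, Limits.zero_comp]
  obtain ⟨i, p, hip, hpi⟩ := cut_pow D k
  rw [← he] at hpi
  obtain ⟨s, hs⟩ := D.exists_tr
  have h7 : tr K (p ≫ powMap s k ≫ i) ≠ 0 := by
    rw [tr_comp_comm, Category.assoc, hip, Category.comp_id, tr_powMap]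
    exact pow_ne_zero _ hs
  have h8 : F ⊗ₘ (p ≫ powMap s k ≫ i) = 0 := by
    have h9 : F ⊗ₘ (p ≫ powMap s k ≫ i) = (F ⊗ₘ e) ≫ (𝟙 _ ⊗ₘ (p ≫ powMap s k ≫ i)) := by
      rw [MonoidalCategory.tensorHom_comp_tensorHom, Category.comp_id]
      congr 1
      rw [← hpi, Category.assoc, ← Category.assoc i p, hip, Category.id_comp]
    rw [h9, h6, Limits.zero_comp]
  have h10 := ptr_tensorHom K F (p ≫ powMap s k ≫ i)
  rw [h8, ptr_zero] at h10
  exact (smul_eq_zero.1 h10.symm).resolve_left h7

end Pool.Agent.W_868bb7_h64
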