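import Pool.Agent.W_MP_868bb7_ag.ThmA
import Pool.Agent.W_MP_868bb7_ag.KimTensor

set_option autoImplicit false

/-!
# LawT64: the parity of the factors of a non-zero tensor product
-/

namespace Pool.Agent.W_868bb7_h64

open CategoryTheory MonoidalCategory Limits Pool.Agent.W_MP_868bb7_ag

universe v u w

section

variable (K : Type w) [Field K] [CharZero K] {C : Type u} [Category.{v} C] [MonoidalCategory C]
  [Preadditive C] [Linear K C] [MonoidalPreadditive C] [MonoidalLinear K C]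
  [SymmetricCategory C] [RightRigidCategory C] [UnitK K C]

include K in
theorem t_swap (d : Bool) {M N : C} (h : Fd d (𝟙 (M ⊗ N))) : Fd d (𝟙 (N ⊗ M)) := by
  have h1 := Fd_conj d (β_ N M).hom (𝟙 (M ⊗ N)) (β_ M N).hom h
  rwa [Category.id_comp, SymmetricCategory.symmetry] at h1

include K in
theorem t_left (d : Bool) {M N : C} (hne : ¬ IsZero (M ⊗ N)) (h : Fd d (𝟙 (M ⊗ N))) :
    ∃ b : Bool, Fd b (𝟙 M) := by
  have h2 : tr K (𝟙 N) ≠ 0 := by
    intro h3
    apply hne
    rw [IsZero.iff_id_eq_zero]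
    apply idem_zero K d _ (Category.comp_id _) h
    rw [← id_tensorHom_id, tr_tensor, h3, mul_zero]
  obtain ⟨b0, hb0⟩ := type_of_tensor K (𝟙 N) (Category.comp_id _) h2
  rw [← id_tensorHom_id] at h
  exact ⟨_, hb0 M (𝟙 M) d h⟩

include K in
theorem t_both {S : C} (hS : ¬ IsZero S) (h1 : Fd true (𝟙 S)) (h2 : Fd false (𝟙 S)) : False := by
  have h3 : tr K (𝟙 S ≫ 𝟙 S) = 0 :=
    cross K true (𝟙 S) (𝟙 S) (by rw [Category.comp_id]; exact h1)
      (by rw [Category.comp_id]; exact h2)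
  rw [Category.comp_id] at h3
  exact hS ((IsZero.iff_id_eq_zero S).2 (idem_zero K true (𝟙 S) (Category.comp_id _) h1 h3))

include K in
theorem t_law (M N : C) (hne : ¬ IsZero (M ⊗ N)) (d : Bool) :
    Fd d (𝟙 (M ⊗ N)) ↔ ∃ b c : Bool, Fd b (𝟙 M) ∧ Fd c (𝟙 N) ∧ (b == c) = d := by
  constructor
  · intro h
    obtain ⟨b, hb⟩ := t_left K d hne h
    have hne' : ¬ IsZero (N ⊗ M) := fun h0 => hne (h0.of_iso (β_ M N))
    obtain ⟨c, hc⟩ := t_left K d hne' (t_swap K d h)
    refine ⟨b, c, hb, hc, ?_⟩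
    have h1 := Fd_tensor K b c (𝟙 M) (𝟙 N) hb hc
    rw [id_tensorHom_id] at h1
    by_contra hbc
    rcases hd : d with _ | _
    · have h2 : (b == c) = true := by
        rcases hx : (b == c) with _ | _
        · exact (hbc (by rw [hx, hd])).elim
        · rfl
      rw [h2] at h1
      rw [hd] at h
      exact t_both K hne h1 h
    · have h2 : (b == c) = false := by
        rcases hx : (b == c) with _ | _
        · rfl
        · exact (hbc (by rw [hx, hd])).elim
      rw [h2] at h1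
      rw [hd] at h
      exact t_both K hne h h1
  · rintro ⟨b, c, hb, hc, rfl⟩
    have h1 := Fd_tensor K b c (𝟙 M) (𝟙 N) hb hc
    rwa [id_tensorHom_id] at h1

theorem t_even (M N : C) (hne : ¬ IsZero (M ⊗ N)) :
    EvenFD K (M ⊗ N) ↔ (EvenFD K M ∧ EvenFD K N) ∨ (OddFD K M ∧ OddFD K N) := by
  rw [← Fd_even K, t_law K M N hne true]
  simp only [← Fd_even K, ← Fd_odd K]
  constructor
  · rintro ⟨b, c, hb, hc, h⟩
    cases b <;> cases c
    · exact Or.inr ⟨hb, hc⟩
    · exact absurd h (by decide)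
    · exact absurd h (by decide)
    · exact Or.inl ⟨hb, hc⟩
  · rintro (⟨h1, h2⟩ | ⟨h1, h2⟩)
    · exact ⟨true, true, h1, h2, rfl⟩
    · exact ⟨false, false, h1, h2, rfl⟩

theorem t_odd (M N : C) (hne : ¬ IsZero (M ⊗ N)) :
    OddFD K (M ⊗ N) ↔ (EvenFD K M ∧ OddFD K N) ∨ (OddFD K M ∧ EvenFD K N) := by
  rw [← Fd_odd K, t_law K M N hne false]
  simp only [← Fd_even K, ← Fd_odd K]
  constructor
  · rintro ⟨b, c, hb, hc, h⟩
    cases b <;> cases c
    · exact absurd h (by decide)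
    · exact Or.inr ⟨hb, hc⟩
    · exact Or.inl ⟨hb, hc⟩
    · exact absurd h (by decide)
  · rintro (⟨h1, h2⟩ | ⟨h1, h2⟩)
    · exact ⟨true, false, h1, h2, rfl⟩
    · exact ⟨false, true, h1, h2, rfl⟩

end

variable (K : Type w) [Field K] [CharZero K] {C : Type u} [Category.{v} C] [MonoidalCategory C]
  [Preadditive C] [Linear K C] [MonoidalPreadditive C] [MonoidalLinear K C]
  [SymmetricCategory C] [RightRigidCategory C] [UnitK K C]
  [HasBinaryBiproducts C] [IsIdempotentComplete C]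

theorem t_kim (M N : C) (hne : ¬ IsZero (M ⊗ N)) :
    KimuraFD K (M ⊗ N) ↔ KimuraFD K M ∧ KimuraFD K N :=
  ⟨fun h => thmA K M N h hne, fun h => kimura_tensor K M N h.1 h.2⟩

end Pool.Agent.W_868bb7_h64
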