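import Pool.Agent.W_868bb7_h64.Star

set_option autoImplicit false

/-!
# NilM: the negligible endomorphisms of `M` are nilpotent

* `neg_nil_S`: `neg_nil K true D.ev D.idem D.fdt D.fdf`.
* `neg_nil_e`: for `y` negligible commuting with `D.e`, `D.i ≫ y ≫ D.p` is negligible, hence
  nilpotent, and `it (i ≫ y ≫ p) k = i ≫ y^k ≫ p` (induction, `y` commutes with `e = p ≫ i`,
  `i ≫ e = i`, `e ≫ p = p`), so `y ^ k * e = p ≫ i ≫ y^k ≫ p ≫ i = 0`.
* `comm_pow_mem` (pure algebra): let `x_1, ..., x_n` be elements of a commutative ring, `I` an ideal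
  such that for all `1 ≤ k ≤ n` some power of the elementary symmetric polynomial `e_k(x)` lies in
  `I`.  Then some power of each `x_j` lies in `I`: modulo `I` the `e_k` are nilpotent, and
  `x_j ^ n = ∑_{k=1}^n (-1)^(k+1) e_k x_j^(n-k)` (expand `∏_i (x_j - x_i) = 0`, e.g.
  `Finset.prod_X_add_C_eq_sum_esymm`, `MvPolynomial.prod_C_add_X_eq_sum_esymm` or
  `Multiset.prod_X_sub_X_eq_sum_esymm`), a sum of nilpotent elements.
* `nil_M`: `x_j = st f j`; take the commutative subring `R = Algebra.adjoin ℤ {st f j}` (or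
  `Subring.closure`) of `End (pow M n)` (`Algebra.adjoinCommRingOfComm`, `st_comm`), the ideal
  `I = {q | q * e = 0}` of `R`.  The `esymm_k (x)` for `k ≥ 1` are negligible: each product over a
  non-empty finset of strands is (`st_neg`, `Neg_comp_left`, `Neg_comp_right`, `Neg_add`); they
  commute with all `rho σ` (`rho_st`), hence with `e`; so `neg_nil_e` applies.  With
  `comm_pow_mem`, `st f j ^ N * e = 0` for all `j` (one `N`), i.e. `st (f ^ N) j * e = 0`, and `star`
  gives `f ^ N = 0`.
-/

namespace Pool.Agent.W_868bb7_h64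

open CategoryTheory MonoidalCategory Pool.Agent.W_MP_868bb7_ag

universe v u w

theorem comm_pow_mem {R : Type*} [CommRing R] {n : ℕ} (x : Fin n → R) (I : Ideal R)
    (h : ∀ k, 1 ≤ k → k ≤ n → ∃ N : ℕ,
      (∑ t ∈ (Finset.univ : Finset (Fin n)).powersetCard k, ∏ i ∈ t, x i) ^ N ∈ I) (j : Fin n) :
    ∃ N : ℕ, x j ^ N ∈ I := by
  have hn : 0 < n := lt_of_le_of_lt (Nat.zero_le _) j.isLt
  have h1 : ∀ k, 1 ≤ k → k ≤ n → IsNilpotent (Ideal.Quotient.mk I
      (∑ t ∈ (Finset.univ : Finset (Fin n)).powersetCard k, ∏ i ∈ t, x i)) := by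
    intro k hk hk2
    obtain ⟨N, hN⟩ := h k hk hk2
    exact ⟨N, by rw [← map_pow]; exact Ideal.Quotient.eq_zero_iff_mem.2 hN⟩
  have h2 : ∏ i : Fin n, (-(x i) + x j) = 0 :=
    Finset.prod_eq_zero (Finset.mem_univ j) (by ring)
  rw [Finset.prod_add, Finset.sum_powerset, Finset.card_univ, Fintype.card_fin,
    Finset.sum_range_succ'] at h2
  have h3 : ∀ k, ∑ t ∈ Finset.powersetCard k (Finset.univ : Finset (Fin n)),
      ((∏ i ∈ t, -(x i)) * ∏ i ∈ Finset.univ \ t, x j) =
      (-1) ^ k * x j ^ (n - k) *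
        ∑ t ∈ (Finset.univ : Finset (Fin n)).powersetCard k, ∏ i ∈ t, x i := by
    intro k
    rw [Finset.mul_sum]
    refine Finset.sum_congr rfl fun t ht => ?_
    have hc := (Finset.mem_powersetCard.1 ht).2
    rw [Finset.prod_const, Finset.card_sdiff_of_subset (Finset.subset_univ t), Finset.card_univ,
      Fintype.card_fin, hc, Finset.prod_neg, hc]
    ring
  have h4 : ∑ t ∈ Finset.powersetCard 0 (Finset.univ : Finset (Fin n)),
      ((∏ i ∈ t, -(x i)) * ∏ i ∈ Finset.univ \ t, x j) = x j ^ n := by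
    rw [h3 0]
    simp
  rw [h4] at h2
  have h5 : IsNilpotent (Ideal.Quotient.mk I (x j ^ n)) := by
    have h6 : x j ^ n = -∑ k ∈ Finset.range n,
        ∑ t ∈ Finset.powersetCard (k + 1) (Finset.univ : Finset (Fin n)),
          ((∏ i ∈ t, -(x i)) * ∏ i ∈ Finset.univ \ t, x j) := by
      rw [eq_neg_iff_add_eq_zero, add_comm]
      exact h2
    rw [h6, map_neg, isNilpotent_neg_iff, map_sum]
    refine isNilpotent_sum fun k hk => ?_
    rw [h3, map_mul]
    exact Commute.isNilpotent_mul_left (Commute.all _ _)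
      (h1 (k + 1) (by omega) (by have := Finset.mem_range.1 hk; omega))
  obtain ⟨N, hN⟩ := h5
  refine ⟨n * N, ?_⟩
  rw [← map_pow, ← pow_mul] at hN
  exact Ideal.Quotient.eq_zero_iff_mem.1 hN

variable {K : Type w} [Field K] [CharZero K] {C : Type u} [Category.{v} C] [MonoidalCategory C]
  [Preadditive C] [Linear K C] [MonoidalPreadditive C] [MonoidalLinear K C]
  [SymmetricCategory C] [RightRigidCategory C] [UnitK K C]

theorem neg_nil_S {M : C} {n : ℕ} (D : Cut K M n) (f : D.S ⟶ D.S) (hf : Neg K f) :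
    ∃ k, it f k = 0 := by
  exact neg_nil K true D.ev D.idem D.fdt D.fdf f hf

theorem neg_nil_e {M : C} {n : ℕ} (D : Cut K M n) (y : End (pow M n)) (hy : Commute y D.e)
    (hn : Neg K (show pow M n ⟶ pow M n from y)) : ∃ k : ℕ, y ^ k * D.e = 0 := by
  have h1 : Neg K (D.i ≫ (show pow M n ⟶ pow M n from y) ≫ D.p) :=
    Neg_comp_left K _ _ (Neg_comp_right K _ _ hn)
  obtain ⟨k, hk⟩ := neg_nil_S D _ h1
  -- `it (i ≫ y ≫ p) k = i ≫ y ^ k ≫ p`
  have hcomm : ∀ m : ℕ, Commute (y ^ m) D.e := fun m => hy.pow_left m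
  have hie : D.i ≫ (show pow M n ⟶ pow M n from D.e) = D.i := by
    change D.i ≫ (D.p ≫ D.i) = D.i
    rw [← Category.assoc, D.hip, Category.id_comp]
  have h2 : ∀ m : ℕ, it (D.i ≫ (show pow M n ⟶ pow M n from y) ≫ D.p) m =
      D.i ≫ (show pow M n ⟶ pow M n from (y ^ m : End (pow M n))) ≫ D.p := by
    intro m
    induction m with
    | zero =>
      change 𝟙 D.S = D.i ≫ 𝟙 (pow M n) ≫ D.p
      rw [Category.id_comp, D.hip]
    | succ m ih =>
      change (D.i ≫ (show pow M n ⟶ pow M n from y) ≫ D.p) ≫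
        it (D.i ≫ (show pow M n ⟶ pow M n from y) ≫ D.p) m = _
      rw [ih]
      have e1 : (D.i ≫ (show pow M n ⟶ pow M n from y) ≫ D.p) ≫ D.i ≫
          (show pow M n ⟶ pow M n from (y ^ m : End (pow M n))) ≫ D.p =
          D.i ≫ (show pow M n ⟶ pow M n from (y ^ m * (D.e * y) : End (pow M n))) ≫ D.p := by
        change _ = D.i ≫ (((show pow M n ⟶ pow M n from y) ≫ (D.p ≫ D.i)) ≫
          (show pow M n ⟶ pow M n from (y ^ m : End (pow M n)))) ≫ D.p
        simp only [Category.assoc]
      have e2 : (y ^ m * (D.e * y) : End (pow M n)) = y ^ (m + 1) * D.e := by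
        rw [← hy.eq, ← mul_assoc, ← pow_succ]
      have e3 : D.i ≫ (show pow M n ⟶ pow M n from (y ^ (m + 1) * D.e : End (pow M n))) ≫ D.p =
          (D.i ≫ (show pow M n ⟶ pow M n from D.e)) ≫
            (show pow M n ⟶ pow M n from (y ^ (m + 1) : End (pow M n))) ≫ D.p := by
        change D.i ≫ ((show pow M n ⟶ pow M n from D.e) ≫
          (show pow M n ⟶ pow M n from (y ^ (m + 1) : End (pow M n)))) ≫ D.p = _
        simp only [Category.assoc]
      rw [e1, e2, e3, hie]
  refine ⟨k, ?_⟩
  have h3 : D.i ≫ (show pow M n ⟶ pow M n from (y ^ k : End (pow M n))) ≫ D.p = 0 := by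
    rw [← h2, hk]
  have h4 : (y ^ k * D.e : End (pow M n)) = D.e * (y ^ k * D.e) := by
    rw [← mul_assoc, ← (hcomm k).eq, mul_assoc, D.e_mul]
  rw [h4]
  change ((D.p ≫ D.i) ≫ (show pow M n ⟶ pow M n from (y ^ k : End (pow M n)))) ≫
    (D.p ≫ D.i) = 0
  have h5 : ((D.p ≫ D.i) ≫ (show pow M n ⟶ pow M n from (y ^ k : End (pow M n)))) ≫
      (D.p ≫ D.i) = D.p ≫ (D.i ≫ (show pow M n ⟶ pow M n from (y ^ k : End (pow M n))) ≫
        D.p) ≫ D.i := by
    simp only [Category.assoc]
  rw [h5, h3, Limits.zero_comp, Limits.comp_zero]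

/-- `f` on the strands in `t` -/
def NilMpr {C : Type u} [Category.{v} C] [MonoidalCategory C] {X : C} {n : ℕ} (f : End X)
    (t : Finset (Fin n)) : End (pow X n) :=
  pm X n (fun i => if i ∈ t then f else 1)

theorem NilMpr_empty {C : Type u} [Category.{v} C] [MonoidalCategory C] {X : C} {n : ℕ}
    (f : End X) : NilMpr f (∅ : Finset (Fin n)) = 1 := by
  unfold NilMpr
  have h : (fun i : Fin n => if i ∈ (∅ : Finset (Fin n)) then f else 1) = 1 := by
    funext i
    simp
  rw [h, map_one]

theorem NilMpr_insert {C : Type u} [Category.{v} C] [MonoidalCategory C] {X : C} {n : ℕ}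
    (f : End X) (a : Fin n) (t : Finset (Fin n)) (ha : a ∉ t) :
    NilMpr f (insert a t) = st f a * NilMpr f t := by
  unfold NilMpr st
  rw [← map_mul]
  congr 1
  funext i
  rw [Pi.mul_apply]
  by_cases h : i = a
  · subst h
    simp [ha]
  · simp [h]

theorem NilMst_pow {C : Type u} [Category.{v} C] [MonoidalCategory C] {X : C} {n : ℕ}
    (f : End X) (a : Fin n) (k : ℕ) : st (f ^ k) a = st f a ^ k := by
  induction k with
  | zero => rw [pow_zero, pow_zero, st_one]
  | succ k ih => rw [pow_succ, pow_succ, st_mul, ih]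

theorem NilMrho_pr {C : Type u} [Category.{v} C] [MonoidalCategory C] [SymmetricCategory C]
    {X : C} {n : ℕ} (σ : Equiv.Perm (Fin n)) (f : End X) (t : Finset (Fin n)) :
    rho X n σ * NilMpr f t = NilMpr f (t.map σ.toEmbedding) * rho X n σ := by
  unfold NilMpr
  rw [rho_pm]
  congr 2
  funext i
  have h : i ∈ t.map σ.toEmbedding ↔ σ.symm i ∈ t := by
    rw [Finset.mem_map_equiv]
  simp only [Function.comp, h]

/-- negligible endomorphisms of `M` are nilpotent -/
theorem nil_M {M : C} {n : ℕ} (hn : 1 ≤ n) (D : Cut K M n) (f : M ⟶ M) (hf : Neg K f) :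
    ∃ k, it f k = 0 := by
  classical
  obtain ⟨x, hx⟩ : ∃ x : Fin n → End (pow M n), x = fun j => st (show End M from f) j := ⟨_, rfl⟩
  have hcomm : ∀ a ∈ Set.range x, ∀ b ∈ Set.range x, a * b = b * a := by
    rintro _ ⟨i, rfl⟩ _ ⟨j, rfl⟩
    by_cases hij : i = j
    · rw [hij]
    · rw [hx]
      exact (st_comm _ _ i j hij).eq
  have hxj : ∀ j, x j = st (show End M from f) j := fun j => by rw [hx]
  letI : CommRing (Algebra.adjoin ℤ (Set.range x)) := Algebra.adjoinCommRingOfComm ℤ hcomm
  obtain ⟨x', hx'⟩ : ∃ x' : Fin n → Algebra.adjoin ℤ (Set.range x),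
      ∀ j, (x' j : End (pow M n)) = x j :=
    ⟨fun j => ⟨x j, Algebra.subset_adjoin ⟨j, rfl⟩⟩, fun j => rfl⟩
  let I : Ideal (Algebra.adjoin ℤ (Set.range x)) :=
    { carrier := {q | (q : End (pow M n)) * D.e = 0}
      add_mem' := by
        intro a b ha hb
        change ((a : End (pow M n)) + (b : End (pow M n))) * D.e = 0
        rw [add_mul, ha, hb, add_zero]
      zero_mem' := by
        change (0 : End (pow M n)) * D.e = 0
        rw [zero_mul]
      smul_mem' := by
        intro a b hb
        change ((a : End (pow M n)) * (b : End (pow M n))) * D.e = 0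
        rw [mul_assoc, hb, mul_zero] }
  have hI : ∀ q : Algebra.adjoin ℤ (Set.range x), q ∈ I ↔ (q : End (pow M n)) * D.e = 0 :=
    fun q => Iff.rfl
  -- coercions
  have hpow : ∀ (q : Algebra.adjoin ℤ (Set.range x)) (N : ℕ),
      ((q ^ N : Algebra.adjoin ℤ (Set.range x)) : End (pow M n)) = (q : End (pow M n)) ^ N := by
    intro q N
    induction N with
    | zero => rw [pow_zero, pow_zero]; rfl
    | succ N ih => rw [pow_succ, pow_succ, ← ih]; rfl
  have hprod : ∀ t : Finset (Fin n),
      ((∏ i ∈ t, x' i : Algebra.adjoin ℤ (Set.range x)) : End (pow M n)) =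
        NilMpr (show End M from f) t := by
    intro t
    induction t using Finset.induction_on with
    | empty => rw [Finset.prod_empty, NilMpr_empty]; rfl
    | insert a t ha ih =>
      rw [Finset.prod_insert ha, NilMpr_insert _ _ _ ha, ← ih]
      change (x' a : End (pow M n)) * _ = _
      rw [hx' a, hxj a]
  have hsum : ∀ s : Finset (Finset (Fin n)),
      ((∑ t ∈ s, ∏ i ∈ t, x' i : Algebra.adjoin ℤ (Set.range x)) : End (pow M n)) =
        ∑ t ∈ s, NilMpr (show End M from f) t := by
    intro s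
    induction s using Finset.induction_on with
    | empty => rw [Finset.sum_empty, Finset.sum_empty]; rfl
    | insert a t ha ih =>
      rw [Finset.sum_insert ha, Finset.sum_insert ha, ← ih, ← hprod a]
      rfl
  have key := comm_pow_mem x' I (by
    intro k hk _
    suffices hs : ∃ N : ℕ, (∑ t ∈ (Finset.univ : Finset (Fin n)).powersetCard k,
        NilMpr (show End M from f) t) ^ N * D.e = 0 by
      obtain ⟨N, hN⟩ := hs
      exact ⟨N, by rw [hI, hpow, hsum]; exact hN⟩
    apply neg_nil_e
    · -- commutes with `e`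
      have hσ : ∀ σ : Equiv.Perm (Fin n),
          Commute (∑ t ∈ (Finset.univ : Finset (Fin n)).powersetCard k,
            NilMpr (show End M from f) t) (rho M n σ) := by
        intro σ
        change _ * _ = _ * _
        rw [Finset.mul_sum, Finset.sum_mul]
        symm
        refine Finset.sum_nbij' (fun t => t.map σ.toEmbedding)
          (fun t => t.map σ.symm.toEmbedding) ?_ ?_ ?_ ?_ ?_
        · intro t ht
          rw [Finset.mem_powersetCard] at ht ⊢
          exact ⟨Finset.subset_univ _, by rw [Finset.card_map]; exact ht.2⟩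
        · intro t ht
          rw [Finset.mem_powersetCard] at ht ⊢
          exact ⟨Finset.subset_univ _, by rw [Finset.card_map]; exact ht.2⟩
        · intro t _
          ext i
          simp [Finset.mem_map_equiv]
        · intro t _
          ext i
          simp [Finset.mem_map_equiv]
        · intro t _
          exact NilMrho_pr σ _ t
      rw [D.e_eq]
      refine Commute.sum_right _ _ _ fun σ _ => ?_
      exact (hσ σ).smul_right (D.a σ)
    · -- negligible
      have h0 : ∀ s : Finset (Finset (Fin n)), (∀ t ∈ s, t.Nonempty) →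
          Neg K (show pow M n ⟶ pow M n from
            (∑ t ∈ s, NilMpr (show End M from f) t : End (pow M n))) := by
        intro s
        induction s using Finset.induction_on with
        | empty =>
          intro _
          rw [Finset.sum_empty]
          exact Neg_zero K
        | insert a t ha ih =>
          intro h
          rw [Finset.sum_insert ha]
          refine Neg_add K _ _ ?_ (ih fun u hu => h u (Finset.mem_insert_of_mem hu))
          obtain ⟨b, hb⟩ := h a (Finset.mem_insert_self _ _)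
          have h1 : NilMpr (show End M from f) a =
              st (show End M from f) b * NilMpr (show End M from f) (a.erase b) := by
            rw [← NilMpr_insert _ _ _ (Finset.notMem_erase b a), Finset.insert_erase hb]
          rw [h1]
          exact Neg_comp_left K _ _ (st_neg K f hf b)
      refine h0 _ fun t ht => ?_
      rw [Finset.mem_powersetCard] at ht
      rw [← Finset.card_pos, ht.2]
      omega)
  choose N hN using key
  obtain ⟨L, hL⟩ : ∃ L : ℕ, ∀ j, N j ≤ L :=
    ⟨∑ j, N j, fun j => Finset.single_le_sum (f := N) (fun _ _ => Nat.zero_le _)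
      (Finset.mem_univ j)⟩
  refine ⟨L, ?_⟩
  rw [it_eq_pow]
  refine star hn D _ fun j => ?_
  have h1 := hN j
  rw [hI, hpow, hx' j, hxj] at h1
  have h2 : st (show End M from f) j ^ L * D.e = 0 := by
    have h3 : L = (L - N j) + N j := (Nat.sub_add_cancel (hL j)).symm
    rw [h3, pow_add, mul_assoc, h1, mul_zero]
  rw [← NilMst_pow] at h2
  exact h2

end Pool.Agent.W_868bb7_h64
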