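import Pool.Agent.W_868bb7_h64.QFun

set_option autoImplicit false

/-!
# QCut: the data in the quotient category
-/

namespace Pool.Agent.W_868bb7_h64

open CategoryTheory MonoidalCategory Pool.Agent.W_MP_868bb7_ag Pool.Agent.W_MP_868bb7_h79

universe v u w

variable {K : Type w} [Field K] {C : Type u} [Category.{v} C]
  [Preadditive C] [Linear K C] [MonoidalCategory C] [MonoidalPreadditive C] [MonoidalLinear K C]
  [SymmetricCategory C] [RightRigidCategory C] [UnitK K C]

theorem QF_map_zero_iff {X Y : C} (f : X ⟶ Y) : (QF K C).map f = 0 ↔ Neg K f := by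
  change qm K f = qm K 0 ↔ _
  rw [qm_eq, sub_zero]

theorem neg_of_fd_QF (b : Bool) {M : C} (v : M ⟶ M) (h : Fd b ((QF K C).map v)) :
    ∃ k, 1 ≤ k ∧ Neg K (powMap v k ≫ E b M k) := by
  obtain ⟨k, hk, h⟩ := h
  refine ⟨k, hk, ?_⟩
  rw [← tP_E, tP_map, ← Functor.map_comp, QF_map_zero_iff] at h
  exact h

/-- the image of the data in the quotient category -/
def Cut.quot [CharZero K] {M : C} {n : ℕ} (D : Cut K M n) :
    Cut K (C := QN K C) ((QF K C).obj M) n where
  S := (QF K C).obj D.S
  i := (QF K C).map D.i ≫ (pI (QF K C) M n).hom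
  p := (pI (QF K C) M n).inv ≫ (QF K C).map D.p
  hip := by
    rw [Category.assoc, Iso.hom_inv_id_assoc, ← Functor.map_comp, D.hip, CategoryTheory.Functor.map_id]
  a := D.a
  hpi := by
    have h : (QF K C).map (D.p ≫ D.i) ≫ (pI (QF K C) M n).hom =
        (pI (QF K C) M n).hom ≫ ∑ σ, D.a σ • act ((QF K C).obj M) n σ := by
      rw [D.hpi, Functor.map_sum, Preadditive.sum_comp, Preadditive.comp_sum]
      refine Finset.sum_congr rfl fun σ _ => ?_
      rw [Functor.map_smul, Linear.smul_comp, Linear.comp_smul, act_F]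
    rw [Category.assoc, Iso.inv_comp_eq, ← Category.assoc, ← Functor.map_comp]
    exact h
  ev := (QF K C).map D.ev
  idem := by
    rw [← Functor.map_comp, D.idem]
  fdt := Fd_F (QF K C) true D.ev D.fdt
  fdf := by
    have h := Fd_F (QF K C) false _ D.fdf
    rw [Functor.map_sub, CategoryTheory.Functor.map_id] at h
    exact h
  ne := by
    intro h
    rw [← CategoryTheory.Functor.map_id, QF_map_zero_iff] at h
    obtain ⟨s, hs⟩ := D.exists_tr
    apply hs
    have h1 := h s
    rwa [Category.id_comp] at h1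

end Pool.Agent.W_868bb7_h64
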