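import Pool.Agent.W_868bb7_h64.CaseA
import Pool.Agent.W_868bb7_h64.Exact
import Pool.Agent.W_868bb7_h64.NilM
import Pool.Agent.W_868bb7_h64.QCut

set_option autoImplicit false

/-!
# Main: if a non-zero object cut out of `M^{⊗ n}` by the group algebra is Kimura-finite then so is `M`
-/

namespace Pool.Agent.W_868bb7_h64

open CategoryTheory MonoidalCategory Limits Pool.Agent.W_MP_868bb7_ag
  Pool.Agent.W_MP_868bb7_h79

universe v u w

variable {K : Type w} [Field K] [CharZero K] {C : Type u} [Category.{v} C] [MonoidalCategory C]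
  [Preadditive C] [Linear K C] [MonoidalPreadditive C] [MonoidalLinear K C]
  [SymmetricCategory C] [RightRigidCategory C] [UnitK K C]
  [HasBinaryBiproducts C] [IsIdempotentComplete C]

theorem main_cut {M : C} {m : ℕ} (D : Cut K M (m + 1)) : KimuraFD K M := by
  obtain ⟨ub, hub, h1, h2⟩ := N0 (K := K) (C := QN K C) (fun f hf => neg_zero_QN K f hf) D.quot
  obtain ⟨u', rfl⟩ : ∃ u' : M ⟶ M, (qm K u' : (QF K C).obj M ⟶ (QF K C).obj M) = ub :=
    qh_surj K ub
  have hneg : Neg K (u' ≫ u' - u') := (qm_eq K (u' ≫ u') u').1 hub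
  obtain ⟨k, hk⟩ := nil_M (by omega) D (u' ≫ u' - u') hneg
  obtain ⟨u, hu, hu'⟩ := lift_proj K u' hneg k hk
  have e1 : (QF K C).map u = (qm K u' : (QF K C).obj M ⟶ (QF K C).obj M) :=
    (qm_eq K u u').2 hu'
  have e2 : (QF K C).map (𝟙 M - u) =
      𝟙 ((QF K C).obj M) - (qm K u' : (QF K C).obj M ⟶ (QF K C).obj M) := by
    rw [Functor.map_sub, CategoryTheory.Functor.map_id, e1]
  have f1 : Fd true u := by
    obtain ⟨k, hk, h3⟩ := neg_of_fd_QF (K := K) true u (by rw [e1]; exact h1)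
    exact ⟨k, hk, exact_of_neg (by omega) D u hu true k h3⟩
  have hc : (𝟙 M - u) ≫ (𝟙 M - u) = 𝟙 M - u := by
    simp only [Preadditive.comp_sub, Preadditive.sub_comp, hu, Category.id_comp,
      Category.comp_id]
    abel
  have f2 : Fd false (𝟙 M - u) := by
    obtain ⟨k, hk, h3⟩ := neg_of_fd_QF (K := K) false (𝟙 M - u) (by rw [e2]; exact h2)
    exact ⟨k, hk, exact_of_neg (by omega) D (𝟙 M - u) hc false k h3⟩
  exact kimura_of_idem K u hu f1 f2

variable (K) in
theorem main_iff (M S : C) (n : ℕ) (hn : 1 ≤ n) (a : Equiv.Perm (Fin n) → K)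
    (i : S ⟶ pow M n) (p : pow M n ⟶ S) (hip : i ≫ p = 𝟙 S)
    (hpi : p ≫ i = ∑ σ, a σ • act M n σ) (hS : ¬ IsZero S) :
    KimuraFD K M ↔ KimuraFD K S := by
  constructor
  · intro h
    exact kimura_retract K (kimura_pow K M h n) i p hip
  · intro h
    obtain ⟨m, rfl⟩ : ∃ m, n = m + 1 := ⟨n - 1, by omega⟩
    obtain ⟨e, he, h1, h2⟩ := idem_of_kimura K h
    exact main_cut (K := K) ⟨S, i, p, hip, a, hpi, e, he, h1, h2,
      fun h0 => hS ((IsZero.iff_id_eq_zero S).2 h0)⟩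

end Pool.Agent.W_868bb7_h64
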