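import Pool.Agent.W_868bb7_h64.Main

set_option autoImplicit false

/-!
# PureA: if a non-zero object cut out of `M^{⊗ n}` is evenly or oddly finite-dimensional, so is `M`
-/

namespace Pool.Agent.W_868bb7_h64

open CategoryTheory MonoidalCategory Limits Pool.Agent.W_MP_868bb7_ag
  Pool.Agent.W_MP_868bb7_h79

universe v u w

section

variable {K : Type w} [Field K] [CharZero K] {C : Type u} [Category.{v} C] [MonoidalCategory C]
  [Preadditive C] [Linear K C] [MonoidalPreadditive C] [MonoidalLinear K C]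
  [SymmetricCategory C] [RightRigidCategory C] [UnitK K C]

/-- no morphisms from an odd to an even object -/
theorem pure_zero (hN : NegZero K C) {X Y : C} (q : X ⟶ X) (f : X ⟶ Y) (hq : Fd false q)
    (hY : Fd true (𝟙 Y)) : q ≫ f = 0 := by
  apply hN
  intro g
  refine cross K false (q ≫ f) g ?_ ?_
  · have h := Fd_conj false (𝟙 X) q (f ≫ g) hq
    rwa [Category.id_comp, ← Category.assoc] at h
  · have h := Fd_conj true (𝟙 Y) (𝟙 Y) (g ≫ q ≫ f) hY
    rwa [Category.id_comp, Category.id_comp] at h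

theorem W_pure (hN : NegZero K C) {M : C} {m : ℕ} (D : Cut K M (m + 1)) (hZ : Zc D ≠ 0)
    (b : Bool) (hb : Fd b (𝟙 D.S)) : Fd true (𝟙 (M ⊗ Mᘁ)) := by
  obtain ⟨e, he, h1, h2⟩ := W_kim hN D hZ
  have hY : Fd true (𝟙 (D.S ⊗ D.Sᘁ)) := by
    have h3 := Fd_dual b (𝟙 D.S) hb
    rw [rightAdjointMate_id] at h3
    have h4 := Fd_tensor K b b (𝟙 D.S) (𝟙 D.Sᘁ) hb h3
    rw [id_tensorHom_id] at h4
    have h5 : (b == b) = true := by cases b <;> rfl
    rwa [h5] at h4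
  have hq : 𝟙 (M ⊗ Mᘁ) - e = 0 :=
    zero_of_zero hN D hZ _ (pure_zero hN _ _ h2 hY) (pure_zero hN _ _ h2 (unit_Fd (K := K)))
  rw [sub_eq_zero.1 hq]
  exact h1

theorem cut_W_ne {M : C} {m : ℕ} (D : Cut K M (m + 1)) : 𝟙 (M ⊗ Mᘁ) ≠ 0 := by
  intro h0
  have hη : η_ M Mᘁ = 0 := by
    rw [← Category.comp_id (η_ M Mᘁ), h0, Limits.comp_zero]
  have hz : (λ_ M).hom ≫ (ρ_ M).inv = 0 := by
    rw [← ExactPairing.evaluation_coevaluation M Mᘁ, hη, MonoidalPreadditive.zero_whiskerRight,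
      Limits.zero_comp]
  have hM : 𝟙 M = 0 := by
    have h3 : 𝟙 M = (λ_ M).inv ≫ ((λ_ M).hom ≫ (ρ_ M).inv) ≫ (ρ_ M).hom := by simp
    rw [h3, hz, Limits.zero_comp, Limits.comp_zero]
  have hP : 𝟙 (pow M (m + 1)) = 0 := by
    change 𝟙 (M ⊗ pow M m) = 0
    rw [← id_whiskerRight, hM, MonoidalPreadditive.zero_whiskerRight]
  apply D.ne
  rw [← D.hip, ← Category.comp_id D.i, hP, Limits.comp_zero, Limits.zero_comp]

theorem N0_pure (hN : NegZero K C) {M : C} {m : ℕ} (D : Cut K M (m + 1)) (b : Bool)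
    (hb : Fd b (𝟙 D.S)) : ∃ b' : Bool, Fd b' (𝟙 M) := by
  by_cases hZ : Zc D = 0
  · exact caseB D hZ
  · have h1 := W_pure hN D hZ b hb
    have h2 : tr K (𝟙 Mᘁ) ≠ 0 := by
      intro h3
      apply cut_W_ne D
      apply idem_zero K true _ (Category.comp_id _) h1
      rw [← id_tensorHom_id, tr_tensor, h3, mul_zero]
    obtain ⟨b0, hb0⟩ := type_of_tensor K (𝟙 Mᘁ) (Category.comp_id _) h2
    rw [← id_tensorHom_id] at h1
    exact ⟨_, hb0 M (𝟙 M) true h1⟩

end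

variable {K : Type w} [Field K] [CharZero K] {C : Type u} [Category.{v} C] [MonoidalCategory C]
  [Preadditive C] [Linear K C] [MonoidalPreadditive C] [MonoidalLinear K C]
  [SymmetricCategory C] [RightRigidCategory C] [UnitK K C]
  [HasBinaryBiproducts C] [IsIdempotentComplete C]

theorem main_pure {M : C} {m : ℕ} (D : Cut K M (m + 1)) (b : Bool) (hb : Fd b (𝟙 D.S)) :
    ∃ b' : Bool, Fd b' (𝟙 M) := by
  have hb2 : Fd b (𝟙 D.quot.S) := by
    have h := Fd_F (QF K C) b _ hb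
    rwa [CategoryTheory.Functor.map_id] at h
  obtain ⟨b', hb'⟩ := N0_pure (K := K) (C := QN K C) (fun f hf => neg_zero_QN K f hf) D.quot b hb2
  obtain ⟨k, hk, h3⟩ := neg_of_fd_QF (K := K) b' (𝟙 M)
    (by rw [CategoryTheory.Functor.map_id]; exact hb')
  exact ⟨b', k, hk, exact_of_neg (by omega) D (𝟙 M) (Category.comp_id _) b' k h3⟩

include K in
theorem pow_pure (b : Bool) {M : C} (h : Fd b (𝟙 M)) (n : ℕ) : ∃ b' : Bool, Fd b' (𝟙 (pow M n)) := by
  induction n with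
  | zero => exact ⟨true, unit_Fd (K := K)⟩
  | succ n ih =>
    obtain ⟨b', h'⟩ := ih
    refine ⟨b == b', ?_⟩
    have h1 := Fd_tensor K b b' (𝟙 M) (𝟙 (pow M n)) h h'
    rw [id_tensorHom_id] at h1
    exact h1

variable (K) in
theorem pure_iff (M S : C) (n : ℕ) (hn : 1 ≤ n) (a : Equiv.Perm (Fin n) → K)
    (i : S ⟶ pow M n) (p : pow M n ⟶ S) (hip : i ≫ p = 𝟙 S)
    (hpi : p ≫ i = ∑ σ, a σ • act M n σ) (hS : ¬ IsZero S) :
    (EvenFD K M ∨ OddFD K M) ↔ (EvenFD K S ∨ OddFD K S) := by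
  constructor
  · intro h
    obtain ⟨b, hb⟩ : ∃ b, Fd b (𝟙 M) := by
      rcases h with h | h
      · exact ⟨true, (Fd_even K M).2 h⟩
      · exact ⟨false, (Fd_odd K M).2 h⟩
    obtain ⟨b', hb'⟩ := pow_pure (K := K) b hb n
    have h1 := Fd_conj b' i (𝟙 (pow M n)) p hb'
    rw [Category.id_comp, hip] at h1
    cases b'
    · exact Or.inr ((Fd_odd K S).1 h1)
    · exact Or.inl ((Fd_even K S).1 h1)
  · intro h
    obtain ⟨m, rfl⟩ : ∃ m, n = m + 1 := ⟨n - 1, by omega⟩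
    obtain ⟨b, hb⟩ : ∃ b, Fd b (𝟙 S) := by
      rcases h with h | h
      · exact ⟨true, (Fd_even K S).2 h⟩
      · exact ⟨false, (Fd_odd K S).2 h⟩
    have hK : KimuraFD K S := by
      cases b
      · exact kimura_odd K S hb
      · exact kimura_even K S hb
    obtain ⟨e, he, h1, h2⟩ := idem_of_kimura K hK
    obtain ⟨b', hb'⟩ := main_pure (K := K) (M := M) (m := m) ⟨S, i, p, hip, a, hpi, e, he, h1, h2,
      fun h0 => hS ((IsZero.iff_id_eq_zero S).2 h0)⟩ b hb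
    cases b'
    · exact Or.inr ((Fd_odd K M).1 hb')
    · exact Or.inl ((Fd_even K M).1 hb')

end Pool.Agent.W_868bb7_h64
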