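import Pool.Agent.W_868bb7_h64.Base
import Pool.Agent.W_MP_868bb7_h79.Tr

set_option autoImplicit false

/-!
# QCat: the quotient of a rigid tensor category by the negligible morphisms
-/

namespace Pool.Agent.W_868bb7_h64

open CategoryTheory MonoidalCategory Pool.Agent.W_MP_868bb7_ag

universe v u w

/-- the quotient category: the objects -/
structure QN (K : Type w) (C : Type u) where
  /-- the underlying object -/
  un : C

variable (K : Type w) [Field K] {C : Type u} [Category.{v} C]
  [Preadditive C] [Linear K C] [MonoidalCategory C] [MonoidalPreadditive C] [MonoidalLinear K C]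
  [SymmetricCategory C] [RightRigidCategory C] [UnitK K C]

/-- negligible morphisms -/
def negS (X Y : C) : Submodule K (X ⟶ Y) where
  carrier := {f | Neg K f}
  add_mem' {f g} hf hg := fun h => by
    rw [Preadditive.add_comp, tr_add, hf h, hg h, add_zero]
  zero_mem' := fun h => by
    rw [Limits.zero_comp, tr_zero]
  smul_mem' a f hf := fun h => by
    rw [Linear.smul_comp, tr_smul, hf h, mul_zero]

theorem mem_negS {X Y : C} (f : X ⟶ Y) : f ∈ negS K X Y ↔ Neg K f := Iff.rfl

theorem neg_l {X Y Z : C} (f : X ⟶ Y) (g : Y ⟶ Z) (h : Neg K g) : Neg K (f ≫ g) := by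
  intro u
  rw [Category.assoc, tr_comp_comm, Category.assoc]
  exact h _

theorem neg_r {X Y Z : C} (f : X ⟶ Y) (g : Y ⟶ Z) (h : Neg K f) : Neg K (f ≫ g) := by
  intro u
  rw [Category.assoc]
  exact h _

/-- morphisms modulo negligible ones -/
abbrev QHom (X Y : C) : Type v := (X ⟶ Y) ⧸ negS K X Y

/-- class of a morphism -/
def qm {X Y : C} (f : X ⟶ Y) : QHom K X Y := Submodule.Quotient.mk f

theorem qm_eq {X Y : C} (f g : X ⟶ Y) : qm K f = qm K g ↔ Neg K (f - g) :=
  Submodule.Quotient.eq _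

theorem qm_surj {X Y : C} (f : QHom K X Y) : ∃ g : X ⟶ Y, qm K g = f :=
  Submodule.Quotient.mk_surjective _ f

/-- a map on morphisms that respects congruence -/
def qlift {X Y X' Y' : C} (F : (X ⟶ Y) → (X' ⟶ Y'))
    (hF : ∀ f g : X ⟶ Y, Neg K (f - g) → Neg K (F f - F g)) : QHom K X Y → QHom K X' Y' :=
  Quotient.map (sa := (negS K X Y).quotientRel) (sb := (negS K X' Y').quotientRel) F
    (fun f g h => (Submodule.quotientRel_def _).2 (hF f g ((Submodule.quotientRel_def _).1 h)))

/-- a map in two variables on morphisms that respects congruence -/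
def qlift₂ {X Y X' Y' X'' Y'' : C} (F : (X ⟶ Y) → (X' ⟶ Y') → (X'' ⟶ Y''))
    (h1 : ∀ (f g : X ⟶ Y) (h : X' ⟶ Y'), Neg K (f - g) → Neg K (F f h - F g h))
    (h2 : ∀ (f : X ⟶ Y) (g h : X' ⟶ Y'), Neg K (g - h) → Neg K (F f g - F f h)) :
    QHom K X Y → QHom K X' Y' → QHom K X'' Y'' :=
  Quotient.map₂ (sa := (negS K X Y).quotientRel) (sb := (negS K X' Y').quotientRel)
    (sc := (negS K X'' Y'').quotientRel) F
    (fun f f' hf g g' hg => (Submodule.quotientRel_def _).2 (by
      have e : F f g - F f' g' = (F f g - F f' g) + (F f' g - F f' g') := by abel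
      rw [e]
      exact (negS K X'' Y'').add_mem (h1 f f' g ((Submodule.quotientRel_def _).1 hf))
        (h2 f' g g' ((Submodule.quotientRel_def _).1 hg))))

instance instCatQN : Category (QN K C) where
  Hom X Y := QHom K X.un Y.un
  id X := qm K (𝟙 X.un)
  comp {X Y Z} := qlift₂ K (fun f g => f ≫ g)
    (fun f g h hfg => by
      rw [← Preadditive.sub_comp]
      exact neg_r K _ _ hfg)
    (fun f g h hgh => by
      rw [← Preadditive.comp_sub]
      exact neg_l K _ _ hgh)
  id_comp {X Y} f := by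
    obtain ⟨f, rfl⟩ := qm_surj K f
    exact congrArg (qm K) (Category.id_comp f)
  comp_id {X Y} f := by
    obtain ⟨f, rfl⟩ := qm_surj K f
    exact congrArg (qm K) (Category.comp_id f)
  assoc {W X Y Z} f g h := by
    obtain ⟨f, rfl⟩ := qm_surj K f
    obtain ⟨g, rfl⟩ := qm_surj K g
    obtain ⟨h, rfl⟩ := qm_surj K h
    exact congrArg (qm K) (Category.assoc f g h)

/-- class of a morphism, as a morphism of the quotient category -/
def qh {X Y : C} (f : X ⟶ Y) : (QN.mk X : QN K C) ⟶ QN.mk Y := qm K f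

theorem qh_eq {X Y : C} (f g : X ⟶ Y) : qh K f = qh K g ↔ Neg K (f - g) := qm_eq K f g

theorem qh_surj {X Y : QN K C} (f : X ⟶ Y) : ∃ g : X.un ⟶ Y.un, (qm K g : X ⟶ Y) = f :=
  qm_surj K f

instance instPreQN : Preadditive (QN K C) where
  homGroup X Y := (inferInstance : AddCommGroup (QHom K X.un Y.un))
  add_comp X Y Z f f' g := by
    obtain ⟨f, rfl⟩ := qm_surj K f
    obtain ⟨f', rfl⟩ := qm_surj K f'
    obtain ⟨g, rfl⟩ := qm_surj K g
    exact congrArg (qm K) (Preadditive.add_comp _ _ _ f f' g)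
  comp_add X Y Z f g g' := by
    obtain ⟨f, rfl⟩ := qm_surj K f
    obtain ⟨g, rfl⟩ := qm_surj K g
    obtain ⟨g', rfl⟩ := qm_surj K g'
    exact congrArg (qm K) (Preadditive.comp_add _ _ _ f g g')

instance instLinQN : Linear K (QN K C) where
  homModule X Y := (inferInstance : Module K (QHom K X.un Y.un))
  smul_comp X Y Z a f g := by
    obtain ⟨f, rfl⟩ := qm_surj K f
    obtain ⟨g, rfl⟩ := qm_surj K g
    exact congrArg (qm K) (Linear.smul_comp _ _ _ a f g)
  comp_smul X Y Z f a g := by
    obtain ⟨f, rfl⟩ := qm_surj K f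
    obtain ⟨g, rfl⟩ := qm_surj K g
    exact congrArg (qm K) (Linear.comp_smul _ _ _ f a g)

/-- class of an isomorphism -/
def qiso {X Y : C} (f : X ≅ Y) : (QN.mk X : QN K C) ≅ QN.mk Y where
  hom := qm K f.hom
  inv := qm K f.inv
  hom_inv_id := congrArg (qm K) f.hom_inv_id
  inv_hom_id := congrArg (qm K) f.inv_hom_id

end Pool.Agent.W_868bb7_h64
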