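import Pool.Agent.W_868bb7_h64.QMon

set_option autoImplicit false

/-!
# QFun: the quotient functor
-/

namespace Pool.Agent.W_868bb7_h64

open CategoryTheory MonoidalCategory Pool.Agent.W_MP_868bb7_ag Pool.Agent.W_MP_868bb7_h79

universe v u w

variable (K : Type w) [Field K] {C : Type u} [Category.{v} C]
  [Preadditive C] [Linear K C] [MonoidalCategory C] [MonoidalPreadditive C] [MonoidalLinear K C]
  [SymmetricCategory C] [RightRigidCategory C] [UnitK K C]

variable (C) in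
/-- the quotient functor -/
def QF : C ⥤ QN K C where
  obj X := ⟨X⟩
  map f := qm K f
  map_id X := rfl
  map_comp f g := rfl

instance instAddQF : (QF K C).Additive where
  map_add := rfl

instance instLinQF : (QF K C).Linear K where
  map_smul _ _ := rfl

/-- the quotient functor is monoidal -/
def coreQF : (QF K C).CoreMonoidal where
  εIso := Iso.refl _
  μIso X Y := Iso.refl _
  μIso_hom_natural_left {X Y} f Z := by
    refine (Category.comp_id _).trans (Eq.trans ?_ (Category.id_comp _).symm)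
    rfl
  μIso_hom_natural_right {X Y} Z f := by
    refine (Category.comp_id _).trans (Eq.trans ?_ (Category.id_comp _).symm)
    rfl
  associativity X Y Z := by
    exact congrArg (qm K) (show (𝟙 (X ⊗ Y) ▷ Z) ≫ 𝟙 ((X ⊗ Y) ⊗ Z) ≫ (α_ X Y Z).hom =
      (α_ X Y Z).hom ≫ X ◁ 𝟙 (Y ⊗ Z) ≫ 𝟙 (X ⊗ (Y ⊗ Z)) by simp)
  left_unitality X := by
    exact congrArg (qm K) (show (λ_ X).hom = (𝟙 (𝟙_ C) ▷ X) ≫ 𝟙 (𝟙_ C ⊗ X) ≫ (λ_ X).hom by simp)
  right_unitality X := by
    exact congrArg (qm K) (show (ρ_ X).hom = (X ◁ 𝟙 (𝟙_ C)) ≫ 𝟙 (X ⊗ 𝟙_ C) ≫ (ρ_ X).hom by simp)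

instance instMonQF : (QF K C).Monoidal := (coreQF K).toMonoidal

instance instBrQF : (QF K C).Braided where
  braided X Y := by
    exact congrArg (qm K) (show 𝟙 (X ⊗ Y) ≫ (β_ X Y).hom = (β_ X Y).hom ≫ 𝟙 (Y ⊗ X) by simp)

end Pool.Agent.W_868bb7_h64
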