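import Pool.Agent.W_868bb7_h64.QCat
import Pool.Agent.W_MP_868bb7_ag.Split

set_option autoImplicit false

/-!
# QMon: the quotient category is monoidal, symmetric, rigid
-/

namespace Pool.Agent.W_868bb7_h64

open CategoryTheory MonoidalCategory Pool.Agent.W_MP_868bb7_ag

universe v u w

variable (K : Type w) [Field K] {C : Type u} [Category.{v} C]
  [Preadditive C] [Linear K C] [MonoidalCategory C] [MonoidalPreadditive C] [MonoidalLinear K C]
  [SymmetricCategory C] [RightRigidCategory C] [UnitK K C]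

theorem neg_tl {X X' Y Y' : C} (f f' : X ⟶ X') (g : Y ⟶ Y') (h : Neg K (f - f')) :
    Neg K ((f ⊗ₘ g) - (f' ⊗ₘ g)) := by
  rw [← dat_sub_tensor]
  exact Neg_tensor_left K _ _ h

theorem neg_tr {X X' Y Y' : C} (f : X ⟶ X') (g g' : Y ⟶ Y') (h : Neg K (g - g')) :
    Neg K ((f ⊗ₘ g) - (f ⊗ₘ g')) := by
  rw [← dat_tensor_sub]
  exact Neg_tensor_right K _ _ h

/-- tensor product of classes -/
def qT {X X' Y Y' : C} : QHom K X X' → QHom K Y Y' → QHom K (X ⊗ Y) (X' ⊗ Y') :=
  qlift₂ K (fun f g => f ⊗ₘ g) (fun f f' g h => neg_tl K f f' g h)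
    (fun f g g' h => neg_tr K f g g' h)

theorem qT_mk {X X' Y Y' : C} (f : X ⟶ X') (g : Y ⟶ Y') : qT K (qm K f) (qm K g) = qm K (f ⊗ₘ g) :=
  rfl

/-- whiskering -/
def qWl (X : C) {Y Y' : C} : QHom K Y Y' → QHom K (X ⊗ Y) (X ⊗ Y') :=
  qlift K (fun g => X ◁ g) (fun g g' h => by
    rw [← MonoidalCategory.id_tensorHom, ← MonoidalCategory.id_tensorHom]
    exact neg_tr K _ g g' h)

/-- whiskering -/
def qWr {Y Y' : C} (X : C) : QHom K Y Y' → QHom K (Y ⊗ X) (Y' ⊗ X) :=
  qlift K (fun g => g ▷ X) (fun g g' h => by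
    rw [← MonoidalCategory.tensorHom_id, ← MonoidalCategory.tensorHom_id]
    exact neg_tl K g g' _ h)

instance instMonSQN : MonoidalCategoryStruct (QN K C) where
  tensorObj X Y := ⟨X.un ⊗ Y.un⟩
  whiskerLeft X {Y Y'} f := qWl K X.un f
  whiskerRight {Y Y'} f X := qWr K X.un f
  tensorHom {X X' Y Y'} f g := qT K f g
  tensorUnit := ⟨𝟙_ C⟩
  associator X Y Z := qiso K (α_ X.un Y.un Z.un)
  leftUnitor X := qiso K (λ_ X.un)
  rightUnitor X := qiso K (ρ_ X.un)

instance instMonQN : MonoidalCategory (QN K C) where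
  tensorHom_def f g := by
    obtain ⟨f, rfl⟩ := qm_surj K f
    obtain ⟨g, rfl⟩ := qm_surj K g
    exact congrArg (qm K) (MonoidalCategory.tensorHom_def f g)
  id_tensorHom_id X Y := congrArg (qm K) (MonoidalCategory.id_tensorHom_id X.un Y.un)
  tensorHom_comp_tensorHom f g h k := by
    obtain ⟨f, rfl⟩ := qm_surj K f
    obtain ⟨g, rfl⟩ := qm_surj K g
    obtain ⟨h, rfl⟩ := qm_surj K h
    obtain ⟨k, rfl⟩ := qm_surj K k
    exact congrArg (qm K) (MonoidalCategory.tensorHom_comp_tensorHom f g h k)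
  whiskerLeft_id X Y := congrArg (qm K) (MonoidalCategory.whiskerLeft_id X.un Y.un)
  id_whiskerRight X Y := congrArg (qm K) (MonoidalCategory.id_whiskerRight X.un Y.un)
  associator_naturality f g h := by
    obtain ⟨f, rfl⟩ := qm_surj K f
    obtain ⟨g, rfl⟩ := qm_surj K g
    obtain ⟨h, rfl⟩ := qm_surj K h
    exact congrArg (qm K) (MonoidalCategory.associator_naturality f g h)
  leftUnitor_naturality f := by
    obtain ⟨f, rfl⟩ := qm_surj K f
    exact congrArg (qm K) (MonoidalCategory.leftUnitor_naturality f)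
  rightUnitor_naturality f := by
    obtain ⟨f, rfl⟩ := qm_surj K f
    exact congrArg (qm K) (MonoidalCategory.rightUnitor_naturality f)
  pentagon W X Y Z := congrArg (qm K) (MonoidalCategory.pentagon W.un X.un Y.un Z.un)
  triangle X Y := congrArg (qm K) (MonoidalCategory.triangle X.un Y.un)

instance instMPreQN : MonoidalPreadditive (QN K C) where
  whiskerLeft_zero {X Y Z} := by
    exact congrArg (qm K) (MonoidalPreadditive.whiskerLeft_zero (X := X.un) (Y := Y.un) (Z := Z.un))
  zero_whiskerRight {X Y Z} := by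
    exact congrArg (qm K) (MonoidalPreadditive.zero_whiskerRight (X := X.un) (Y := Y.un) (Z := Z.un))
  whiskerLeft_add {X Y Z} f g := by
    obtain ⟨f, rfl⟩ := qm_surj K f
    obtain ⟨g, rfl⟩ := qm_surj K g
    exact congrArg (qm K) (MonoidalPreadditive.whiskerLeft_add f g)
  add_whiskerRight {X Y Z} f g := by
    obtain ⟨f, rfl⟩ := qm_surj K f
    obtain ⟨g, rfl⟩ := qm_surj K g
    exact congrArg (qm K) (MonoidalPreadditive.add_whiskerRight f g)

instance instMLinQN : MonoidalLinear K (QN K C) where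
  whiskerLeft_smul X {Y Z} a f := by
    obtain ⟨f, rfl⟩ := qm_surj K f
    exact congrArg (qm K) (MonoidalLinear.whiskerLeft_smul X.un a f)
  smul_whiskerRight a {Y Z} f X := by
    obtain ⟨f, rfl⟩ := qm_surj K f
    exact congrArg (qm K) (MonoidalLinear.smul_whiskerRight a f X.un)

instance instSymQN : SymmetricCategory (QN K C) where
  braiding X Y := qiso K (β_ X.un Y.un)
  braiding_naturality_right X {Y Z} f := by
    obtain ⟨f, rfl⟩ := qm_surj K f
    exact congrArg (qm K) (BraidedCategory.braiding_naturality_right X.un f)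
  braiding_naturality_left {X Y} f Z := by
    obtain ⟨f, rfl⟩ := qm_surj K f
    exact congrArg (qm K) (BraidedCategory.braiding_naturality_left f Z.un)
  hexagon_forward X Y Z := congrArg (qm K) (BraidedCategory.hexagon_forward X.un Y.un Z.un)
  hexagon_reverse X Y Z := congrArg (qm K) (BraidedCategory.hexagon_reverse X.un Y.un Z.un)
  symmetry X Y := congrArg (qm K) (SymmetricCategory.symmetry X.un Y.un)

instance instPairQN (X : QN K C) : ExactPairing X (QN.mk (X.unᘁ) : QN K C) where
  coevaluation' := qm K (η_ X.un X.unᘁ)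
  evaluation' := qm K (ε_ X.un X.unᘁ)
  coevaluation_evaluation' :=
    congrArg (qm K) (ExactPairing.coevaluation_evaluation X.un X.unᘁ)
  evaluation_coevaluation' :=
    congrArg (qm K) (ExactPairing.evaluation_coevaluation X.un X.unᘁ)

instance instDualQN (X : QN K C) : HasRightDual X where
  rightDual := QN.mk (X.unᘁ)

instance instRigidQN : RightRigidCategory (QN K C) where
  rightDual X := instDualQN K X

theorem trU_qm {X : QN K C} (f : X.un ⟶ X.un) :
    trU (C := QN K C) (X := X) (qm K f) = (qm K (trU f) : (𝟙_ (QN K C)) ⟶ 𝟙_ (QN K C)) := rfl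

theorem neg_unit (a : K) (h : Neg K (a • 𝟙 (𝟙_ C))) : a = 0 := by
  have h1 := h (𝟙 _)
  rwa [Category.comp_id, tr_smul, tr_unit, mul_one] at h1

instance instUnitQN : UnitK K (QN K C) where
  bij := by
    constructor
    · intro a b hab
      have h1 : qm K (a • 𝟙 (𝟙_ C)) = qm K (b • 𝟙 (𝟙_ C)) := hab
      rw [qm_eq, ← sub_smul] at h1
      exact sub_eq_zero.1 (neg_unit K _ h1)
    · intro f
      obtain ⟨f, rfl⟩ := qm_surj K f
      refine ⟨sc K f, ?_⟩
      exact congrArg (qm K) (sc_spec K f)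

theorem tr_qm {X : QN K C} (f : X.un ⟶ X.un) :
    tr K (C := QN K C) (X := X) (qm K f) = tr K f := by
  apply tr_unique
  rw [trU_qm]
  exact congrArg (qm K) (tr_spec K f)

/-- there are no negligible morphisms in the quotient category -/
theorem neg_zero_QN {X Y : QN K C} (f : X ⟶ Y) (h : Neg K f) : f = 0 := by
  obtain ⟨f, rfl⟩ := qm_surj K f
  have h1 : Neg K f := by
    intro g
    have h2 := h (qm K g)
    exact (tr_qm K (f ≫ g)).symm.trans h2
  have h2 : qm K f = qm K 0 := by
    rw [qm_eq, sub_zero]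
    exact h1
  exact h2

end Pool.Agent.W_868bb7_h64
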