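import Mathlib

set_option autoImplicit false

/-!
# RingE: identities in a ring with an action of a symmetric group

`ρ : Perm ι →* R`.  Products of transpositions (functional composition) for distinct `i p q`:
`(p i) (q i) (p q) = (q i)`, `(q i) (p i) (p q) = (p i)`, `(i p) (i q) = (p q) (i p)`.

* `e1`: `(∑ j ∈ B, φ j) * X * e = (∑ φ j) * e * X = 0` for `X = ∑ i ∈ B, ρ (swap p i)`, and
  `(∑ j ∈ B, φ j) * ρ (swap p i) = ρ (swap p i) * (∑ j ∈ B, φ j - φ i + φ p)`.
* `e2`: with `F = ∑ i ∈ B, (φ p - φ i) * ρ (swap p i)`, `F * e = 0` (`e1`), `Xq = ∑ j ∈ B, ρ (swap q j)`: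
  `(Xq * F - F * Xq) * e = 0`.  For `j ≠ i`,
  `ρ (swap q j) * (φ p - φ i) * ρ (swap p i) = (φ p - φ i) * ρ (swap p i) * ρ (swap q j)`, for `j = i`
  `ρ (swap q i) * (φ p - φ i) * ρ (swap p i) = (φ p - φ q) * ρ (swap q i) * ρ (swap p i)`, so
  `∑ i ∈ B, ((φ p - φ q) ρ(qi) ρ(pi) - (φ p - φ i) ρ(pi) ρ(qi)) * e = 0`; multiply on the right by
  `ρ (swap p q)`, which commutes with `e`.
* `U_comm`: `U ρ l A` commutes with `ρ σ` if `σ` fixes `l` and `A` pointwise (induction).
* `U_zero`: induction on `l`.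
* `U_rec`: induction on `l` (for all `A`).  For `q :: l` expand
  `U (q :: l) A = ∑ j ∈ A, ρ (swap j q) * U l (A.erase j)`.  In the sum over `i ∈ A`, the terms with
  `i = j` are `ρ (swap j q) * ρ (swap j q') * U l (A.erase j) = ρ (swap q q') * ρ (swap j q) * U l (A.erase j)`
  (`U_comm`), with sum `ρ (swap q q') * U (q :: l) A`; for `i ∈ A.erase j` use the induction hypothesis
  for `A.erase j`, and exchange disjoint transpositions.
* `U_prod`: induction on `l`, `U_rec`.
-/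

namespace Pool.Agent.W_868bb7_h64

section Basic

variable {R : Type*} [Ring R] {ι : Type*} [DecidableEq ι] (ρ : Equiv.Perm ι →* R)

private theorem RingE_move (φ : ι → R)
    (hφ : ∀ (σ : Equiv.Perm ι) (j : ι), ρ σ * φ j = φ (σ j) * ρ σ) (a b j : ι) :
    φ j * ρ (Equiv.swap a b) = ρ (Equiv.swap a b) * φ (Equiv.swap a b j) := by
  rw [hφ, Equiv.swap_apply_self]

theorem e1 (φ : ι → R) (hφ : ∀ (σ : Equiv.Perm ι) (j : ι), ρ σ * φ j = φ (σ j) * ρ σ)
    (B : Finset ι) (p : ι) (hp : p ∉ B) (e : R)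
    (hc : Commute (∑ j ∈ B, ρ (Equiv.swap p j)) e) (h : (∑ j ∈ B, φ j) * e = 0) :
    (∑ i ∈ B, (φ p - φ i) * ρ (Equiv.swap p i)) * e = 0 := by
  have h1 : ∀ i ∈ B, (∑ j ∈ B, φ j) * ρ (Equiv.swap p i) =
      ρ (Equiv.swap p i) * (∑ j ∈ B, φ j) + (φ i - φ p) * ρ (Equiv.swap p i) := by
    intro i hi
    have h2 : ∑ j ∈ B, φ (Equiv.swap p i j) = (∑ j ∈ B, φ j) - φ i + φ p := by
      rw [← Finset.add_sum_erase B _ hi, ← Finset.add_sum_erase B φ hi, Equiv.swap_apply_right]
      have h3 : ∑ j ∈ B.erase i, φ (Equiv.swap p i j) = ∑ j ∈ B.erase i, φ j := by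
        refine Finset.sum_congr rfl fun j hj => ?_
        have hjp : j ≠ p := fun h => hp (h ▸ Finset.mem_of_mem_erase hj)
        rw [Equiv.swap_apply_of_ne_of_ne hjp (Finset.ne_of_mem_erase hj)]
      rw [h3]
      abel
    have h4 : (∑ j ∈ B, φ j) * ρ (Equiv.swap p i) =
        ρ (Equiv.swap p i) * ∑ j ∈ B, φ (Equiv.swap p i j) := by
      rw [Finset.sum_mul, Finset.mul_sum]
      exact Finset.sum_congr rfl fun j _ => RingE_move ρ φ hφ p i j
    have h5 : ρ (Equiv.swap p i) * φ i = φ p * ρ (Equiv.swap p i) := by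
      rw [hφ, Equiv.swap_apply_right]
    have h6 : ρ (Equiv.swap p i) * φ p = φ i * ρ (Equiv.swap p i) := by
      rw [hφ, Equiv.swap_apply_left]
    rw [h4, h2, mul_add, mul_sub, h5, h6, sub_mul]
    abel
  have h2 : (∑ j ∈ B, φ j) * (∑ i ∈ B, ρ (Equiv.swap p i)) * e = 0 := by
    rw [mul_assoc, hc.eq, ← mul_assoc, h, zero_mul]
  rw [Finset.mul_sum, Finset.sum_congr rfl h1, Finset.sum_add_distrib, ← Finset.sum_mul, add_mul,
    mul_assoc _ _ e, h, mul_zero, zero_add] at h2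
  have h3 : ∑ i ∈ B, (φ p - φ i) * ρ (Equiv.swap p i) =
      - ∑ i ∈ B, (φ i - φ p) * ρ (Equiv.swap p i) := by
    rw [← Finset.sum_neg_distrib]
    refine Finset.sum_congr rfl fun i _ => ?_
    rw [← neg_mul, neg_sub]
  rw [h3, neg_mul, h2, neg_zero]

/-- `(q i) (p i) (p q) = (p i)` -/
private theorem RingE_id {i p q : ι} (hiq : i ≠ q) (hpq : p ≠ q) :
    ρ (Equiv.swap q i) * ρ (Equiv.swap p i) * ρ (Equiv.swap p q) = ρ (Equiv.swap p i) := by
  rw [mul_assoc, ← map_mul ρ (Equiv.swap p i), Equiv.mul_swap_eq_swap_mul, Equiv.swap_apply_left,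
    Equiv.swap_apply_of_ne_of_ne hpq.symm (Ne.symm hiq), ← map_mul, ← mul_assoc,
    Equiv.swap_comm q i, Equiv.swap_mul_self, one_mul]

private theorem RingE_comm {a b c d : ι} (hac : a ≠ c) (had : a ≠ d) (hbc : b ≠ c) (hbd : b ≠ d) :
    ρ (Equiv.swap a b) * ρ (Equiv.swap c d) = ρ (Equiv.swap c d) * ρ (Equiv.swap a b) := by
  rw [← map_mul, Equiv.mul_swap_eq_swap_mul, Equiv.swap_apply_of_ne_of_ne (Ne.symm hac) (Ne.symm hbc),
    Equiv.swap_apply_of_ne_of_ne (Ne.symm had) (Ne.symm hbd), map_mul]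

theorem e2 (φ : ι → R) (hφ : ∀ (σ : Equiv.Perm ι) (j : ι), ρ σ * φ j = φ (σ j) * ρ σ)
    (B : Finset ι) (p q : ι) (hp : p ∉ B) (hq : q ∉ B) (hpq : p ≠ q) (e : R)
    (hc : Commute (∑ j ∈ B, ρ (Equiv.swap p j)) e) (hc' : Commute (∑ j ∈ B, ρ (Equiv.swap q j)) e)
    (hs : Commute (ρ (Equiv.swap p q)) e) (h : (∑ j ∈ B, φ j) * e = 0) :
    (∑ i ∈ B, ((φ p - φ q) * ρ (Equiv.swap p i) - (φ p - φ i) * ρ (Equiv.swap q i))) * e = 0 := by
  have hF := e1 ρ φ hφ B p hp e hc h
  set F := ∑ i ∈ B, (φ p - φ i) * ρ (Equiv.swap p i) with hFdef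
  set Xq := ∑ j ∈ B, ρ (Equiv.swap q j) with hXq
  have h1 : (Xq * F - F * Xq) * e = 0 := by
    rw [sub_mul, mul_assoc, hF, mul_zero, zero_sub, mul_assoc, hc'.eq, ← mul_assoc, hF, zero_mul,
      neg_zero]
  have h2 : Xq * F - F * Xq = ∑ i ∈ B, ((φ p - φ q) * (ρ (Equiv.swap q i) * ρ (Equiv.swap p i)) -
      (φ p - φ i) * (ρ (Equiv.swap p i) * ρ (Equiv.swap q i))) := by
    have h3 : Xq * F = ∑ i ∈ B, ∑ j ∈ B,
        ρ (Equiv.swap q j) * ((φ p - φ i) * ρ (Equiv.swap p i)) := by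
      rw [hXq, hFdef, Finset.sum_mul_sum, Finset.sum_comm]
    have h4 : F * Xq = ∑ i ∈ B, ∑ j ∈ B,
        ((φ p - φ i) * ρ (Equiv.swap p i)) * ρ (Equiv.swap q j) := by
      rw [hXq, hFdef, Finset.sum_mul_sum]
    rw [h3, h4, ← Finset.sum_sub_distrib]
    refine Finset.sum_congr rfl fun i hi => ?_
    rw [← Finset.sum_sub_distrib, Finset.sum_eq_single_of_mem i hi]
    · have h5 : ρ (Equiv.swap q i) * φ p = φ p * ρ (Equiv.swap q i) := by
        have hpi : p ≠ i := fun h => hp (h ▸ hi)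
        rw [hφ, Equiv.swap_apply_of_ne_of_ne hpq hpi]
      have h6 : ρ (Equiv.swap q i) * φ i = φ q * ρ (Equiv.swap q i) := by
        rw [hφ, Equiv.swap_apply_right]
      rw [← mul_assoc, mul_sub, h5, h6, ← sub_mul, mul_assoc, mul_assoc]
    · intro j hj hji
      have h5 : ρ (Equiv.swap q j) * φ p = φ p * ρ (Equiv.swap q j) := by
        have hpj : p ≠ j := fun h => hp (h ▸ hj)
        rw [hφ, Equiv.swap_apply_of_ne_of_ne hpq hpj]
      have h6 : ρ (Equiv.swap q j) * φ i = φ i * ρ (Equiv.swap q j) := by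
        have hiq : i ≠ q := fun h => hq (h ▸ hi)
        rw [hφ, Equiv.swap_apply_of_ne_of_ne hiq (Ne.symm hji)]
      have h7 : ρ (Equiv.swap q j) * ρ (Equiv.swap p i) =
          ρ (Equiv.swap p i) * ρ (Equiv.swap q j) :=
        RingE_comm ρ hpq.symm (fun h => hq (h ▸ hi)) (fun h => hp (h ▸ hj)) hji
      rw [← mul_assoc, mul_sub, h5, h6, ← sub_mul, mul_assoc, h7, mul_assoc, sub_self]
  have h3 : (Xq * F - F * Xq) * ρ (Equiv.swap p q) * e = 0 := by
    rw [mul_assoc, hs.eq, ← mul_assoc, h1, zero_mul]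
  rw [h2, Finset.sum_mul] at h3
  rw [← h3]
  congr 1
  refine Finset.sum_congr rfl fun i hi => ?_
  have hip : i ≠ p := fun h => hp (h ▸ hi)
  have hiq : i ≠ q := fun h => hq (h ▸ hi)
  have h4 : ρ (Equiv.swap p i) * ρ (Equiv.swap q i) * ρ (Equiv.swap p q) =
      ρ (Equiv.swap q i) := by
    rw [Equiv.swap_comm p q]
    exact RingE_id ρ hip hpq.symm
  rw [sub_mul (_ * (_ * _)), mul_assoc (φ p - φ q), RingE_id ρ hiq hpq, mul_assoc (φ p - φ i), h4]

/-- the sum over all injections of the list `l` into `A` of the products of transpositions -/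
def U : List ι → Finset ι → R
  | [], _ => 1
  | q :: l, A => ∑ i ∈ A, ρ (Equiv.swap i q) * U l (A.erase i)

theorem U_comm (l : List ι) (A : Finset ι) (σ : Equiv.Perm ι) (h1 : ∀ q ∈ l, σ q = q)
    (h2 : ∀ i ∈ A, σ i = i) : Commute (U ρ l A) (ρ σ) := by
  induction l generalizing A with
  | nil => exact Commute.one_left _
  | cons q l ih =>
    show Commute (∑ i ∈ A, ρ (Equiv.swap i q) * U ρ l (A.erase i)) (ρ σ)
    refine Commute.sum_left _ _ _ fun i hi => ?_
    refine Commute.mul_left ?_ (ih (A.erase i) (fun q' hq' => h1 q' (List.mem_cons_of_mem q hq'))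
      fun j hj => h2 j (Finset.mem_of_mem_erase hj))
    show ρ (Equiv.swap i q) * ρ σ = ρ σ * ρ (Equiv.swap i q)
    rw [← map_mul, ← map_mul, Equiv.mul_swap_eq_swap_mul σ, h2 i hi, h1 q List.mem_cons_self]

theorem U_zero (l : List ι) (A : Finset ι) (h : A.card < l.length) : U ρ l A = 0 := by
  induction l generalizing A with
  | nil => exact absurd h (Nat.not_lt_zero _)
  | cons q l ih =>
    show ∑ i ∈ A, ρ (Equiv.swap i q) * U ρ l (A.erase i) = 0
    refine Finset.sum_eq_zero fun i hi => ?_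
    rw [ih (A.erase i), mul_zero]
    rw [Finset.card_erase_of_mem hi]
    have h3 : 0 < A.card := Finset.card_pos.2 ⟨i, hi⟩
    rw [List.length_cons] at h
    omega

theorem U_rec (l : List ι) (A : Finset ι) (q : ι) (hl : (q :: l).Nodup)
    (hA : ∀ x ∈ q :: l, x ∉ A) :
    U ρ l A * (∑ i ∈ A, ρ (Equiv.swap i q)) =
      U ρ (q :: l) A + ∑ a ∈ l.toFinset, ρ (Equiv.swap a q) * U ρ l A := by
  induction l generalizing A with
  | nil =>
    show (1 : R) * _ = ∑ i ∈ A, ρ (Equiv.swap i q) * 1 + _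
    simp
  | cons q' l ih =>
    have hqq' : q ≠ q' := fun h => by
      rw [h] at hl
      exact (List.nodup_cons.1 hl).1 List.mem_cons_self
    have hql : q ∉ l := fun h => (List.nodup_cons.1 hl).1 (List.mem_cons_of_mem q' h)
    have hq'l : q' ∉ l := (List.nodup_cons.1 (List.nodup_cons.1 hl).2).1
    have hln : l.Nodup := (List.nodup_cons.1 (List.nodup_cons.1 hl).2).2
    have hqA : q ∉ A := hA q List.mem_cons_self
    have hq'A : q' ∉ A := hA q' (List.mem_cons_of_mem q List.mem_cons_self)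
    have hlA : ∀ x ∈ l, x ∉ A := fun x hx =>
      hA x (List.mem_cons_of_mem q (List.mem_cons_of_mem q' hx))
    have hne : ∀ x ∈ l, ∀ j ∈ A, x ≠ j := fun x hx j hj h => hlA x hx (h ▸ hj)
    -- one term
    have key : ∀ j ∈ A, ρ (Equiv.swap j q') * U ρ l (A.erase j) *
        (∑ i ∈ A, ρ (Equiv.swap i q)) =
        ρ (Equiv.swap j q') * U ρ (q :: l) (A.erase j) +
          ∑ a ∈ (q' :: l).toFinset, ρ (Equiv.swap a q) * (ρ (Equiv.swap j q') *
            U ρ l (A.erase j)) := by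
      intro j hj
      have hjq : j ≠ q := fun h => hqA (h ▸ hj)
      have hjq' : j ≠ q' := fun h => hq'A (h ▸ hj)
      have ih' := ih (A.erase j) (List.nodup_cons.2 ⟨hql, hln⟩) (fun x hx => by
        rcases List.mem_cons.1 hx with rfl | hx
        · exact fun h => hqA (Finset.mem_of_mem_erase h)
        · exact fun h => hlA x hx (Finset.mem_of_mem_erase h))
      have hcm : Commute (U ρ l (A.erase j)) (ρ (Equiv.swap j q)) := by
        refine U_comm ρ l _ _ (fun x hx => ?_) (fun i hi => ?_)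
        · exact Equiv.swap_apply_of_ne_of_ne (hne x hx j hj) (fun h => hql (h ▸ hx))
        · exact Equiv.swap_apply_of_ne_of_ne (Finset.ne_of_mem_erase hi)
            (fun h => hqA (h ▸ Finset.mem_of_mem_erase hi))
      have hsw : ρ (Equiv.swap j q') * ρ (Equiv.swap j q) =
          ρ (Equiv.swap q' q) * ρ (Equiv.swap j q') := by
        rw [← map_mul, ← map_mul, Equiv.mul_swap_eq_swap_mul, Equiv.swap_apply_left,
          Equiv.swap_apply_of_ne_of_ne hjq.symm hqq']
      have hfin : (q' :: l).toFinset = insert q' l.toFinset := List.toFinset_cons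
      have hnot : q' ∉ l.toFinset := fun h => hq'l (List.mem_toFinset.1 h)
      rw [← Finset.add_sum_erase A _ hj, mul_add, mul_assoc _ _ (∑ i ∈ A.erase j, _), ih', mul_add,
        mul_assoc _ _ (ρ (Equiv.swap j q)), hcm.eq, ← mul_assoc, hsw, hfin,
        Finset.sum_insert hnot, Finset.mul_sum]
      have h5 : ∀ a ∈ l.toFinset, ρ (Equiv.swap j q') * (ρ (Equiv.swap a q) *
          U ρ l (A.erase j)) = ρ (Equiv.swap a q) * (ρ (Equiv.swap j q') *
            U ρ l (A.erase j)) := by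
        intro a ha
        have ha' := List.mem_toFinset.1 ha
        have haj : a ≠ j := hne a ha' j hj
        have haq' : a ≠ q' := fun h => hq'l (h ▸ ha')
        rw [← mul_assoc, ← mul_assoc, RingE_comm ρ haj.symm hjq haq'.symm hqq'.symm]
      rw [Finset.sum_congr rfl h5, mul_assoc]
      abel
    have hdef : U ρ (q' :: l) A = ∑ j ∈ A, ρ (Equiv.swap j q') * U ρ l (A.erase j) := rfl
    have hdef2 : U ρ (q :: q' :: l) A = ∑ i ∈ A, ρ (Equiv.swap i q) *
        ∑ j ∈ A.erase i, ρ (Equiv.swap j q') * U ρ l ((A.erase i).erase j) := rfl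
    rw [hdef, Finset.sum_mul, Finset.sum_congr rfl key, Finset.sum_add_distrib, Finset.sum_comm,
      hdef2]
    congr 1
    · have hdef3 : ∀ j, U ρ (q :: l) (A.erase j) = ∑ i ∈ A.erase j, ρ (Equiv.swap i q) *
          U ρ l ((A.erase j).erase i) := fun j => rfl
      simp only [hdef3, Finset.mul_sum]
      rw [Finset.sum_comm' (s' := fun j => A.erase j) (t' := A) (fun i j => by
        simp only [Finset.mem_erase]
        constructor
        · rintro ⟨h1, h2, h3⟩
          exact ⟨⟨h2.symm, h1⟩, h3⟩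
        · rintro ⟨⟨h1, h2⟩, h3⟩
          exact ⟨h2, Ne.symm h1, h3⟩)]
      refine Finset.sum_congr rfl fun i hi => Finset.sum_congr rfl fun j hj => ?_
      have hij : j ≠ i := Finset.ne_of_mem_erase hj
      have hjA : j ∈ A := Finset.mem_of_mem_erase hj
      have hjq : j ≠ q := fun h => hqA (h ▸ hjA)
      have hiq' : q' ≠ i := fun h => hq'A (h ▸ hi)
      rw [← mul_assoc, ← mul_assoc, RingE_comm ρ hij hjq hiq' hqq'.symm, Finset.erase_right_comm]
    · refine Finset.sum_congr rfl fun a _ => ?_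
      rw [Finset.mul_sum]

end Basic

theorem U_prod {K : Type*} [Field K] {R : Type*} [Ring R] [Algebra K R] {ι : Type*}
    [DecidableEq ι] (ρ : Equiv.Perm ι →* R) (B : Finset ι) (e F : R) (g c : K) (l : List ι)
    (hl : l.Nodup) (hB : ∀ q ∈ l, q ∉ B)
    (hX : ∀ q ∈ l, (∑ i ∈ B, ρ (Equiv.swap i q)) * e = g • e)
    (hF : ∀ a ∈ l, ∀ q ∈ l, a ≠ q → F * ρ (Equiv.swap a q) = c • F) :
    F * U ρ l B * e = (∏ j ∈ Finset.range l.length, (g - (j : K) * c)) • (F * e) := by
  induction l with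
  | nil =>
    show F * 1 * e = _
    simp
  | cons q l ih =>
    have hql : q ∉ l := (List.nodup_cons.1 hl).1
    have hln : l.Nodup := (List.nodup_cons.1 hl).2
    have ih' := ih hln (fun x hx => hB x (List.mem_cons_of_mem q hx))
      (fun x hx => hX x (List.mem_cons_of_mem q hx))
      (fun a ha b hb hab => hF a (List.mem_cons_of_mem q ha) b (List.mem_cons_of_mem q hb) hab)
    have h1 := U_rec ρ l B q hl hB
    have h2 : U ρ (q :: l) B = U ρ l B * (∑ i ∈ B, ρ (Equiv.swap i q)) -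
        ∑ a ∈ l.toFinset, ρ (Equiv.swap a q) * U ρ l B := by
      rw [h1]
      abel
    have h3 : F * ∑ a ∈ l.toFinset, ρ (Equiv.swap a q) * U ρ l B =
        ((l.length : K) * c) • (F * U ρ l B) := by
      rw [Finset.mul_sum]
      have h4 : ∀ a ∈ l.toFinset, F * (ρ (Equiv.swap a q) * U ρ l B) = c • (F * U ρ l B) := by
        intro a ha
        have ha' := List.mem_toFinset.1 ha
        rw [← mul_assoc, hF a (List.mem_cons_of_mem q ha') q List.mem_cons_self
          (fun h => hql (h ▸ ha')), smul_mul_assoc]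
      rw [Finset.sum_congr rfl h4, Finset.sum_const, List.toFinset_card_of_nodup hln,
        ← Nat.cast_smul_eq_nsmul K, smul_smul]
    rw [h2, mul_sub, sub_mul, h3, smul_mul_assoc, ← mul_assoc, mul_assoc (F * U ρ l B),
      hX q List.mem_cons_self, mul_smul_comm, ih', smul_smul, smul_smul, ← sub_smul,
      List.length_cons, Finset.prod_range_succ]
    congr 1
    ring

end Pool.Agent.W_868bb7_h64
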