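import Pool.Agent.W_868bb7_h64.Strand

set_option autoImplicit false

/-!
# Star: removing the idempotent

* `star_step` (abstract): let `X = ∑ j ∈ B, ρ (swap z j)`.  Then
  `X * X = B.card + ∑ i ∈ B, ∑ j ∈ B.erase i, ρ (swap z i) * ρ (swap z j)` and
  `y * X * X * e = y * X * e * X = ∑ i, ρ (swap z i) * (ρ (swap z i) * y * ρ (swap z i)) * e * X = 0`
  by `h1`, while `y * ρ (swap z i) * ρ (swap z j) * e =
  ρ (swap z i) * ρ (swap z j) * (ρ (swap z j) * ρ (swap z i) * y * ρ (swap z i) * ρ (swap z j)) * e = 0`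
  by `h2`.
* `wl`: `F ↦ X ◁ F` as a ring homomorphism.
* `Xz_comm`: `shift σ` conjugates `swap 0 j.succ` into `swap 0 (σ j).succ`
  (`Equiv.swap_apply_apply`, `whisker_rho`), reindex the sum.
* `star`: apply `star_step` in `End (pow M (n+1))` with `z = 0`, `B = univ.image Fin.succ` (or
  `univ.erase 0`), `e = wl D.e`, `y = st g 0`: the conjugates of `y` are `st g i` (`rho_st`), and
  `st g j.succ * wl D.e = wl (st g j * D.e) = 0`.  So `st g 0 * wl D.e = 0` (divide by `n`), which is
  `g ⊗ₘ D.e = 0` (`MonoidalCategory.tensorHom_def`, `st_zero`); `Cut.tensor_zero`.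
-/

namespace Pool.Agent.W_868bb7_h64

open CategoryTheory MonoidalCategory Pool.Agent.W_MP_868bb7_ag

universe v u w

theorem star_step {R : Type*} [Ring R] {ι : Type*} [DecidableEq ι] (ρ : Equiv.Perm ι →* R)
    (z : ι) (B : Finset ι) (e y : R)
    (hc : Commute (∑ j ∈ B, ρ (Equiv.swap z j)) e)
    (h1 : ∀ i ∈ B, ρ (Equiv.swap z i) * y * ρ (Equiv.swap z i) * e = 0)
    (h2 : ∀ i ∈ B, ∀ j ∈ B, i ≠ j → ρ (Equiv.swap z j) * ρ (Equiv.swap z i) * y *
      ρ (Equiv.swap z i) * ρ (Equiv.swap z j) * e = 0) :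
    B.card • (y * e) = 0 := by
  have hsq : ∀ i, ρ (Equiv.swap z i) * ρ (Equiv.swap z i) = 1 := by
    intro i
    rw [← map_mul, Equiv.swap_mul_self, map_one]
  have h3 : y * (∑ j ∈ B, ρ (Equiv.swap z j)) * (∑ j ∈ B, ρ (Equiv.swap z j)) * e = 0 := by
    have h8 : y * (∑ j ∈ B, ρ (Equiv.swap z j)) * e = 0 := by
      rw [Finset.mul_sum, Finset.sum_mul]
      refine Finset.sum_eq_zero fun i hi => ?_
      have h4 : y * ρ (Equiv.swap z i) * e =
          ρ (Equiv.swap z i) * (ρ (Equiv.swap z i) * y * ρ (Equiv.swap z i) * e) := by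
        simp only [← mul_assoc]
        rw [hsq, one_mul]
      rw [h4, h1 i hi, mul_zero]
    rw [mul_assoc, hc.eq, ← mul_assoc, h8, zero_mul]
  have h5 : ∀ i ∈ B, ∀ j ∈ B, i ≠ j →
      y * ρ (Equiv.swap z i) * ρ (Equiv.swap z j) * e = 0 := by
    intro i hi j hj hij
    have h6 : y * ρ (Equiv.swap z i) * ρ (Equiv.swap z j) * e =
        ρ (Equiv.swap z i) * ρ (Equiv.swap z j) * (ρ (Equiv.swap z j) * ρ (Equiv.swap z i) * y *
          ρ (Equiv.swap z i) * ρ (Equiv.swap z j) * e) := by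
      simp only [← mul_assoc]
      rw [mul_assoc (ρ (Equiv.swap z i)) (ρ (Equiv.swap z j)) (ρ (Equiv.swap z j)), hsq, mul_one,
        hsq, one_mul]
    rw [h6, h2 i hi j hj hij, mul_zero]
  rw [← h3, Finset.mul_sum, Finset.mul_sum, Finset.sum_mul]
  have h7 : ∀ j ∈ B, y * (∑ i ∈ B, ρ (Equiv.swap z i)) * ρ (Equiv.swap z j) * e = y * e := by
    intro j hj
    rw [Finset.mul_sum, Finset.sum_mul, Finset.sum_mul, Finset.sum_eq_single_of_mem j hj]
    · rw [mul_assoc y, hsq, mul_one]
    · intro i hi hij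
      exact h5 i hi j hj hij
  rw [← Finset.mul_sum, Finset.sum_congr rfl h7, Finset.sum_const]

section Wl

variable {C : Type u} [Category.{v} C] [MonoidalCategory C] [Preadditive C]
  [MonoidalPreadditive C]

/-- whiskering on the left, as a ring homomorphism -/
def wl (X : C) (n : ℕ) : End (pow X n) →+* End (pow X (n + 1)) where
  toFun F := (X ◁ (show pow X n ⟶ pow X n from F) : X ⊗ pow X n ⟶ X ⊗ pow X n)
  map_one' := MonoidalCategory.whiskerLeft_id _ _
  map_mul' F G := MonoidalCategory.whiskerLeft_comp _ _ _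
  map_zero' := MonoidalPreadditive.whiskerLeft_zero
  map_add' F G := MonoidalPreadditive.whiskerLeft_add _ _

theorem wl_st {X : C} {n : ℕ} (f : End X) (j : Fin n) : wl X n (st f j) = st f j.succ := by
  exact whisker_st f j

variable [SymmetricCategory C]

theorem wl_rho (X : C) (n : ℕ) (σ : Equiv.Perm (Fin n)) :
    wl X n (rho X n σ) = rho X (n + 1) (shift σ) := by
  exact whisker_rho X n σ

/-- the sum of the exchanges of the strand `0` with the other strands -/
def Xz (X : C) (n : ℕ) : End (pow X (n + 1)) := ∑ j : Fin n, rho X (n + 1) (Equiv.swap 0 j.succ)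

theorem Xz_comm (X : C) (n : ℕ) (σ : Equiv.Perm (Fin n)) :
    Commute (Xz X n) (wl X n (rho X n σ)) := by
  rw [wl_rho]
  refine Eq.symm ?_
  change rho X (n + 1) (shift σ) * Xz X n = Xz X n * rho X (n + 1) (shift σ)
  unfold Xz
  rw [Finset.mul_sum, Finset.sum_mul]
  rw [← Equiv.sum_comp σ (fun j => rho X (n + 1) (Equiv.swap 0 j.succ) * rho X (n + 1) (shift σ))]
  refine Finset.sum_congr rfl fun j _ => ?_
  rw [← map_mul, ← map_mul]
  congr 1
  rw [Equiv.mul_swap_eq_swap_mul, shift_zero, shift_succ]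

end Wl

variable {K : Type w} [Field K] [CharZero K] {C : Type u} [Category.{v} C] [MonoidalCategory C]
  [Preadditive C] [Linear K C] [MonoidalPreadditive C] [MonoidalLinear K C]
  [SymmetricCategory C] [RightRigidCategory C] [UnitK K C]

omit [CharZero K] [RightRigidCategory C] [UnitK K C] in
theorem wl_smul (X : C) (n : ℕ) (a : K) (F : End (pow X n)) : wl X n (a • F) = a • wl X n F := by
  exact MonoidalLinear.whiskerLeft_smul X a (show pow X n ⟶ pow X n from F)

omit [CharZero K] [RightRigidCategory C] [UnitK K C] in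
theorem Xz_comm_e {M : C} {n : ℕ} (D : Cut K M n) : Commute (Xz M n) (wl M n D.e) := by
  rw [D.e_eq, map_sum]
  refine Commute.sum_right _ _ _ fun σ _ => ?_
  rw [wl_smul]
  exact (Xz_comm M n σ).smul_right (D.a σ)

theorem star {M : C} {n : ℕ} (hn : 1 ≤ n) (D : Cut K M n) (g : M ⟶ M)
    (h : ∀ j : Fin n, st g j * D.e = 0) : g = 0 := by
  classical
  have hst : ∀ i : Fin (n + 1), i ≠ 0 → st g i * wl M n D.e = 0 := by
    intro i hi
    obtain ⟨j, rfl⟩ := Fin.exists_succ_eq.2 hi
    rw [← wl_st, ← map_mul, h, map_zero]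
  have hsq : ∀ i : Fin (n + 1), rho M (n + 1) (Equiv.swap 0 i) * rho M (n + 1) (Equiv.swap 0 i) =
      1 := by
    intro i
    rw [← map_mul, Equiv.swap_mul_self, map_one]
  have hconj : ∀ (i k : Fin (n + 1)), rho M (n + 1) (Equiv.swap 0 i) * st g k *
      rho M (n + 1) (Equiv.swap 0 i) = st g (Equiv.swap 0 i k) := by
    intro i k
    rw [rho_st, mul_assoc, hsq, mul_one]
  have hX : (∑ j ∈ Finset.univ.image (Fin.succ : Fin n → Fin (n + 1)),
      rho M (n + 1) (Equiv.swap 0 j)) = Xz M n := by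
    rw [Finset.sum_image fun a _ b _ hab => Fin.succ_injective n hab]
    rfl
  have key := star_step (rho M (n + 1)) 0 (Finset.univ.image (Fin.succ : Fin n → Fin (n + 1)))
    (wl M n D.e) (st g 0) (by rw [hX]; exact Xz_comm_e D) (by
      intro i hi
      obtain ⟨j, -, rfl⟩ := Finset.mem_image.1 hi
      rw [hconj, Equiv.swap_apply_left]
      exact hst _ (Fin.succ_ne_zero j)) (by
      intro i hi j hj hij
      obtain ⟨i', -, rfl⟩ := Finset.mem_image.1 hi
      obtain ⟨j', -, rfl⟩ := Finset.mem_image.1 hj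
      have h1 : rho M (n + 1) (Equiv.swap 0 j'.succ) * rho M (n + 1) (Equiv.swap 0 i'.succ) *
          st g 0 * rho M (n + 1) (Equiv.swap 0 i'.succ) * rho M (n + 1) (Equiv.swap 0 j'.succ) =
          st g i'.succ := by
        rw [mul_assoc (rho M (n + 1) (Equiv.swap 0 j'.succ)),
          mul_assoc (rho M (n + 1) (Equiv.swap 0 j'.succ)), hconj, Equiv.swap_apply_left, hconj,
          Equiv.swap_apply_of_ne_of_ne (Fin.succ_ne_zero i') hij]
      rw [h1]
      exact hst _ (Fin.succ_ne_zero i'))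
  rw [Finset.card_image_of_injective _ (Fin.succ_injective n), Finset.card_univ,
    Fintype.card_fin] at key
  have h2 : st g 0 * wl M n D.e = 0 := by
    have h3 : (n : K) • (st g 0 * wl M n D.e) = 0 := by
      rw [Nat.cast_smul_eq_nsmul]
      exact key
    refine (smul_eq_zero.1 h3).resolve_left ?_
    exact Nat.cast_ne_zero.2 (by omega)
  apply D.tensor_zero g
  rw [MonoidalCategory.tensorHom_def']
  have h4 : st g 0 * wl M n D.e = ((M ◁ (show pow M n ⟶ pow M n from D.e)) ≫
      ((show M ⟶ M from g) ▷ pow M n) : M ⊗ pow M n ⟶ M ⊗ pow M n) := by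
    rw [st_zero]
    rfl
  rw [← h4]
  exact h2

end Pool.Agent.W_868bb7_h64
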