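import Pool.Agent.W_868bb7_h64.Base

set_option autoImplicit false

/-!
# Strand: operators on the strands of a tensor power

`pm X n f = f 0 ⊗ f 1 ⊗ ... ⊗ f (n-1)` for `f : Fin n → End X`, `st f j`: `f` on strand `j`.

* `pmv_one`, `pmv_mul`: induction on `n`, `id_tensorHom_id`, `tensorHom_comp_tensorHom`
  (`End.mul_def : f * g = g ≫ f`).
* `rho_pm`: by induction on `n` as for `powMap_act` in `W_MP_868bb7_ag.PowE`
  (`act X (n+1) σ = X ◁ act X n (tail σ) ≫ mv X n (σ 0)` by `rfl`); first prove the statement for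
  `mv X n p` (induction on `n`, `p`), where the basic case is
  `(f ⊗ₘ (g ⊗ₘ h)) ≫ sw Y Z' = sw X Z ≫ (g ⊗ₘ (f ⊗ₘ h))` (compare `tensorHom_sw`), using `tail_spec`
  and `Fin.succAbove` for the reindexing.  Other possibility: both sides are multiplicative in `σ`,
  so that it suffices to treat `shift` of permutations (`act_shift`) and `Equiv.swap 0 1`
  (`act_swap`), which generate.
* `st_comm`: `Pi.mulSingle_commute`; `rho_st`: `rho_pm`.
* `st_neg`: `st f j` is conjugate to `st f 0 = f ▷ pow X n` (`rho_st` for `Equiv.swap 0 j`), then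
  `Neg_tensor_left`, `Neg_comp_left`, `Neg_comp_right`; `st_add`, `st_smul` the same way.
-/

namespace Pool.Agent.W_868bb7_h64

open CategoryTheory MonoidalCategory Pool.Agent.W_MP_868bb7_ag

universe v u w

section Mon

variable {C : Type u} [Category.{v} C] [MonoidalCategory C]

/-- tensor product of endomorphisms -/
def pmv (X : C) : (n : ℕ) → (Fin n → End X) → (pow X n ⟶ pow X n)
  | 0, _ => 𝟙 _
  | n + 1, f => (show X ⟶ X from f 0) ⊗ₘ pmv X n (fun i => f i.succ)

theorem pmv_one (X : C) (n : ℕ) : pmv X n 1 = 𝟙 _ := by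
  induction n with
  | zero => rfl
  | succ n ih =>
    change 𝟙 X ⊗ₘ pmv X n 1 = 𝟙 (X ⊗ pow X n)
    rw [ih, id_tensorHom_id]

theorem pmv_mul (X : C) (n : ℕ) (f g : Fin n → End X) :
    pmv X n (f * g) = pmv X n g ≫ pmv X n f := by
  induction n with
  | zero => exact (Category.id_comp _).symm
  | succ n ih =>
    change ((show X ⟶ X from g 0) ≫ (show X ⟶ X from f 0)) ⊗ₘ
      pmv X n ((fun i => f i.succ) * (fun i => g i.succ)) =
      ((show X ⟶ X from g 0) ⊗ₘ pmv X n (fun i => g i.succ)) ≫
        ((show X ⟶ X from f 0) ⊗ₘ pmv X n (fun i => f i.succ))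
    rw [ih, tensorHom_comp_tensorHom]

/-- tensor product of endomorphisms, as a homomorphism -/
def pm (X : C) (n : ℕ) : (Fin n → End X) →* End (pow X n) where
  toFun f := pmv X n f
  map_one' := pmv_one X n
  map_mul' f g := pmv_mul X n f g

/-- `f` on the strand `j` -/
def st {X : C} {n : ℕ} (f : End X) (j : Fin n) : End (pow X n) := pm X n (Pi.mulSingle j f)

theorem pm_const (X : C) (n : ℕ) (f : End X) :
    pm X n (fun _ => f) = (powMap (show X ⟶ X from f) n : pow X n ⟶ pow X n) := by
  change pmv X n (fun _ => f) = powMap (show X ⟶ X from f) n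
  induction n with
  | zero => rfl
  | succ n ih =>
    change (show X ⟶ X from f) ⊗ₘ pmv X n (fun _ => f) =
      (show X ⟶ X from f) ⊗ₘ powMap (show X ⟶ X from f) n
    rw [ih]

theorem st_mul {X : C} {n : ℕ} (f g : End X) (j : Fin n) : st (f * g) j = st f j * st g j := by
  unfold st
  rw [Pi.mulSingle_mul, map_mul]

theorem st_one {X : C} {n : ℕ} (j : Fin n) : st (1 : End X) j = 1 := by
  unfold st
  rw [Pi.mulSingle_one, map_one]

theorem st_comm {X : C} {n : ℕ} (f g : End X) (i j : Fin n) (h : i ≠ j) :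
    Commute (st f i) (st g j) := by
  unfold st
  exact (Pi.mulSingle_commute (f := fun _ : Fin n => End X) h f g).map (pm X n)

theorem st_zero {X : C} {n : ℕ} (f : End X) :
    st f (0 : Fin (n + 1)) = ((show X ⟶ X from f) ▷ pow X n : X ⊗ pow X n ⟶ X ⊗ pow X n) := by
  have h1 : (fun i : Fin n => (Pi.mulSingle (0 : Fin (n + 1)) f : Fin (n + 1) → End X) i.succ) =
      1 := by
    funext i
    exact Pi.mulSingle_eq_of_ne (Fin.succ_ne_zero i) f
  have h2 : (Pi.mulSingle (0 : Fin (n + 1)) f : Fin (n + 1) → End X) 0 = f :=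
    Pi.mulSingle_eq_same _ _
  change (show X ⟶ X from (Pi.mulSingle (0 : Fin (n + 1)) f : Fin (n + 1) → End X) 0) ⊗ₘ
    pmv X n (fun i => (Pi.mulSingle (0 : Fin (n + 1)) f : Fin (n + 1) → End X) i.succ) = _
  rw [h1, h2, pmv_one, tensorHom_id]

theorem whisker_st {X : C} {n : ℕ} (f : End X) (j : Fin n) :
    (X ◁ (show pow X n ⟶ pow X n from st f j) : X ⊗ pow X n ⟶ X ⊗ pow X n) = st f j.succ := by
  have h1 : (fun i : Fin n => (Pi.mulSingle j.succ f : Fin (n + 1) → End X) i.succ) =
      Pi.mulSingle j f := by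
    funext i
    by_cases hij : i = j
    · subst hij
      rw [Pi.mulSingle_eq_same, Pi.mulSingle_eq_same]
    · rw [Pi.mulSingle_eq_of_ne hij, Pi.mulSingle_eq_of_ne]
      exact fun h => hij (Fin.succ_injective _ h)
  have h2 : (Pi.mulSingle j.succ f : Fin (n + 1) → End X) 0 = 1 :=
    Pi.mulSingle_eq_of_ne (Fin.succ_ne_zero j).symm f
  change _ = (show X ⟶ X from (Pi.mulSingle j.succ f : Fin (n + 1) → End X) 0) ⊗ₘ
    pmv X n (fun i => (Pi.mulSingle j.succ f : Fin (n + 1) → End X) i.succ)
  rw [h1, h2]
  exact (id_tensorHom X (pmv X n (Pi.mulSingle j f))).symm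

end Mon

section Sym

variable {C : Type u} [Category.{v} C] [MonoidalCategory C] [SymmetricCategory C]

theorem Strand_sw {X Z Z' : C} (f g : X ⟶ X) (h : Z ⟶ Z') :
    (f ⊗ₘ (g ⊗ₘ h)) ≫ sw X Z' = sw X Z ≫ (g ⊗ₘ (f ⊗ₘ h)) := by
  unfold sw
  rw [associator_inv_naturality_assoc, Category.assoc, Category.assoc]
  congr 1
  rw [← associator_naturality]
  rw [← Category.assoc, ← Category.assoc]
  congr 1
  rw [← tensorHom_id, ← tensorHom_id, tensorHom_comp_tensorHom, tensorHom_comp_tensorHom,
    BraidedCategory.braiding_naturality, Category.comp_id, Category.id_comp]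

theorem Strand_adj (X : C) (n i : ℕ) (hi : i + 1 < n) (f : Fin n → End X) :
    pmv X n f ≫ pa_adj X n i = pa_adj X n i ≫ pmv X n (f ∘ pa_s n i) := by
  induction n generalizing i with
  | zero => omega
  | succ n ih =>
    cases i with
    | zero =>
      obtain ⟨n, rfl⟩ : ∃ m, n = m + 1 := ⟨n - 1, by omega⟩
      have e0 : (f ∘ pa_s (n + 1 + 1) 0) 0 = f 1 := by
        have h1 : pa_s (n + 1 + 1) 0 0 = 1 := by
          apply Fin.ext
          rw [pa_s_val hi]
          simp
        exact congrArg f h1
      have e1 : (f ∘ pa_s (n + 1 + 1) 0) 1 = f 0 := by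
        have h1 : pa_s (n + 1 + 1) 0 1 = 0 := by
          apply Fin.ext
          rw [pa_s_val hi]
          simp
        exact congrArg f h1
      have e2 : (fun j : Fin n => (f ∘ pa_s (n + 1 + 1) 0) j.succ.succ) =
          fun j => f j.succ.succ := by
        funext j
        have h1 : pa_s (n + 1 + 1) 0 j.succ.succ = j.succ.succ := by
          apply Fin.ext
          rw [pa_s_val hi]
          simp
        exact congrArg f h1
      change ((show X ⟶ X from f 0) ⊗ₘ ((show X ⟶ X from f 1) ⊗ₘ
        pmv X n (fun j => f j.succ.succ))) ≫ sw X (pow X n) = sw X (pow X n) ≫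
          ((show X ⟶ X from (f ∘ pa_s (n + 1 + 1) 0) 0) ⊗ₘ
          ((show X ⟶ X from (f ∘ pa_s (n + 1 + 1) 0) 1) ⊗ₘ
          pmv X n (fun j => (f ∘ pa_s (n + 1 + 1) 0) j.succ.succ)))
      rw [e0, e1, e2]
      exact Strand_sw _ _ _
    | succ i =>
      have e0 : (f ∘ pa_s (n + 1) (i + 1)) 0 = f 0 := by
        have h1 : pa_s (n + 1) (i + 1) 0 = 0 := by
          apply Fin.ext
          rw [pa_s_val hi]
          simp
        exact congrArg f h1
      have e1 : (fun j : Fin n => (f ∘ pa_s (n + 1) (i + 1)) j.succ) =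
          (fun j => f j.succ) ∘ pa_s n i := by
        funext j
        have h1 : pa_s (n + 1) (i + 1) j.succ = (pa_s n i j).succ := by
          apply Fin.ext
          rw [pa_s_val hi, Fin.val_succ, Fin.val_succ, pa_s_val (by omega)]
          split_ifs <;> omega
        exact congrArg f h1
      rw [pa_adj_succ]
      change ((show X ⟶ X from f 0) ⊗ₘ pmv X n (fun j => f j.succ)) ≫ X ◁ pa_adj X n i =
        X ◁ pa_adj X n i ≫ ((show X ⟶ X from (f ∘ pa_s (n + 1) (i + 1)) 0) ⊗ₘ
          pmv X n (fun j => (f ∘ pa_s (n + 1) (i + 1)) j.succ))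
      rw [e0, e1]
      rw [← id_tensorHom, tensorHom_comp_tensorHom, tensorHom_comp_tensorHom,
        ih i (by omega), Category.comp_id, Category.id_comp]

theorem rho_pm (X : C) (n : ℕ) (σ : Equiv.Perm (Fin n)) (f : Fin n → End X) :
    rho X n σ * pm X n f = pm X n (f ∘ σ.symm) * rho X n σ := by
  cases n with
  | zero =>
    have h1 : f ∘ σ.symm = f := Subsingleton.elim _ _
    have h2 : σ = 1 := Subsingleton.elim _ _
    rw [h1, h2, map_one, one_mul, mul_one]
  | succ n =>
    have hσ : σ ∈ Submonoid.closure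
        (Set.range fun i : Fin n => Equiv.swap i.castSucc i.succ) := by
      rw [Equiv.Perm.mclosure_swap_castSucc_succ]
      trivial
    induction hσ using Submonoid.closure_induction_left generalizing f with
    | one =>
      rw [map_one, one_mul, mul_one]
      rfl
    | mul_left x hx y _ ih =>
      obtain ⟨i, rfl⟩ := hx
      have e : Equiv.swap i.castSucc i.succ = pa_s (n + 1) i.val := by
        unfold pa_s
        rw [dif_pos (by have := i.isLt; omega)]
        rfl
      have e1 : act X (n + 1) (pa_s (n + 1) i.val) = pa_adj X (n + 1) i.val := by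
        have h1 := act_s X (n + 1) i.val (by have := i.isLt; omega) 1
        rw [mul_one, act_one] at h1
        rw [h1]
        exact Category.id_comp _
      have e2 : ∀ g : Fin (n + 1) → End X, rho X (n + 1) (pa_s (n + 1) i.val) * pm X (n + 1) g =
          pm X (n + 1) (g ∘ (pa_s (n + 1) i.val)) * rho X (n + 1) (pa_s (n + 1) i.val) := by
        intro g
        change pmv X (n + 1) g ≫ act X (n + 1) (pa_s (n + 1) i.val) =
          act X (n + 1) (pa_s (n + 1) i.val) ≫ pmv X (n + 1) (g ∘ (pa_s (n + 1) i.val))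
        rw [e1]
        exact Strand_adj X (n + 1) i.val (by have := i.isLt; omega) g
      have e3 : f ∘ (Equiv.swap i.castSucc i.succ * y).symm =
          (f ∘ y.symm) ∘ (pa_s (n + 1) i.val) := by
        rw [← e]
        funext j
        change f (y.symm ((Equiv.swap i.castSucc i.succ).symm j)) = _
        rw [Equiv.symm_swap]
        rfl
      beta_reduce
      rw [e3, e, map_mul, mul_assoc, ih, ← mul_assoc, e2, mul_assoc]

theorem rho_st {X : C} {n : ℕ} (σ : Equiv.Perm (Fin n)) (f : End X) (j : Fin n) :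
    rho X n σ * st f j = st f (σ j) * rho X n σ := by
  unfold st
  rw [rho_pm]
  congr 2
  funext i
  change (Pi.mulSingle j f : Fin n → End X) (σ.symm i) =
    (Pi.mulSingle (σ j) f : Fin n → End X) i
  by_cases h : i = σ j
  · rw [h, Equiv.symm_apply_apply, Pi.mulSingle_eq_same, Pi.mulSingle_eq_same]
  · rw [Pi.mulSingle_eq_of_ne h, Pi.mulSingle_eq_of_ne]
    exact fun h' => h (by rw [← h', Equiv.apply_symm_apply])

theorem whisker_rho (X : C) (n : ℕ) (σ : Equiv.Perm (Fin n)) :
    (X ◁ (show pow X n ⟶ pow X n from rho X n σ) : X ⊗ pow X n ⟶ X ⊗ pow X n) =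
      rho X (n + 1) (shift σ) := (act_shift X n σ).symm

end Sym

section Lin

variable (K : Type w) [Field K] {C : Type u} [Category.{v} C] [MonoidalCategory C]
  [Preadditive C] [Linear K C] [MonoidalPreadditive C] [MonoidalLinear K C]
  [SymmetricCategory C]

omit [Linear K C] [MonoidalLinear K C] in
theorem st_add {X : C} {n : ℕ} (f g : End X) (j : Fin n) : st (f + g) j = st f j + st g j := by
  induction n with
  | zero => exact j.elim0
  | succ n ih =>
    refine Fin.cases ?_ (fun j => ?_) j
    · rw [st_zero, st_zero, st_zero]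
      exact MonoidalPreadditive.add_whiskerRight _ _
    · rw [← whisker_st, ← whisker_st, ← whisker_st]
      have h1 : (show pow X n ⟶ pow X n from st (f + g) j) =
          (show pow X n ⟶ pow X n from st f j) + (show pow X n ⟶ pow X n from st g j) := ih j
      rw [h1]
      exact MonoidalPreadditive.whiskerLeft_add _ _

theorem st_smul {X : C} {n : ℕ} (a : K) (f : End X) (j : Fin n) : st (a • f) j = a • st f j := by
  induction n with
  | zero => exact j.elim0
  | succ n ih =>
    refine Fin.cases ?_ (fun j => ?_) j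
    · rw [st_zero, st_zero]
      exact MonoidalLinear.smul_whiskerRight a _ _
    · rw [← whisker_st, ← whisker_st]
      have h1 : (show pow X n ⟶ pow X n from st (a • f) j) =
          a • (show pow X n ⟶ pow X n from st f j) := ih j
      rw [h1]
      exact MonoidalLinear.whiskerLeft_smul _ a _

theorem st_neg [RightRigidCategory C] [UnitK K C] {X : C} {n : ℕ} (f : X ⟶ X) (hf : Neg K f)
    (j : Fin n) : Neg K (show pow X n ⟶ pow X n from st f j) := by
  induction n with
  | zero => exact j.elim0
  | succ n ih =>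
    refine Fin.cases ?_ (fun j => ?_) j
    · rw [st_zero, ← tensorHom_id]
      exact Neg_tensor_left K _ _ hf
    · rw [← whisker_st, ← id_tensorHom]
      exact Neg_tensor_right K _ _ (ih j)

end Lin

end Pool.Agent.W_868bb7_h64
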