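import Pool.Agent.W_868bb7_h64.Star
import Pool.Agent.W_868bb7_h64.JoinAct

set_option autoImplicit false

/-!
# XB: the operator `v^{⊗ k} ≫ E` placed on a set `B` of `k` strands

* `xB_conj`: `SEsum_conj` and `rho_pm` (`ind v B ∘ σ.symm = ind v (B.map σ)`).
* `xB_wl`: `SEsum_succ` and `wl (pm f) = pm (Fin.cons 1 f)` (by definition of `pmv`).
* `xB_univ`: `SEsum b M k univ = E b M k`, `pm_const`, and `powMap_E` for the order.
* `xB_neg`: follow the proof of `SEsum_pow` in `W_MP_868bb7_ag.SEPow` (induction on `N`; if
  `B = univ` use `xB_univ`; otherwise conjugate so that `0 ∉ B`, `xB_conj`, and use `xB_wl` and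
  `Neg_tensor_right`).
* `xB_shift`: `B ⊆ {x | a ≤ x}`: iterate `xB_wl`.
* `xB_first`: `SEsum_J` and `pmv_J`.
-/

namespace Pool.Agent.W_868bb7_h64

open CategoryTheory MonoidalCategory Pool.Agent.W_MP_868bb7_ag

universe v u w

section

variable {C : Type u} [Category.{v} C] [MonoidalCategory C]

/-- `v` on the strands of `B` -/
def ind {M : C} {N : ℕ} (v : End M) (B : Finset (Fin N)) : Fin N → End M :=
  fun j => if j ∈ B then v else 1

theorem pm_ind_insert {M : C} {N : ℕ} (v : End M) (B : Finset (Fin N)) (j : Fin N) (h : j ∉ B) :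
    pm M N (ind v (insert j B)) = st v j * pm M N (ind v B) := by
  unfold st
  rw [← map_mul]
  congr 1
  funext i
  rw [Pi.mul_apply]
  by_cases hi : i = j
  · subst hi
    rw [Pi.mulSingle_eq_same]
    simp [ind, h]
  · rw [Pi.mulSingle_eq_of_ne hi, one_mul]
    simp [ind, hi]

end

variable {C : Type u} [Category.{v} C] [MonoidalCategory C] [SymmetricCategory C]
  [Preadditive C]

/-- the operator `v^{⊗ k} ≫ E b` on the strands of `B` -/
def xB (b : Bool) {M : C} (v : End M) {N : ℕ} (B : Finset (Fin N)) : End (pow M N) :=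
  (show End (pow M N) from SEsum b M N B) * pm M N (ind v B)

theorem xB_conj (b : Bool) {M : C} (v : End M) {N : ℕ} (B : Finset (Fin N))
    (σ : Equiv.Perm (Fin N)) :
    rho M N σ * xB b v B * rho M N σ⁻¹ = xB b v (B.map σ.toEmbedding) := by
  have h1 : (show End (pow M N) from SEsum b M N (B.map σ.toEmbedding)) =
      rho M N σ * (show End (pow M N) from SEsum b M N B) * rho M N σ⁻¹ := by
    rw [SEsum_conj]
    rfl
  have h2 : ind v (B.map σ.toEmbedding) = ind v B ∘ σ.symm := by
    funext i
    have h3 : i ∈ B.map σ.toEmbedding ↔ σ.symm i ∈ B := by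
      rw [Finset.mem_map]
      constructor
      · rintro ⟨j, hj, rfl⟩
        simpa using hj
      · intro hi
        exact ⟨σ.symm i, hi, by simp⟩
    simp only [ind, Function.comp_apply, h3]
  have h4 := rho_pm M N σ (ind v B)
  have h5 : rho M N σ⁻¹ * rho M N σ = 1 := by rw [← map_mul, inv_mul_cancel, map_one]
  have h6 : rho M N σ * rho M N σ⁻¹ = 1 := by rw [← map_mul, mul_inv_cancel, map_one]
  unfold xB
  rw [h1, h2]
  calc rho M N σ * ((show End (pow M N) from SEsum b M N B) * pm M N (ind v B)) * rho M N σ⁻¹
      = rho M N σ * (show End (pow M N) from SEsum b M N B) * (rho M N σ⁻¹ * rho M N σ) *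
          pm M N (ind v B) * rho M N σ⁻¹ := by
        rw [h5]; simp only [mul_assoc, one_mul, mul_one]
    _ = rho M N σ * (show End (pow M N) from SEsum b M N B) * rho M N σ⁻¹ *
          (rho M N σ * pm M N (ind v B)) * rho M N σ⁻¹ := by simp only [mul_assoc]
    _ = rho M N σ * (show End (pow M N) from SEsum b M N B) * rho M N σ⁻¹ *
          pm M N (ind v B ∘ σ.symm) * (rho M N σ * rho M N σ⁻¹) := by
        rw [h4]; simp only [mul_assoc]
    _ = _ := by rw [h6, mul_one]

theorem xB_univ (b : Bool) {M : C} (v : End M) (k : ℕ) :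
    xB b v (Finset.univ : Finset (Fin k)) =
      (powMap (show M ⟶ M from v) k ≫ E b M k : pow M k ⟶ pow M k) := by
  have h1 : SEsum b M k (Finset.univ : Finset (Fin k)) = E b M k := by
    unfold SEsum E
    rw [Finset.filter_true_of_mem]
    intro s _
    exact Finset.subset_univ _
  have h2 : ind v (Finset.univ : Finset (Fin k)) = fun _ => v := by
    funext i
    simp [ind]
  unfold xB
  rw [h1, h2, pm_const]
  rfl

variable [MonoidalPreadditive C]

theorem xB_wl (b : Bool) {M : C} (v : End M) {N : ℕ} (B : Finset (Fin (N + 1)))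
    (h0 : (0 : Fin (N + 1)) ∉ B) :
    xB b v B = wl M N (xB b v (Finset.univ.filter (fun i : Fin N => i.succ ∈ B))) := by
  unfold xB
  rw [map_mul]
  congr 1
  · rw [SEsum_succ b M N B h0]
    rfl
  · change ((show M ⟶ M from ind v B 0) ⊗ₘ pmv M N (fun i => ind v B i.succ)) =
      M ◁ pmv M N (ind v (Finset.univ.filter (fun i : Fin N => i.succ ∈ B)))
    have h1 : ind v B 0 = 1 := by simp [ind, h0]
    have h2 : (fun i : Fin N => ind v B i.succ) =
        ind v (Finset.univ.filter (fun i : Fin N => i.succ ∈ B)) := by
      funext i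
      simp [ind]
    rw [h1, h2]
    exact MonoidalCategory.id_tensorHom _ _

theorem xB_shift (b : Bool) {M : C} (v : End M) (a m : ℕ) (B : Finset (Fin (m + a)))
    (h : ∀ x ∈ B, a ≤ x.val) :
    xB b v B = wT M (show pow M m ⟶ pow M m from xB b v (Finset.univ.filter
      (fun i : Fin m => (⟨i.val + a, by omega⟩ : Fin (m + a)) ∈ B))) a := by
  induction a with
  | zero =>
    have h1 : (Finset.univ.filter
        (fun i : Fin m => (⟨i.val + 0, by omega⟩ : Fin (m + 0)) ∈ B)) = B := by
      ext i
      simp
    rw [h1]
    rfl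
  | succ a ih =>
    have h0 : (0 : Fin (m + a + 1)) ∉ B := by
      intro h0
      have := h 0 h0
      simp at this
    have h1 := xB_wl b v (N := m + a) B h0
    refine h1.trans ?_
    rw [ih (Finset.univ.filter (fun i : Fin (m + a) => i.succ ∈ B)) ?_]
    · have h2 : (Finset.univ.filter (fun i : Fin m => (⟨i.val + a, by omega⟩ : Fin (m + a)) ∈
          (Finset.univ.filter (fun i : Fin (m + a) => i.succ ∈ B)))) =
          Finset.univ.filter
            (fun i : Fin m => (⟨i.val + (a + 1), by omega⟩ : Fin (m + (a + 1))) ∈ B) := by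
        ext i
        simp only [Finset.mem_filter, Finset.mem_univ, true_and]
        rfl
      rw [h2]
      rfl
    · intro x hx
      rw [Finset.mem_filter] at hx
      have := h _ hx.2
      simp only [Fin.val_succ] at this
      omega

theorem xB_first (b : Bool) {M : C} (v : End M) (a m : ℕ) :
    ((powMap (show M ⟶ M from v) a ≫ E b M a) ▷ pow M m) ≫ (J M a m).hom = (J M a m).hom ≫
      xB b v (Finset.univ.filter (fun x : Fin (m + a) => x.val < a)) := by
  have h1 := SEsum_J b M a m
  have h2 := pmv_J M a m (fun _ => v) 1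
  rw [pmv_one, MonoidalCategory.tensorHom_id] at h2
  have h3 : pmv M a (fun _ => v) = powMap (show M ⟶ M from v) a := pm_const M a v
  have h4 : (fun x : Fin (m + a) => Sum.elim (fun _ : Fin a => v) (1 : Fin m → End M)
      ((sumE a m).symm x)) = ind v (Finset.univ.filter (fun x : Fin (m + a) => x.val < a)) := by
    funext x
    obtain ⟨y, rfl⟩ := (sumE a m).surjective x
    rw [Equiv.symm_apply_apply]
    rcases y with y | y
    · have : ((sumE a m) (Sum.inl y)).val < a := by
        simp [sumE]
      simp [ind, this]
    · have : ¬ ((sumE a m) (Sum.inr y)).val < a := by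
        simp [sumE]
      simp [ind, this]
  rw [h3, h4] at h2
  rw [comp_whiskerRight, Category.assoc, h1, ← Category.assoc, h2, Category.assoc]
  rfl

variable (K : Type w) [Field K] [Linear K C] [MonoidalLinear K C] [RightRigidCategory C]
  [UnitK K C]

theorem xB_neg (b : Bool) {M : C} (v : M ⟶ M) (k : ℕ) (h : Neg K (powMap v k ≫ E b M k)) :
    ∀ (N : ℕ) (B : Finset (Fin N)), B.card = k →
      Neg K (show pow M N ⟶ pow M N from xB b (show End M from v) B) := by
  have key : ∀ (N : ℕ) (B : Finset (Fin N)), B.card = k → B = Finset.univ →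
      Neg K (show pow M N ⟶ pow M N from xB b (show End M from v) B) := by
    intro N B hB hu
    subst hu
    rw [Finset.card_univ, Fintype.card_fin] at hB
    subst hB
    rw [xB_univ]
    exact h
  intro N
  induction N with
  | zero =>
    intro B hB
    refine key 0 B hB ?_
    ext i
    exact i.elim0
  | succ N ih =>
    intro B hB
    have case0 : ∀ B : Finset (Fin (N + 1)), B.card = k → (0 : Fin (N + 1)) ∉ B →
        Neg K (show pow M (N + 1) ⟶ pow M (N + 1) from xB b (show End M from v) B) := by
      intro B hB h0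
      rw [xB_wl b _ B h0]
      have hc : (Finset.univ.filter (fun i : Fin N => i.succ ∈ B)).card = k := by
        rw [← hB]
        have : B = (Finset.univ.filter (fun i : Fin N => i.succ ∈ B)).map
            (Fin.succEmb N) := by
          ext i
          rw [Finset.mem_map]
          constructor
          · intro hi
            rcases Fin.eq_zero_or_eq_succ i with rfl | ⟨j, rfl⟩
            · exact absurd hi h0
            · exact ⟨j, Finset.mem_filter.2 ⟨Finset.mem_univ _, hi⟩, rfl⟩
          · rintro ⟨j, hj, rfl⟩
            exact (Finset.mem_filter.1 hj).2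
        conv_rhs => rw [this]
        rw [Finset.card_map]
      have h1 := ih _ hc
      have h2 : Neg K (𝟙 M ⊗ₘ (show pow M N ⟶ pow M N from xB b (show End M from v)
          (Finset.univ.filter (fun i : Fin N => i.succ ∈ B)))) := Neg_tensor_right K _ _ h1
      rw [MonoidalCategory.id_tensorHom] at h2
      exact h2
    by_cases hu : B = Finset.univ
    · exact key _ B hB hu
    · obtain ⟨i, hi⟩ : ∃ i, i ∉ B := by
        by_contra hcon
        push Not at hcon
        exact hu (Finset.eq_univ_iff_forall.2 hcon)
      have hB2 : (B.map (Equiv.swap 0 i).toEmbedding).card = k := by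
        rw [Finset.card_map, hB]
      have h02 : (0 : Fin (N + 1)) ∉ B.map (Equiv.swap 0 i).toEmbedding := by
        rw [Finset.mem_map]
        rintro ⟨j, hj, hj2⟩
        have : j = i := by
          have h5 : Equiv.swap 0 i j = 0 := hj2
          have h6 : Equiv.swap 0 i (Equiv.swap 0 i j) = Equiv.swap 0 i 0 := by rw [h5]
          rw [Equiv.swap_apply_left] at h6
          simpa using h6
        exact hi (this ▸ hj)
      have h7 := case0 _ hB2 h02
      have h8 : B = (B.map (Equiv.swap 0 i).toEmbedding).map (Equiv.swap 0 i).toEmbedding := by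
        ext j
        simp
      rw [h8, ← xB_conj]
      exact Neg_comp_left K _ _ (Neg_comp_right K _ _ h7)

end Pool.Agent.W_868bb7_h64
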